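import Pool.Agent.AmpDual.Topo

set_option autoImplicit false

/-! The double twist; extendable convexity. -/

namespace Pool.Agent.AmpDual

open Matrix

/-- periodic extension with sign `(-1)^e` -/
noncomputable def ze (e : ℕ) {p n : ℕ} (Z : Matrix (Fin p) (Fin n) ℝ) (j : ℤ) : Fin p → ℝ :=
  fun c => if h : (j % n).toNat < n then
    ((-1 : ℝ) ^ e) ^ (j / (n : ℤ)) * Z c ⟨(j % n).toNat, h⟩ else 0

lemma zz_eq_ze {k n : ℕ} (Z : Matrix (Fin (k + 2)) (Fin n) ℝ) : zz Z = ze (k + 1) Z := rfl

lemma neg_one_pow_ne (e : ℕ) : ((-1 : ℝ) ^ e) ≠ 0 := by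
  rcases neg_one_pow_eq_or ℝ e with h3 | h3 <;> rw [h3] <;> norm_num

lemma ze_per {e p n : ℕ} (hn : 0 < n) (Z : Matrix (Fin p) (Fin n) ℝ) (j : ℤ) :
    ze e Z (j + n) = (-1 : ℝ) ^ e • ze e Z j := by
  have h1 : (j + n) % (n : ℤ) = j % n := Int.add_emod_right j n
  have h2 : (j + n) / (n : ℤ) = j / n + 1 := by
    rw [Int.add_ediv_of_dvd_right (dvd_refl _), Int.ediv_self (by omega)]
  funext c
  simp only [ze, h1, h2, Pi.smul_apply, smul_eq_mul]
  split_ifs with h
  · rw [zpow_add_one₀ (neg_one_pow_ne e)]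
    ring
  · simp

lemma ze_apply {e p n : ℕ} (Z : Matrix (Fin p) (Fin n) ℝ) (j : Fin n) (c : Fin p) :
    ze e Z (((j : ℕ) : ℤ)) c = Z c j := by
  unfold ze
  have h1 : ((((j : ℕ) : ℤ)) % n).toNat = j := by
    have := j.2
    rw [Int.emod_eq_of_lt (by omega) (by omega)]
    simp
  have h2 : ((j : ℕ) : ℤ) / n = 0 := Int.ediv_eq_zero_of_lt (by omega) (by have := j.2; omega)
  simp only [h1, h2, j.2, dite_true, zpow_zero, one_mul]

/-- iterated periodicity -/
lemma per_iter {e p n : ℕ} {g : ℤ → (Fin p → ℝ)} (hg : ∀ j, g (j + n) = (-1 : ℝ) ^ e • g j)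
    (j t : ℤ) : g (j + t * n) = ((-1 : ℝ) ^ e) ^ t • g j := by
  induction t using Int.induction_on with
  | zero => simp
  | succ t ih =>
    have : j + (((t : ℕ) : ℤ) + 1) * n = (j + ((t : ℕ) : ℤ) * n) + n := by ring
    rw [this, hg, ih, zpow_add_one₀ (neg_one_pow_ne e), smul_smul, mul_comm]
  | pred t ih =>
    have h1 := hg (j + (-((t : ℕ) : ℤ) - 1) * n)
    have : j + (-((t : ℕ) : ℤ) - 1) * n + n = j + (-((t : ℕ) : ℤ)) * n := by ring
    rw [this, ih] at h1
    have h2 : ((-1 : ℝ) ^ e)⁻¹ • ((-1 : ℝ) ^ e) • g (j + (-((t : ℕ) : ℤ) - 1) * n) =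
        g (j + (-((t : ℕ) : ℤ) - 1) * n) := inv_smul_smul₀ (neg_one_pow_ne e) _
    rw [← h2, ← h1, smul_smul, zpow_sub_one₀ (neg_one_pow_ne e), mul_comm]

/-- uniqueness of the periodic extension -/
lemma ze_unique {e p n : ℕ} (hn : 0 < n) (Z : Matrix (Fin p) (Fin n) ℝ) {g : ℤ → (Fin p → ℝ)}
    (hg : ∀ j, g (j + n) = (-1 : ℝ) ^ e • g j) (h : ∀ (j : Fin n) c, g (((j : ℕ) : ℤ)) c = Z c j) :
    g = ze e Z := by
  funext j
  have h1 : j = j % n + (j / n) * n := by
    have := Int.emod_add_mul_ediv j n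
    linarith [mul_comm (n : ℤ) (j / n)]
  have h0 : 0 ≤ j % n := Int.emod_nonneg _ (by omega)
  have h0' : j % n < n := Int.emod_lt_of_pos _ (by omega)
  obtain ⟨q, hq⟩ : ∃ q : Fin n, (((q : ℕ) : ℤ)) = j % n :=
    ⟨⟨(j % n).toNat, by omega⟩, by
      show (((j % n).toNat : ℕ) : ℤ) = j % n
      omega⟩
  rw [h1, per_iter hg, per_iter (ze_per hn Z), ← hq]
  congr 1
  funext c
  rw [h, ze_apply]

lemma periodic_sum {V : Type*} [AddCommGroup V] {n : ℕ} {F : ℤ → V}
    (hF : ∀ j, F (j + n) = F j) (s : ℤ) :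
    ∑ j ∈ Finset.range n, F ((j : ℤ) + s) = ∑ j ∈ Finset.range n, F (j : ℤ) := by
  have step : ∀ s : ℤ, ∑ j ∈ Finset.range n, F ((j : ℤ) + (s + 1)) =
      ∑ j ∈ Finset.range n, F ((j : ℤ) + s) := by
    intro s
    have h1 := Finset.sum_range_succ (fun j : ℕ => F ((j : ℤ) + s)) n
    have h2 := Finset.sum_range_succ' (fun j : ℕ => F ((j : ℤ) + s)) n
    rw [h1] at h2
    have h3 : F ((n : ℤ) + s) = F s := by
      rw [add_comm]
      exact hF s
    have h4 : F (((0 : ℕ) : ℤ) + s) = F s := by simp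
    rw [h3, h4] at h2
    have h5 := add_right_cancel h2
    rw [h5]
    apply Finset.sum_congr rfl
    intro j _
    congr 1
    push_cast
    ring
  induction s using Int.induction_on with
  | zero => simp
  | succ t ih => rw [step, ih]
  | pred t ih =>
    have h := step (-((t : ℕ) : ℤ) - 1)
    rw [show -((t : ℕ) : ℤ) - 1 + 1 = -((t : ℕ) : ℤ) by ring] at h
    rw [← h, ih]

/-- nonnegativity of rotated minors -/
lemma rot_minor {k n : ℕ} {M : Matrix (Fin k) (Fin n) ℝ} (hn : 0 < n) (hM : MaxMinorsNonneg M)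
    {f : Fin k → ℤ} (hf : In n f) : 0 ≤ D (ze (k + 1) M ∘ f) := by
  obtain ⟨g, hg1, hg2, hg3, _⟩ := normalize hf 0
  rw [← hg3 (ze (k + 1) M) (ze_per hn M)]
  obtain ⟨J, hJ, rfl⟩ := exists_castT hg1.1 hg2
  have e : D (ze (k + 1) M ∘ castT J) = (M.submatrix id J).det := by
    unfold D
    rw [← Matrix.det_transpose]
    congr 1
    ext a b
    simp only [Matrix.transpose_apply, Matrix.of_apply, Function.comp_apply, castT, ze_apply]
    rfl
  rw [e]
  exact hM J hJ

/-- the amplituhedron does not change under rotation and positive scaling of the columns -/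
theorem amp_shift {k n : ℕ} (hn : 0 < n) {Z Z' : Matrix (Fin (k + 2)) (Fin n) ℝ} (s : ℤ)
    (d : ℤ → ℝ) (hd : ∀ i, 0 < d i) (hdper : ∀ i, d (i + n) = d i) {c : ℝ} (hc : c ≠ 0)
    (h : ∀ i, zz Z' i = (c * d i) • zz Z (i + s)) : amplituhedron Z' ⊆ amplituhedron Z := by
  rintro V ⟨M, hM1, hM2, hV⟩
  set M' : Matrix (Fin k) (Fin n) ℝ := Matrix.of (fun a (j : Fin n) =>
    d (((j : ℕ) : ℤ) - s) * ze (k + 1) M (((j : ℕ) : ℤ) - s) a) with hM'
  have hmul : ∀ a, (M' * Zᵀ) a = c⁻¹ • (M * Z'ᵀ) a := by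
    intro a
    have e1 : (M' * Zᵀ) a = ∑ j ∈ Finset.range n,
        (d ((j : ℤ) - s) * ze (k + 1) M ((j : ℤ) - s) a) • zz Z (j : ℤ) := by
      rw [Finset.sum_range]
      funext q
      rw [Matrix.mul_apply, Finset.sum_apply]
      apply Finset.sum_congr rfl
      intro j _
      rw [Pi.smul_apply, smul_eq_mul, zz_apply]
      rfl
    have e2 : (M * Z'ᵀ) a = ∑ j ∈ Finset.range n, (ze (k + 1) M (j : ℤ) a) • zz Z' (j : ℤ) := by
      rw [Finset.sum_range]
      funext q
      rw [Matrix.mul_apply, Finset.sum_apply]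
      apply Finset.sum_congr rfl
      intro j _
      rw [Pi.smul_apply, smul_eq_mul, zz_apply, ze_apply]
      rfl
    rw [e1, e2, Finset.smul_sum]
    have e3 := periodic_sum (n := n) (F := fun j : ℤ =>
      (d (j - s) * ze (k + 1) M (j - s) a) • zz Z j) (by
        intro j
        have h1 : j + n - s = (j - s) + n := by ring
        have h2 := congrFun (ze_per (e := k + 1) hn M (j - s)) a
        rw [Pi.smul_apply, smul_eq_mul] at h2
        show (d (j + n - s) * ze (k + 1) M (j + n - s) a) • zz Z (j + n) = _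
        rw [h1, hdper, h2, zz_per hn Z j, smul_smul]
        congr 1
        have h3 : ((-1 : ℝ) ^ (k + 1)) * (-1) ^ (k + 1) = 1 := by
          rw [← pow_add]
          exact Even.neg_one_pow ⟨k + 1, rfl⟩
        calc _ = d (j - s) * ze (k + 1) M (j - s) a * (((-1 : ℝ) ^ (k + 1)) * (-1) ^ (k + 1)) := by
              ring
          _ = _ := by rw [h3, mul_one]) s
    rw [← e3]
    apply Finset.sum_congr rfl
    intro j _
    show (d ((j : ℤ) + s - s) * ze (k + 1) M ((j : ℤ) + s - s) a) • zz Z ((j : ℤ) + s) = _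
    rw [add_sub_cancel_right, h, smul_smul, smul_smul]
    congr 1
    field_simp
  have hspan : Submodule.span ℝ (Set.range (fun a => (M' * Zᵀ) a)) =
      Submodule.span ℝ (Set.range (fun a => (M * Z'ᵀ) a)) := by
    apply le_antisymm
    · rw [Submodule.span_le]
      rintro _ ⟨a, rfl⟩
      show (M' * Zᵀ) a ∈ _
      rw [hmul]
      exact Submodule.smul_mem _ _ (Submodule.subset_span ⟨a, rfl⟩)
    · rw [Submodule.span_le]
      rintro _ ⟨a, rfl⟩
      have : (M * Z'ᵀ) a = c • (M' * Zᵀ) a := by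
        rw [hmul, smul_smul, mul_inv_cancel₀ hc, one_smul]
      show (M * Z'ᵀ) a ∈ _
      rw [this]
      exact Submodule.smul_mem _ _ (Submodule.subset_span ⟨a, rfl⟩)
  have hli : LinearIndependent ℝ (fun a => (M' * Zᵀ) a) := by
    rw [linearIndependent_iff_card_eq_finrank_span, Set.finrank, hspan, ← hV, Fintype.card_fin]
    exact V.2.symm
  refine ⟨M', li_of_mul hli, ?_, ?_⟩
  · intro J hJ
    have h1 := rot_minor hn hM2 ((castT_in hJ).shift (-s))
    have h2 : (M'.submatrix id J).det = (∏ a, d ((castT J a) + -s)) *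
        D (ze (k + 1) M ∘ (fun a => castT J a + -s)) := by
      rw [← D_scale]
      unfold D
      rw [← Matrix.det_transpose]
      congr 1
    rw [h2]
    exact mul_nonneg (Finset.prod_nonneg (fun a _ => (hd _).le)) h1
  · rw [hspan]
    exact hV

lemma zz_twist {k n : ℕ} (hn : k + 2 ≤ n) (Z : Matrix (Fin (k + 2)) (Fin n) ℝ) :
    zz (twist Z) = Wv (zz Z) := by
  rw [zz_eq_ze]
  symm
  apply ze_unique (by omega)
  · exact Wv_per (zz_per (by omega) Z)
  · intro j c
    rw [twist_apply hn]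

/-- the double twist is a rotation up to scaling -/
lemma double_twist {k n : ℕ} (hn : k + 2 ≤ n) {z : ℤ → (Fin (k + 2) → ℝ)} (hz : Per k n z)
    (hp : Pos k n z) (i : ℤ) :
    ∃ c : ℝ, 0 < c ∧ Wv (Wv z) i = ((-1 : ℝ) ^ (k + 1) * c) • z (i + k) := by
  have hW := Wv_pos hn hz hp
  -- values
  have hval : ∀ (z : ℤ → (Fin (k + 2) → ℝ)) (j : ℤ) (u : Fin (k + 2) → ℝ),
      u ⬝ᵥ Wv z j = Wf z (win (k + 1) j) u := by
    intro z j u
    rw [Wf_eq_sum, dotProduct_comm]
    rfl
  have hz0 : ∀ j : ℤ, i ≤ j → j ≤ i + k → z (i + k) ⬝ᵥ Wv z j = 0 := by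
    intro j h1 h2
    rw [hval]
    obtain ⟨e, he⟩ : ∃ e : ℕ, (e : ℤ) = i + k - j := ⟨(i + k - j).toNat, by omega⟩
    have := D1_self (z ∘ win (k + 1) j) ⟨e, by omega⟩
    unfold Wf
    have e2 : (z ∘ win (k + 1) j) ⟨e, by omega⟩ = z (i + k) := by
      simp only [Function.comp_apply, win]
      congr 1
      omega
    rw [e2] at this
    exact this
  have hw0 : ∀ j : ℤ, i ≤ j → j ≤ i + k → Wv (Wv z) i ⬝ᵥ Wv z j = 0 := by
    intro j h1 h2
    rw [dotProduct_comm, hval (Wv z)]
    obtain ⟨e, he⟩ : ∃ e : ℕ, (e : ℤ) = j - i := ⟨(j - i).toNat, by omega⟩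
    have := D1_self (Wv z ∘ win (k + 1) i) ⟨e, by omega⟩
    unfold Wf
    have e2 : (Wv z ∘ win (k + 1) i) ⟨e, by omega⟩ = Wv z j := by
      simp only [Function.comp_apply, win]
      congr 1
      omega
    rw [e2] at this
    exact this
  have hz1 : 0 < (-1 : ℝ) ^ (k + 1) * (z (i + k) ⬝ᵥ Wv z (i + (k + 1 : ℕ))) := by
    rw [hval, ← Wf_vec_per hz]
    have h1 : In n (Fin.snoc (α := fun _ => ℤ) (win (k + 1) (i + (k + 1 : ℕ))) (i + k + n)) := by
      constructor
      · intro a b hab
        induction b using Fin.lastCases with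
        | last =>
          rw [Fin.snoc_last]
          induction a using Fin.lastCases with
          | last => exact absurd hab (lt_irrefl _)
          | cast a =>
            rw [Fin.snoc_castSucc]
            simp only [win]
            have := a.2
            push_cast
            omega
        | cast b =>
          rw [Fin.snoc_castSucc]
          induction a using Fin.lastCases with
          | last =>
            exfalso
            have h1 : (Fin.last (k + 1) : Fin (k + 2)) < b.castSucc := hab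
            exact absurd (Fin.le_last b.castSucc) (not_le.2 h1)
          | cast a =>
            rw [Fin.snoc_castSucc]
            exact win_strictMono _ _ (Fin.castSucc_lt_castSucc_iff.1 hab)
      · intro a b
        have lo : i + ((k + 1 : ℕ) : ℤ) ≤ (Fin.snoc (α := fun _ => ℤ)
            (win (k + 1) (i + (k + 1 : ℕ))) (i + k + n) : Fin (k + 2) → ℤ) b := by
          induction b using Fin.lastCases with
          | last =>
            rw [Fin.snoc_last]
            push_cast
            omega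
          | cast b =>
            rw [Fin.snoc_castSucc]
            simp only [win]
            omega
        have hi : (Fin.snoc (α := fun _ => ℤ)
            (win (k + 1) (i + (k + 1 : ℕ))) (i + k + n) : Fin (k + 2) → ℤ) a ≤ i + k + n := by
          induction a using Fin.lastCases with
          | last => rw [Fin.snoc_last]
          | cast a =>
            rw [Fin.snoc_castSucc]
            simp only [win]
            have := a.2
            push_cast
            omega
        omega
    have h2 := hp _ h1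
    have h3 : z ∘ (Fin.snoc (α := fun _ => ℤ) (win (k + 1) (i + (k + 1 : ℕ))) (i + k + n)) =
        Fin.snoc (α := fun _ => Fin (k + 2) → ℝ) (z ∘ win (k + 1) (i + (k + 1 : ℕ)))
          (z (i + k + n)) := by
      funext a
      induction a using Fin.lastCases with
      | last => simp
      | cast a => simp
    rw [h3] at h2
    exact h2
  have hw1 : 0 < Wv (Wv z) i ⬝ᵥ Wv z (i + (k + 1 : ℕ)) := by
    rw [dotProduct_comm, hval (Wv z)]
    have h1 := hW (win (k + 2) i) (win_in hn i)
    rw [← snoc_win (m := k + 1)] at h1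
    exact h1
  set A := Wv (Wv z) i ⬝ᵥ Wv z (i + (k + 1 : ℕ)) with hA
  set B := z (i + k) ⬝ᵥ Wv z (i + (k + 1 : ℕ)) with hB
  have hs : (-1 : ℝ) ^ (k + 1) * (-1) ^ (k + 1) = 1 := by
    rw [← pow_add]
    exact Even.neg_one_pow ⟨k + 1, rfl⟩
  have hB0 : B ≠ 0 := by
    intro h0
    rw [h0, mul_zero] at hz1
    exact lt_irrefl _ hz1
  refine ⟨A / ((-1) ^ (k + 1) * B), div_pos hw1 hz1, ?_⟩
  have hcoef : (-1 : ℝ) ^ (k + 1) * (A / ((-1) ^ (k + 1) * B)) = A / B := by
    have := neg_one_pow_ne (k + 1)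
    field_simp
  rw [hcoef]
  have hdet := hW (win (k + 2) i) (win_in hn i)
  have hzero : Wv (Wv z) i - (A / B) • z (i + k) = 0 := by
    apply Matrix.eq_zero_of_mulVec_eq_zero (M := Matrix.of (Wv z ∘ win (k + 2) i)) hdet.ne'
    funext a
    show (Wv z ∘ win (k + 2) i) a ⬝ᵥ (Wv (Wv z) i - (A / B) • z (i + k)) = 0
    rw [dotProduct_comm, sub_dotProduct, smul_dotProduct, smul_eq_mul]
    simp only [Function.comp_apply, win]
    have ha := a.2
    rcases Nat.lt_or_ge (a : ℕ) (k + 1) with h1 | h1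
    · rw [hw0 _ (by omega) (by omega), hz0 _ (by omega) (by omega)]
      ring
    · have h2 : (a : ℕ) = k + 1 := by omega
      rw [h2, ← hA, ← hB]
      field_simp
      ring
  exact sub_eq_zero.1 hzero

/-- the double twist does not change the amplituhedron -/
theorem amp_double_twist {k n : ℕ} (hn : k + 2 ≤ n) {Z : Matrix (Fin (k + 2)) (Fin n) ℝ}
    (hZ : MaxMinorsPos Z) : amplituhedron (twist (twist Z)) = amplituhedron Z := by
  have hz := zz_per (by omega : 0 < n) Z
  have hp := pos_zz hn hZ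
  choose d hd hdz using fun i => double_twist hn hz hp i
  have hzz : ∀ i, zz (twist (twist Z)) i = ((-1 : ℝ) ^ (k + 1) * d i) • zz Z (i + k) := by
    intro i
    rw [zz_twist hn, zz_twist hn]
    exact hdz i
  have hne : ∀ j, zz Z j ≠ 0 := by
    intro j h0
    have h1 := hp (win (k + 2) j) (win_in hn j)
    have h2 : (zz Z ∘ win (k + 2) j) 0 = 0 := by
      simp only [Function.comp_apply, win]
      simpa using h0
    have h3 : D (zz Z ∘ win (k + 2) j) = 0 := by
      unfold D
      apply Matrix.det_eq_zero_of_row_eq_zero 0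
      intro c
      rw [Matrix.of_apply, h2]
      rfl
    rw [h3] at h1
    exact lt_irrefl _ h1
  have hdper : ∀ i, d (i + n) = d i := by
    intro i
    have h1 := hzz (i + n)
    rw [zz_per (by omega : 0 < n) (twist (twist Z)) i, hzz i, show i + n + k = (i + k) + n by ring,
      hz, smul_smul, smul_smul] at h1
    have h2 := smul_left_injective ℝ (hne (i + k)) h1
    have h3 := neg_one_pow_ne (k + 1)
    have h4 : ((-1 : ℝ) ^ (k + 1) * (-1) ^ (k + 1)) ≠ 0 := mul_ne_zero h3 h3
    apply mul_left_cancel₀ h4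
    linarith
  apply Set.Subset.antisymm
  · exact amp_shift (by omega) k d hd hdper (neg_one_pow_ne (k + 1)) hzz
  · refine amp_shift (by omega) (-k) (fun i => (d (i - k))⁻¹) (fun i => inv_pos.2 (hd _)) ?_
      (inv_ne_zero (neg_one_pow_ne (k + 1))) ?_
    · intro i
      show (d (i + n - k))⁻¹ = (d (i - k))⁻¹
      rw [show i + n - k = (i - k) + n by ring, hdper]
    · intro i
      rw [hzz, smul_smul, show i + -(k : ℤ) + k = i by ring]
      have h1 := (hd (i - k)).ne'
      have h3 := neg_one_pow_ne (k + 1)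
      have h4 : ((-1 : ℝ) ^ (k + 1))⁻¹ * (d (i - k))⁻¹ * ((-1) ^ (k + 1) * d (i + -(k : ℤ))) = 1 := by
        rw [show i + -(k : ℤ) = i - k by ring]
        field_simp
      rw [h4, one_smul]

/-- the bidual -/
theorem bidual {k n : ℕ} (hn : k + 2 ≤ n) {Z : Matrix (Fin (k + 2)) (Fin n) ℝ}
    (hZ : MaxMinorsPos Z) : dualAmp (twist Z) = amplituhedron Z := by
  rw [dual_eq_amp hn (twist_pos hn hZ), amp_double_twist hn hZ]

/-- **extendable convexity of the `m = 2` amplituhedron** -/
theorem amp_eq_hull {k n : ℕ} (hn : k + 2 ≤ n) {Z : Matrix (Fin (k + 2)) (Fin n) ℝ}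
    (hZ : MaxMinorsPos Z) : amplituhedron Z = hullSection Z := by
  apply Set.Subset.antisymm
  · rintro V ⟨M, hM1, hM2, hV⟩
    have hli : LinearIndependent ℝ (fun a => (M * Zᵀ) a) := by
      rw [linearIndependent_iff_card_eq_finrank_span, Set.finrank, ← hV, Fintype.card_fin]
      exact V.2.symm
    classical
    refine ⟨⟨M * Zᵀ, hli⟩, Subtype.ext hV.symm,
      fun I => if StrictMono I then (M.submatrix id I).det else 0, ?_, ?_⟩
    · intro I
      dsimp only
      split_ifs with h
      · exact hM2 I h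
      · exact le_rfl
    · intro S _
      have e : (M * Zᵀ).submatrix id S = M * (Zᵀ).submatrix id S := by
        ext a b
        simp [Matrix.mul_apply]
      show ((M * Zᵀ).submatrix id S).det = _
      rw [e, cauchy_binet]
      apply Finset.sum_congr rfl
      intro I hI
      dsimp only
      rw [if_pos (mem_srt.1 hI)]
      congr 1
      rw [← Matrix.det_transpose]
      rfl
  · rintro V ⟨Y, rfl, w, hw, hY⟩
    rw [← bidual hn hZ]
    refine ⟨Y, rfl, ?_⟩
    intro J hJ
    unfold pairing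
    have e1 : ∀ S ∈ srt k (k + 2), (Y.1.submatrix id S).det * ((twist Z).submatrix S J).det =
        ∑ I ∈ srt k n, w I * ((Z.submatrix S I).det * ((twist Z).submatrix S J).det) := by
      intro S hS
      rw [hY S (mem_srt.1 hS), Finset.sum_mul]
      apply Finset.sum_congr rfl
      intro I _
      ring
    rw [Finset.sum_congr rfl e1, Finset.sum_comm]
    apply Finset.sum_nonneg
    intro I hI
    rw [← Finset.mul_sum]
    apply mul_nonneg (hw I)
    have h1 := T_nonneg hn hZ hJ (mem_srt.1 hI)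
    have h2 : ((twist Z)ᵀ * Z).submatrix J I = (twist Z)ᵀ.submatrix J id * Z.submatrix id I := by
      ext a b
      simp [Matrix.mul_apply]
    rw [h2, cauchy_binet] at h1
    refine le_of_le_of_eq h1 ?_
    apply Finset.sum_congr rfl
    intro S _
    rw [mul_comm]
    congr 1
    rw [← Matrix.det_transpose]
    rfl

end Pool.Agent.AmpDual
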