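import Pool.Agent.AmpDual.Spec

set_option autoImplicit false

/-! Cauchy-Binet formula and consequences. -/

namespace Pool.Agent.AmpDual

open Matrix

lemma mem_srt {k n : ℕ} {f : Fin k → Fin n} : f ∈ srt k n ↔ StrictMono f := by
  unfold srt
  simp

lemma det_mul_expand {k n : ℕ} (M : Matrix (Fin k) (Fin n) ℝ) (T : Matrix (Fin n) (Fin k) ℝ) :
    (M * T).det = ∑ f : Fin k → Fin n, (∏ a, T (f a) a) * (M.submatrix id f).det := by
  simp only [det_apply', mul_apply, Finset.prod_univ_sum, Finset.mul_sum, Fintype.piFinset_univ]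
  rw [Finset.sum_comm]
  apply Finset.sum_congr rfl
  intro f _
  apply Finset.sum_congr rfl
  intro σ _
  simp only [Finset.prod_mul_distrib, submatrix_apply, id_eq]
  ring

lemma det_cols_not_inj {k n : ℕ} (M : Matrix (Fin k) (Fin n) ℝ) (f : Fin k → Fin n)
    (hf : ¬ Function.Injective f) : (M.submatrix id f).det = 0 := by
  rw [Function.Injective] at hf
  push Not at hf
  obtain ⟨a, b, hab, hne⟩ := hf
  apply Matrix.det_zero_of_column_eq hne
  intro i
  simp [hab]

lemma exists_sort {k n : ℕ} (f : Fin k → Fin n) (hf : Function.Injective f) :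
    ∃ (J : Fin k → Fin n) (π : Equiv.Perm (Fin k)), StrictMono J ∧ J ∘ π = f := by
  refine ⟨f ∘ Tuple.sort f, (Tuple.sort f)⁻¹, ?_, ?_⟩
  · exact (Tuple.monotone_sort f).strictMono_of_injective (hf.comp (Tuple.sort f).injective)
  · funext a
    simp

/-- **Cauchy-Binet** -/
theorem cauchy_binet {k n : ℕ} (M : Matrix (Fin k) (Fin n) ℝ) (T : Matrix (Fin n) (Fin k) ℝ) :
    (M * T).det = ∑ J ∈ srt k n, (M.submatrix id J).det * (T.submatrix J id).det := by
  classical
  rw [det_mul_expand]
  have h1 : ∑ f : Fin k → Fin n, (∏ a, T (f a) a) * (M.submatrix id f).det =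
      ∑ f ∈ Finset.univ.filter (fun f : Fin k → Fin n => Function.Injective f),
        (∏ a, T (f a) a) * (M.submatrix id f).det := by
    symm
    apply Finset.sum_subset (Finset.subset_univ _)
    intro f _ hf
    rw [Finset.mem_filter, not_and] at hf
    rw [det_cols_not_inj M f (hf (Finset.mem_univ _)), mul_zero]
  rw [h1]
  have h2 : ∑ J ∈ srt k n, (M.submatrix id J).det * (T.submatrix J id).det =
      ∑ q ∈ srt k n ×ˢ (Finset.univ : Finset (Equiv.Perm (Fin k))),
        (∏ a, T ((q.1 ∘ q.2) a) a) * (M.submatrix id (q.1 ∘ q.2)).det := by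
    rw [Finset.sum_product]
    apply Finset.sum_congr rfl
    intro J _
    rw [det_apply' (T.submatrix J id), Finset.mul_sum]
    apply Finset.sum_congr rfl
    intro σ _
    have h3 : M.submatrix id (J ∘ σ) = (M.submatrix id J).submatrix id σ := by
      ext a b
      rfl
    simp only [h3, det_permute']
    simp only [submatrix_apply, id_eq, Function.comp_apply]
    ring
  rw [h2]
  symm
  apply Finset.sum_bij (fun q _ => q.1 ∘ q.2)
  · intro q hq
    rw [Finset.mem_product, mem_srt] at hq
    rw [Finset.mem_filter]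
    exact ⟨Finset.mem_univ _, hq.1.injective.comp q.2.injective⟩
  · intro q hq q' hq' h
    rw [Finset.mem_product, mem_srt] at hq hq'
    have h4 : Set.range q.1 = Set.range q'.1 := by
      have := congrArg Set.range h
      rwa [Set.range_comp, Set.range_comp, Equiv.range_eq_univ, Equiv.range_eq_univ,
        Set.image_univ, Set.image_univ] at this
    have h5 : q.1 = q'.1 := (StrictMono.range_inj hq.1 hq'.1).1 h4
    have h6 : q.2 = q'.2 := by
      apply Equiv.ext
      intro a
      have := congrFun h a
      simp only [Function.comp_apply, h5] at this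
      exact hq'.1.injective this
    exact Prod.ext h5 h6
  · intro f hf
    rw [Finset.mem_filter] at hf
    obtain ⟨J, π, hJ, hJπ⟩ := exists_sort f hf.2
    refine ⟨(J, π), ?_, hJπ⟩
    rw [Finset.mem_product, mem_srt]
    exact ⟨hJ, Finset.mem_univ _⟩
  · intro q _
    rfl

/-- linear independence of the rows and minors -/
theorem rows_iff {k n : ℕ} (M : Matrix (Fin k) (Fin n) ℝ) :
    LinearIndependent ℝ (fun a => M a) ↔ ∃ J : Fin k → Fin n, StrictMono J ∧
      (M.submatrix id J).det ≠ 0 := by
  constructor
  · intro h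
    by_contra hcon
    push Not at hcon
    have h1 : (M * Mᵀ).det = 0 := by
      rw [cauchy_binet]
      apply Finset.sum_eq_zero
      intro J hJ
      rw [hcon J (mem_srt.1 hJ), zero_mul]
    have h2 : (M * Mᴴ).PosDef := by
      apply Matrix.PosDef.mul_conjTranspose_self
      rw [Matrix.vecMul_injective_iff]
      exact h
    have h3 := h2.det_pos
    rw [Matrix.conjTranspose_eq_transpose_of_trivial, h1] at h3
    exact lt_irrefl _ h3
  · rintro ⟨J, _, hJ⟩
    have h1 : LinearIndependent ℝ (fun a => (M.submatrix id J) a) := by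
      rw [← isUnit_iff_ne_zero, ← Matrix.isUnit_iff_isUnit_det] at hJ
      exact Matrix.linearIndependent_rows_iff_isUnit.2 hJ
    have h2 : (fun a => (M.submatrix id J) a) = (LinearMap.funLeft ℝ ℝ J) ∘ (fun a => M a) := by
      funext a b
      rfl
    rw [h2] at h1
    exact LinearIndependent.of_comp _ h1

end Pool.Agent.AmpDual
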