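import Mathlib

set_option autoImplicit false

/-! Crossing numbers of a turning sequence of plane vectors. -/

namespace Pool.Agent.AmpDual

/-- 2 x 2 determinant -/
def det2 (x y : ℝ × ℝ) : ℝ := x.1 * y.2 - x.2 * y.1

/-- `x` is in the half-open half plane to the left of `u` (containing the ray of `u`) -/
def hp (u x : ℝ × ℝ) : Prop := 0 < det2 u x ∨ (det2 u x = 0 ∧ 0 < u.1 * x.1 + u.2 * x.2)

open Classical in
/-- crossing of the line of `u` between `x` and `y` -/
noncomputable def cr (u x y : ℝ × ℝ) : ℕ := if (hp u x ↔ hp u y) then 0 else 1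

lemma det2_swap (x y : ℝ × ℝ) : det2 x y = - det2 y x := by
  unfold det2; ring

lemma det2_neg_right (x y : ℝ × ℝ) : det2 x (-y) = - det2 x y := by
  unfold det2; simp; ring

lemma det2_self (x : ℝ × ℝ) : det2 x x = 0 := by
  unfold det2; ring

lemma hp_neg {u x : ℝ × ℝ} (hu : u ≠ 0) (hx : x ≠ 0) : hp u (-x) ↔ ¬ hp u x := by
  unfold hp
  rw [det2_neg_right]
  have hd : u.1 * (-x).1 + u.2 * (-x).2 = -(u.1 * x.1 + u.2 * x.2) := by simp; ring
  rw [hd]
  have hsq : (det2 u x) ^ 2 + (u.1 * x.1 + u.2 * x.2) ^ 2 =
      (u.1 ^ 2 + u.2 ^ 2) * (x.1 ^ 2 + x.2 ^ 2) := by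
    unfold det2; ring
  have pu : 0 < u.1 ^ 2 + u.2 ^ 2 := by
    by_contra hcon
    apply hu
    have h1 : u.1 = 0 := by nlinarith [sq_nonneg u.1, sq_nonneg u.2]
    have h2 : u.2 = 0 := by nlinarith [sq_nonneg u.1, sq_nonneg u.2]
    exact Prod.ext h1 h2
  have px : 0 < x.1 ^ 2 + x.2 ^ 2 := by
    by_contra hcon
    apply hx
    have h1 : x.1 = 0 := by nlinarith [sq_nonneg x.1, sq_nonneg x.2]
    have h2 : x.2 = 0 := by nlinarith [sq_nonneg x.1, sq_nonneg x.2]
    exact Prod.ext h1 h2
  have hpos := mul_pos pu px
  rcases lt_trichotomy (det2 u x) 0 with h | h | h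
  · constructor
    · intro _ h2
      rcases h2 with h2 | h2
      · linarith
      · linarith [h2.1]
    · intro _
      left; linarith
  · have hdne : u.1 * x.1 + u.2 * x.2 ≠ 0 := by
      intro h0
      rw [h, h0] at hsq
      simp at hsq
      rcases hsq with h3 | h3 <;> linarith
    constructor
    · intro h1 h2
      rcases h1 with h1 | h1
      · linarith
      · rcases h2 with h2 | h2
        · linarith
        · linarith [h1.2, h2.2]
    · intro h1
      right
      refine ⟨by linarith, ?_⟩
      have h4 : ¬ 0 < u.1 * x.1 + u.2 * x.2 := fun h5 => h1 (Or.inr ⟨h, h5⟩)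
      have h6 : u.1 * x.1 + u.2 * x.2 < 0 := lt_of_le_of_ne (not_lt.1 h4) hdne
      linarith
  · constructor
    · intro h1 _
      rcases h1 with h1 | h1
      · linarith
      · linarith [h1.1]
    · intro h1
      exact absurd (Or.inl h) h1

lemma ne_zero_of_det2 {x y : ℝ × ℝ} (h : 0 < det2 x y) : x ≠ 0 ∧ y ≠ 0 := by
  constructor
  · rintro rfl
    simp [det2] at h
  · rintro rfl
    simp [det2] at h

/-- additivity of crossings -/
lemma cr_add {u x y w : ℝ × ℝ} (hu : u ≠ 0) (h1 : 0 < det2 x y) (h2 : 0 < det2 y w)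
    (h3 : 0 < det2 x w ∨ w = -x) : cr u x w = cr u x y + cr u y w := by
  have hx := (ne_zero_of_det2 h1).1
  rcases h3 with h3 | h3
  · -- `y` is a positive combination
    have key : ∀ f : ℝ × ℝ → ℝ, (∀ a b : ℝ × ℝ, ∀ s t : ℝ,
        f (s • a + t • b) = s * f a + t * f b) →
        det2 x w * f y = det2 y w * f x + det2 x y * f w := by
      intro f hf
      have e1 : det2 x w • y = det2 y w • x + det2 x y • w := by
        ext
        · simp [det2]; ring
        · simp [det2]; ring
      have e2 := congrArg f e1
      have e3 := hf y 0 (det2 x w) 0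
      simp only [smul_zero, add_zero, zero_mul] at e3
      rw [e3, hf] at e2
      exact e2
    have kd := key (det2 u) (by intro a b s t; simp [det2]; ring)
    have ks := key (fun v => u.1 * v.1 + u.2 * v.2) (by intro a b s t; simp; ring)
    have c1 : hp u x → hp u w → hp u y := by
      intro a b
      unfold hp at a b ⊢
      rcases a with a | a
      · left
        have : 0 < det2 x w * det2 u y := by
          rw [kd]
          rcases b with b | b
          · have := mul_pos h2 a
            have := mul_pos h1 b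
            linarith
          · rw [b.1]
            have := mul_pos h2 a
            linarith
        exact (pos_iff_pos_of_mul_pos this).1 h3
      · rcases b with b | b
        · left
          have : 0 < det2 x w * det2 u y := by
            rw [kd, a.1]
            have := mul_pos h1 b
            linarith
          exact (pos_iff_pos_of_mul_pos this).1 h3
        · right
          constructor
          · rw [a.1, b.1] at kd
            have : det2 x w * det2 u y = 0 := by rw [kd]; ring
            exact (mul_eq_zero.1 this).resolve_left h3.ne'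
          · have : 0 < det2 x w * (u.1 * y.1 + u.2 * y.2) := by
              rw [ks]
              have := mul_pos h2 a.2
              have := mul_pos h1 b.2
              linarith
            exact (pos_iff_pos_of_mul_pos this).1 h3
    have c2 : ¬ hp u x → ¬ hp u w → ¬ hp u y := by
      intro a b c
      unfold hp at a b c
      push Not at a b
      obtain ⟨a1, a2⟩ := a
      obtain ⟨b1, b2⟩ := b
      have d1 : det2 y w * det2 u x ≤ 0 := mul_nonpos_of_nonneg_of_nonpos h2.le a1
      have d2 : det2 x y * det2 u w ≤ 0 := mul_nonpos_of_nonneg_of_nonpos h1.le b1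
      rcases c with c | c
      · have := mul_pos h3 c
        linarith
      · rw [c.1, mul_zero] at kd
        have e1 : det2 y w * det2 u x = 0 := by linarith
        have e2 : det2 x y * det2 u w = 0 := by linarith
        have e3 := (mul_eq_zero.1 e1).resolve_left h2.ne'
        have e4 := (mul_eq_zero.1 e2).resolve_left h1.ne'
        have f1 := a2 e3
        have f2 := b2 e4
        have g1 := mul_pos h3 c.2
        have g2 : det2 y w * (u.1 * x.1 + u.2 * x.2) ≤ 0 :=
          mul_nonpos_of_nonneg_of_nonpos h2.le f1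
        have g3 : det2 x y * (u.1 * w.1 + u.2 * w.2) ≤ 0 :=
          mul_nonpos_of_nonneg_of_nonpos h1.le f2
        linarith
    unfold cr
    by_cases hx' : hp u x <;> by_cases hw' : hp u w <;> by_cases hy' : hp u y <;>
      simp [hx', hw', hy'] <;> tauto
  · subst h3
    have hn := hp_neg hu hx
    unfold cr
    by_cases hx' : hp u x <;> by_cases hy' : hp u y <;> simp [hx', hy', hn]

/-- a sequence is turning: consecutive determinants positive or half turn -/
def Turn (b : ℕ → ℝ × ℝ) (j : ℕ) : Prop := 0 < det2 (b j) (b (j + 1)) ∨ b (j + 1) = - b j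

/-- **Interlacing lemma.** -/
theorem interlace {u : ℝ × ℝ} (hu : u ≠ 0) {a b : ℕ → ℝ × ℝ} {p q : ℕ} (hpq : p ≤ q)
    (hab : ∀ j ≤ p, b j = a j)
    (ha : ∀ j ≤ q + 1, 0 < det2 (a j) (a (j + 1)))
    (h1 : ∀ j, p < j → j ≤ q → 0 < det2 (a j) (b j))
    (h2 : ∀ j, p < j → j ≤ q → 0 < det2 (b j) (a (j + 1)))
    (hend : b (q + 1) = a (q + 2))
    (hb : ∀ j, p ≤ j → j ≤ q → Turn b j) :
    ∑ j ∈ Finset.range (q + 1), cr u (b j) (b (j + 1)) =
      ∑ j ∈ Finset.range (q + 2), cr u (a j) (a (j + 1)) := by
  have h2' : ∀ j, p ≤ j → j ≤ q → 0 < det2 (b j) (a (j + 1)) := by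
    intro j hj hjq
    rcases Nat.lt_or_ge p j with h | h
    · exact h2 j h hjq
    · have : j = p := by omega
      subst this
      rw [hab j le_rfl]
      exact ha j (by omega)
  have key : ∀ r, p ≤ r → r ≤ q →
      ∑ j ∈ Finset.range r, cr u (b j) (b (j + 1)) + cr u (b r) (a (r + 1)) =
        ∑ j ∈ Finset.range (r + 1), cr u (a j) (a (j + 1)) := by
    intro r hr
    induction r, hr using Nat.le_induction with
    | base =>
      intro _
      rw [Finset.sum_range_succ, hab p le_rfl]
      congr 1
      apply Finset.sum_congr rfl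
      intro j hj
      rw [Finset.mem_range] at hj
      rw [hab j hj.le, hab (j + 1) hj]
    | succ r hr ih =>
      intro hrq
      have ih' := ih (by omega)
      rw [Finset.sum_range_succ, Finset.sum_range_succ (n := r + 1), ← ih']
      have e1 : cr u (b r) (b (r + 1)) = cr u (b r) (a (r + 1)) + cr u (a (r + 1)) (b (r + 1)) :=
        cr_add hu (h2' r hr (by omega)) (h1 (r + 1) (by omega) hrq) (hb r hr (by omega))
      have e2 : cr u (a (r + 1)) (a (r + 2)) =
          cr u (a (r + 1)) (b (r + 1)) + cr u (b (r + 1)) (a (r + 2)) :=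
        cr_add hu (h1 (r + 1) (by omega) hrq) (h2 (r + 1) (by omega) hrq)
          (Or.inl (ha (r + 1) (by omega)))
      rw [e1, e2]
      ring
  have hq := key q hpq le_rfl
  rw [Finset.sum_range_succ, Finset.sum_range_succ (n := q + 1), ← hq]
  have e1 : cr u (b q) (b (q + 1)) = cr u (b q) (a (q + 1)) + cr u (a (q + 1)) (a (q + 2)) := by
    rw [hend]
    apply cr_add hu (h2' q hpq le_rfl) (ha (q + 1) le_rfl)
    have := hb q hpq le_rfl
    unfold Turn at this
    rwa [hend] at this
  rw [e1]
  ring

end Pool.Agent.AmpDual
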