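import Pool.Agent.AmpDual.Exch
import Pool.Agent.AmpDual.Wind
import Pool.Agent.AmpDual.CB

set_option autoImplicit false

/-! The orthogonal complement of a frame. -/

namespace Pool.Agent.AmpDual

open Matrix

/-- rows `u₁, …, u_k, a, b` -/
noncomputable def rows2 {m l : ℕ} (u : Fin m → (Fin l → ℝ)) (a b : Fin l → ℝ) :
    Fin (m + 2) → (Fin l → ℝ) :=
  Fin.snoc (α := fun _ => Fin l → ℝ) (Fin.snoc (α := fun _ => Fin l → ℝ) u a) b

lemma D2_eq {m : ℕ} (u : Fin m → (Fin (m + 2) → ℝ)) (a b : Fin (m + 2) → ℝ) :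
    D2 u a b = (Matrix.of (rows2 u a b)).det := rfl

lemma rows2_inl {m l : ℕ} (u : Fin m → (Fin l → ℝ)) (a b : Fin l → ℝ) (i : Fin m) :
    rows2 u a b (finSumFinEquiv (Sum.inl i)) = u i := by
  unfold rows2
  have : (finSumFinEquiv (Sum.inl i) : Fin (m + 2)) = i.castSucc.castSucc := rfl
  rw [this, Fin.snoc_castSucc, Fin.snoc_castSucc]

lemma rows2_inr0 {m l : ℕ} (u : Fin m → (Fin l → ℝ)) (a b : Fin l → ℝ) :
    rows2 u a b (finSumFinEquiv (Sum.inr 0)) = a := by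
  unfold rows2
  have : (finSumFinEquiv (Sum.inr 0) : Fin (m + 2)) = (Fin.last m).castSucc := rfl
  rw [this, Fin.snoc_castSucc, Fin.snoc_last]

lemma rows2_inr1 {m l : ℕ} (u : Fin m → (Fin l → ℝ)) (a b : Fin l → ℝ) :
    rows2 u a b (finSumFinEquiv (Sum.inr 1)) = b := by
  unfold rows2
  have : (finSumFinEquiv (Sum.inr 1) : Fin (m + 2)) = Fin.last (m + 1) := rfl
  rw [this, Fin.snoc_last]

/-- product of two such matrices as a block matrix -/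
lemma mul_blocks {m l : ℕ} (u u' : Fin m → (Fin l → ℝ)) (a b a' b' : Fin l → ℝ) :
    (Matrix.of (rows2 u a b) * (Matrix.of (rows2 u' a' b'))ᵀ).det =
      (Matrix.fromBlocks (Matrix.of (fun i j => u i ⬝ᵥ u' j))
        (Matrix.of (fun i (j : Fin 2) => u i ⬝ᵥ (if j = 0 then a' else b')))
        (Matrix.of (fun (i : Fin 2) j => (if i = 0 then a else b) ⬝ᵥ u' j))
        (Matrix.of (fun (i j : Fin 2) => (if i = 0 then a else b) ⬝ᵥ
          (if j = 0 then a' else b')))).det := by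
  rw [← Matrix.det_submatrix_equiv_self finSumFinEquiv]
  congr 1
  ext i j
  rw [Matrix.submatrix_apply, Matrix.mul_apply]
  have key : ∑ c, (Matrix.of (rows2 u a b)) (finSumFinEquiv i) c *
      (Matrix.of (rows2 u' a' b'))ᵀ c (finSumFinEquiv j) =
      rows2 u a b (finSumFinEquiv i) ⬝ᵥ rows2 u' a' b' (finSumFinEquiv j) := rfl
  rw [key]
  rcases i with i | i <;> rcases j with j | j
  · rw [rows2_inl, rows2_inl, Matrix.fromBlocks_apply₁₁]
    rfl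
  · rw [Matrix.fromBlocks_apply₁₂, rows2_inl]
    fin_cases j
    · show _ ⬝ᵥ rows2 u' a' b' (finSumFinEquiv (Sum.inr 0)) = _
      rw [rows2_inr0]
      simp
    · show _ ⬝ᵥ rows2 u' a' b' (finSumFinEquiv (Sum.inr 1)) = _
      rw [rows2_inr1]
      simp
  · rw [Matrix.fromBlocks_apply₂₁, rows2_inl]
    fin_cases i
    · show rows2 u a b (finSumFinEquiv (Sum.inr 0)) ⬝ᵥ _ = _
      rw [rows2_inr0]
      simp
    · show rows2 u a b (finSumFinEquiv (Sum.inr 1)) ⬝ᵥ _ = _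
      rw [rows2_inr1]
      simp
  · rw [Matrix.fromBlocks_apply₂₂]
    fin_cases i <;> fin_cases j
    · show rows2 u a b (finSumFinEquiv (Sum.inr 0)) ⬝ᵥ rows2 u' a' b' (finSumFinEquiv (Sum.inr 0)) = _
      rw [rows2_inr0, rows2_inr0]
      simp
    · show rows2 u a b (finSumFinEquiv (Sum.inr 0)) ⬝ᵥ rows2 u' a' b' (finSumFinEquiv (Sum.inr 1)) = _
      rw [rows2_inr0, rows2_inr1]
      simp
    · show rows2 u a b (finSumFinEquiv (Sum.inr 1)) ⬝ᵥ rows2 u' a' b' (finSumFinEquiv (Sum.inr 0)) = _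
      rw [rows2_inr1, rows2_inr0]
      simp
    · show rows2 u a b (finSumFinEquiv (Sum.inr 1)) ⬝ᵥ rows2 u' a' b' (finSumFinEquiv (Sum.inr 1)) = _
      rw [rows2_inr1, rows2_inr1]
      simp

/-- first use: `u'` orthogonal to `a', b'` paired with `u = u'` -/
lemma blocks_upper {m l : ℕ} (u u' : Fin m → (Fin l → ℝ)) (a b a' b' : Fin l → ℝ)
    (h1 : ∀ i, u i ⬝ᵥ a' = 0) (h2 : ∀ i, u i ⬝ᵥ b' = 0) :
    (Matrix.of (rows2 u a b) * (Matrix.of (rows2 u' a' b'))ᵀ).det =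
      (Matrix.of (fun i j => u i ⬝ᵥ u' j)).det * det2 (a ⬝ᵥ a', a ⬝ᵥ b') (b ⬝ᵥ a', b ⬝ᵥ b') := by
  rw [mul_blocks]
  have hz : (Matrix.of (fun (i : Fin m) (j : Fin 2) => u i ⬝ᵥ (if j = 0 then a' else b'))) = 0 := by
    ext i j
    rw [Matrix.of_apply]
    fin_cases j
    · simp [h1]
    · simp [h2]
  rw [hz, Matrix.det_fromBlocks_zero₁₂]
  congr 1
  rw [Matrix.det_fin_two]
  simp [det2]

lemma blocks_lower {m l : ℕ} (u u' : Fin m → (Fin l → ℝ)) (a b a' b' : Fin l → ℝ)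
    (h1 : ∀ i, a ⬝ᵥ u' i = 0) (h2 : ∀ i, b ⬝ᵥ u' i = 0) :
    (Matrix.of (rows2 u a b) * (Matrix.of (rows2 u' a' b'))ᵀ).det =
      (Matrix.of (fun i j => u i ⬝ᵥ u' j)).det * det2 (a ⬝ᵥ a', a ⬝ᵥ b') (b ⬝ᵥ a', b ⬝ᵥ b') := by
  rw [mul_blocks]
  have hz : (Matrix.of (fun (i : Fin 2) (j : Fin m) => (if i = 0 then a else b) ⬝ᵥ u' j)) = 0 := by
    ext i j
    rw [Matrix.of_apply]
    fin_cases i
    · simp [h1]
    · simp [h2]
  rw [hz, Matrix.det_fromBlocks_zero₂₁]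
  congr 1
  rw [Matrix.det_fin_two]
  simp [det2]

lemma gram_pos {m l : ℕ} {u : Fin m → (Fin l → ℝ)} (hu : LinearIndependent ℝ u) :
    0 < (Matrix.of (fun i j => u i ⬝ᵥ u j)).det := by
  have h2 : (Matrix.of u * (Matrix.of u)ᴴ).PosDef := by
    apply Matrix.PosDef.mul_conjTranspose_self
    rw [Matrix.vecMul_injective_iff]
    exact hu
  have h3 := h2.det_pos
  have h4 : Matrix.of u * (Matrix.of u)ᴴ = Matrix.of (fun i j => u i ⬝ᵥ u j) := by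
    ext i j
    rw [Matrix.mul_apply, Matrix.conjTranspose_eq_transpose_of_trivial]
    rfl
  rw [h4] at h3
  exact h3

/-- two independent vectors orthogonal to a frame -/
lemma exists_perp {m : ℕ} {Y : Fin m → (Fin (m + 2) → ℝ)} (hY : LinearIndependent ℝ Y) :
    ∃ z : Fin 2 → (Fin (m + 2) → ℝ), LinearIndependent ℝ z ∧ ∀ i j, Y i ⬝ᵥ z j = 0 := by
  have hr : Module.finrank ℝ (LinearMap.range (Matrix.of Y).mulVecLin) = m := by
    have := hY.rank_matrix (M := Matrix.of Y)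
    rw [Matrix.rank, Fintype.card_fin] at this
    exact this
  have h1 := LinearMap.finrank_range_add_finrank_ker (Matrix.of Y).mulVecLin
  rw [hr] at h1
  simp only [Module.finrank_fintype_fun_eq_card, Fintype.card_fin] at h1
  have h2 : Module.finrank ℝ (LinearMap.ker (Matrix.of Y).mulVecLin) = 2 := by omega
  let b := Module.finBasisOfFinrankEq ℝ (LinearMap.ker (Matrix.of Y).mulVecLin) h2
  refine ⟨fun j => (b j : Fin (m + 2) → ℝ), ?_, ?_⟩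
  · exact b.linearIndependent.map' (Submodule.subtype _) (Submodule.ker_subtype _)
  · intro i j
    have := (b j).2
    rw [LinearMap.mem_ker] at this
    exact congrFun this i

/-- **bridge**: the orthogonal complement of a frame gives planar coordinates -/
theorem exists_bridge {k : ℕ} {Y : Fin k → (Fin (k + 2) → ℝ)} (hY : LinearIndependent ℝ Y) :
    ∃ (z₁ z₂ : Fin (k + 2) → ℝ) (c₁ c₂ : ℝ), 0 < c₁ ∧ 0 < c₂ ∧ LinearIndependent ℝ ![z₁, z₂] ∧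
      (∀ i, Y i ⬝ᵥ z₁ = 0) ∧ (∀ i, Y i ⬝ᵥ z₂ = 0) ∧
      (∀ a b, D2 Y a b = c₁ * det2 (a ⬝ᵥ z₁, a ⬝ᵥ z₂) (b ⬝ᵥ z₁, b ⬝ᵥ z₂)) ∧
      (∀ u : Fin k → (Fin (k + 2) → ℝ), D2 u z₁ z₂ = c₂ *
        (Matrix.of (fun i j => u i ⬝ᵥ Y j)).det) := by
  -- a version with the sign as a hypothesis
  have main : ∀ z₁ z₂ : Fin (k + 2) → ℝ, LinearIndependent ℝ ![z₁, z₂] →
      (∀ i, Y i ⬝ᵥ z₁ = 0) → (∀ i, Y i ⬝ᵥ z₂ = 0) → 0 < D2 Y z₁ z₂ →
      ∃ c₁ c₂ : ℝ, 0 < c₁ ∧ 0 < c₂ ∧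
      (∀ a b, D2 Y a b = c₁ * det2 (a ⬝ᵥ z₁, a ⬝ᵥ z₂) (b ⬝ᵥ z₁, b ⬝ᵥ z₂)) ∧
      (∀ u : Fin k → (Fin (k + 2) → ℝ), D2 u z₁ z₂ = c₂ *
        (Matrix.of (fun i j => u i ⬝ᵥ Y j)).det) := by
    intro z₁ z₂ hz hz1 hz2 hpos
    have g1 := gram_pos hY
    have g2 := gram_pos hz
    have e2 : (Matrix.of (fun i j => (![z₁, z₂] : Fin 2 → (Fin (k + 2) → ℝ)) i ⬝ᵥ
        (![z₁, z₂] : Fin 2 → (Fin (k + 2) → ℝ)) j)).det =
        det2 (z₁ ⬝ᵥ z₁, z₁ ⬝ᵥ z₂) (z₂ ⬝ᵥ z₁, z₂ ⬝ᵥ z₂) := by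
      rw [Matrix.det_fin_two]
      simp [det2]
    rw [e2] at g2
    refine ⟨(Matrix.of (fun i j => Y i ⬝ᵥ Y j)).det / D2 Y z₁ z₂,
      det2 (z₁ ⬝ᵥ z₁, z₁ ⬝ᵥ z₂) (z₂ ⬝ᵥ z₁, z₂ ⬝ᵥ z₂) / D2 Y z₁ z₂,
      div_pos g1 hpos, div_pos g2 hpos, ?_, ?_⟩
    · intro a b
      have h := blocks_upper Y Y a b z₁ z₂ hz1 hz2
      rw [Matrix.det_mul, Matrix.det_transpose, ← D2_eq, ← D2_eq] at h
      have := hpos.ne'
      field_simp
      linarith
    · intro u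
      have h := blocks_lower u Y z₁ z₂ z₁ z₂ (fun i => by rw [dotProduct_comm]; exact hz1 i)
        (fun i => by rw [dotProduct_comm]; exact hz2 i)
      rw [Matrix.det_mul, Matrix.det_transpose, ← D2_eq, ← D2_eq] at h
      have := hpos.ne'
      field_simp
      linarith
  obtain ⟨z, hz, hYz⟩ := exists_perp hY
  have hz' : LinearIndependent ℝ ![z 0, z 1] := by
    have : z = ![z 0, z 1] := by
      funext i
      fin_cases i <;> rfl
    rwa [this] at hz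
  have hne : D2 Y (z 0) (z 1) ≠ 0 := by
    have h := blocks_upper Y Y (z 0) (z 1) (z 0) (z 1) (fun i => hYz i 0) (fun i => hYz i 1)
    rw [Matrix.det_mul, Matrix.det_transpose, ← D2_eq] at h
    have g1 := gram_pos hY
    have g2 := gram_pos hz'
    have e2 : (Matrix.of (fun i j => (![z 0, z 1] : Fin 2 → (Fin (k + 2) → ℝ)) i ⬝ᵥ
        (![z 0, z 1] : Fin 2 → (Fin (k + 2) → ℝ)) j)).det =
        det2 (z 0 ⬝ᵥ z 0, z 0 ⬝ᵥ z 1) (z 1 ⬝ᵥ z 0, z 1 ⬝ᵥ z 1) := by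
      rw [Matrix.det_fin_two]
      simp [det2]
    rw [e2] at g2
    intro h0
    rw [h0, mul_zero] at h
    have := mul_pos g1 g2
    linarith
  rcases lt_or_gt_of_ne hne with h | h
  · have hneg : 0 < D2 Y (z 1) (z 0) := by
      rw [D2_swap]
      linarith
    have hz'' : LinearIndependent ℝ ![z 1, z 0] := by
      have := hz'.comp (Equiv.swap (0 : Fin 2) 1) (Equiv.injective _)
      have e : (![z 0, z 1] : Fin 2 → (Fin (k + 2) → ℝ)) ∘ (Equiv.swap (0 : Fin 2) 1) =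
          ![z 1, z 0] := by
        funext i
        fin_cases i
        · simp
        · simp
      rwa [e] at this
    obtain ⟨c₁, c₂, h1, h2, h3, h4⟩ := main (z 1) (z 0) hz'' (fun i => hYz i 1) (fun i => hYz i 0)
      hneg
    exact ⟨z 1, z 0, c₁, c₂, h1, h2, hz'', fun i => hYz i 1, fun i => hYz i 0, h3, h4⟩
  · obtain ⟨c₁, c₂, h1, h2, h3, h4⟩ := main (z 0) (z 1) hz' (fun i => hYz i 0) (fun i => hYz i 1) h
    exact ⟨z 0, z 1, c₁, c₂, h1, h2, hz', fun i => hYz i 0, fun i => hYz i 1, h3, h4⟩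

end Pool.Agent.AmpDual
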