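import Pool.Agent.AmpDual.Exch
import Pool.Agent.AmpDual.Wind

set_option autoImplicit false

/-! Periodic positive configurations, deletion of a point, the winding theorem. -/

namespace Pool.Agent.AmpDual

/-- twisted periodicity -/
def Per (k n : ℕ) (z : ℤ → (Fin (k + 2) → ℝ)) : Prop :=
  ∀ j : ℤ, z (j + n) = (-1 : ℝ) ^ (k + 1) • z j

/-- index tuples inside one period -/
def In {m : ℕ} (n : ℕ) (f : Fin m → ℤ) : Prop := StrictMono f ∧ ∀ a b, f a < f b + n

/-- positive configuration -/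
def Pos (k n : ℕ) (z : ℤ → (Fin (k + 2) → ℝ)) : Prop :=
  ∀ f : Fin (k + 2) → ℤ, In n f → 0 < D (z ∘ f)

/-- positivity of the pair `z₁, z₂` -/
def QPos (k n : ℕ) (z : ℤ → (Fin (k + 2) → ℝ)) (z₁ z₂ : Fin (k + 2) → ℝ) : Prop :=
  ∀ f : Fin k → ℤ, In n f → 0 < D2 (z ∘ f) z₁ z₂

/-- value of the window functional of a `(k+1)`-tuple at a vector -/
noncomputable def Wf {k : ℕ} (z : ℤ → (Fin (k + 2) → ℝ)) (f : Fin (k + 1) → ℤ)
    (v : Fin (k + 2) → ℝ) : ℝ := D1 (z ∘ f) v

/-- pair of values -/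
noncomputable def X {k : ℕ} (z : ℤ → (Fin (k + 2) → ℝ)) (z₁ z₂ : Fin (k + 2) → ℝ)
    (f : Fin (k + 1) → ℤ) : ℝ × ℝ := (Wf z f z₁, Wf z f z₂)

/-- the consecutive window starting at `j` -/
def win (m : ℕ) (j : ℤ) : Fin m → ℤ := fun i => j + (i : ℕ)

lemma win_strictMono (m : ℕ) (j : ℤ) : StrictMono (win m j) := by
  intro a b h
  have : (a : ℕ) < b := h
  simp only [win]
  omega

lemma win_in {m n : ℕ} (hmn : m ≤ n) (j : ℤ) : In n (win m j) := by
  refine ⟨win_strictMono m j, ?_⟩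
  intro a b
  have h1 := a.2
  have h2 := b.2
  simp only [win]
  omega

lemma In.comp {m m' n : ℕ} {f : Fin m → ℤ} (hf : In n f) {g : Fin m' → Fin m}
    (hg : StrictMono g) : In n (f ∘ g) :=
  ⟨hf.1.comp hg, fun a b => hf.2 (g a) (g b)⟩

/-- exchange lemma for windows -/
lemma X_exchange {k n : ℕ} {z : ℤ → (Fin (k + 2) → ℝ)} (hp : Pos k n z)
    {z₁ z₂ : Fin (k + 2) → ℝ} (hq : QPos k n z z₁ z₂) {F : Fin (k + 2) → ℤ} (hF : In n F)
    {p q : Fin (k + 2)} (hpq : p < q) :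
    0 < det2 (X z z₁ z₂ (F ∘ q.succAbove)) (X z z₁ z₂ (F ∘ p.succAbove)) := by
  obtain ⟨p', hp'⟩ := Fin.exists_succAbove_eq hpq.ne
  have h1 := hp F hF
  have h2 := exchange (z ∘ F) h1.ne' hp' hpq z₁ z₂
  have h3 : 0 < D2 (z ∘ (F ∘ q.succAbove ∘ p'.succAbove)) z₁ z₂ := by
    apply hq
    have := (hF.comp (Fin.strictMono_succAbove q)).comp (Fin.strictMono_succAbove p')
    exact this
  have h4 : det2 (X z z₁ z₂ (F ∘ q.succAbove)) (X z z₁ z₂ (F ∘ p.succAbove)) =
      D (z ∘ F) * D2 (z ∘ (F ∘ q.succAbove ∘ p'.succAbove)) z₁ z₂ := h2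
  rw [h4]
  exact mul_pos h1 h3

/-- the enumeration of the indices not congruent to `-1` modulo `N + 1` -/
def en (N : ℕ) (j : ℤ) : ℤ := j + j / N

lemma en_add {N : ℕ} (hN : 0 < N) (j : ℤ) : en N (j + N) = en N j + (N + 1 : ℕ) := by
  unfold en
  have hN' : (N : ℤ) ≠ 0 := by exact_mod_cast hN.ne'
  have : (j + N) / (N : ℤ) = j / N + 1 := by
    rw [Int.add_ediv_of_dvd_right (dvd_refl _), Int.ediv_self hN']
  rw [this]
  push_cast
  ring

lemma en_strictMono {N : ℕ} (hN : 0 < N) : StrictMono (en N) := by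
  intro a b h
  unfold en
  have : a / (N : ℤ) ≤ b / N := Int.ediv_le_ediv (by exact_mod_cast hN) h.le
  omega

lemma en_of_lt {N : ℕ} {j : ℤ} (h0 : 0 ≤ j) (h1 : j < N) : en N j = j := by
  unfold en
  rw [Int.ediv_eq_zero_of_lt h0 h1, add_zero]

lemma en_of_ge {N : ℕ} {j : ℤ} (h0 : (N : ℤ) ≤ j) (h1 : j < 2 * N) : en N j = j + 1 := by
  have hN : 0 < N := by
    by_contra hcon
    have : N = 0 := by omega
    subst this
    simp at h0 h1
    omega
  have h2 := en_add hN (j - N)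
  rw [sub_add_cancel] at h2
  rw [h2, en_of_lt (by omega) (by omega)]
  push_cast
  ring

lemma In.en {m N : ℕ} (hN : 0 < N) {f : Fin m → ℤ} (hf : In N f) :
    In (N + 1) (fun a => en N (f a)) := by
  refine ⟨fun a b h => en_strictMono hN (hf.1 h), ?_⟩
  intro a b
  have h1 := en_strictMono hN (hf.2 a b)
  rw [en_add hN] at h1
  exact h1

lemma Per.del {k N : ℕ} (hN : 0 < N) {z : ℤ → (Fin (k + 2) → ℝ)} (hz : Per k (N + 1) z) :
    Per k N (fun j => z (en N j)) := by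
  intro j
  show z (AmpDual.en N (j + N)) = _
  rw [en_add hN, hz]

lemma Pos.del {k N : ℕ} (hN : 0 < N) {z : ℤ → (Fin (k + 2) → ℝ)} (hz : Pos k (N + 1) z) :
    Pos k N (fun j => z (en N j)) := fun _ hf => hz _ (hf.en hN)

lemma QPos.del {k N : ℕ} (hN : 0 < N) {z : ℤ → (Fin (k + 2) → ℝ)} {z₁ z₂ : Fin (k + 2) → ℝ}
    (hz : QPos k (N + 1) z z₁ z₂) : QPos k N (fun j => z (en N j)) z₁ z₂ :=
  fun _ hf => hz _ (hf.en hN)

lemma D1_perm {m : ℕ} (u : Fin m → (Fin (m + 1) → ℝ)) (σ : Equiv.Perm (Fin m))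
    (w : Fin (m + 1) → ℝ) : D1 (u ∘ σ) w = (Equiv.Perm.sign σ : ℤ) * D1 u w := by
  rw [D1_expand, D1_expand, Finset.mul_sum]
  apply Finset.sum_congr rfl
  intro j _
  have : (Matrix.of (u ∘ σ)).submatrix id j.succAbove =
      ((Matrix.of u).submatrix id j.succAbove).submatrix σ id := by
    ext a b
    rfl
  rw [this, Matrix.det_permute]
  ring

lemma D1_scale {m : ℕ} (u : Fin m → (Fin (m + 1) → ℝ)) (c : Fin m → ℝ)
    (w : Fin (m + 1) → ℝ) : D1 (fun i => c i • u i) w = (∏ i, c i) * D1 u w := by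
  rw [D1_expand, D1_expand, Finset.mul_sum]
  apply Finset.sum_congr rfl
  intro j _
  have : (Matrix.of (fun i => c i • u i)).submatrix id j.succAbove =
      Matrix.of (fun a b => c a * ((Matrix.of u).submatrix id j.succAbove) a b) := by
    ext a b
    rfl
  rw [this, Matrix.det_mul_column]
  ring

/-- `(k+1)`-windows of period `k+1`: the next window is minus the previous one -/
lemma Wf_win_full {k : ℕ} {z : ℤ → (Fin (k + 2) → ℝ)} (hz : Per k (k + 1) z) (j : ℤ)
    (v : Fin (k + 2) → ℝ) : Wf z (win (k + 1) (j + 1)) v = - Wf z (win (k + 1) j) v := by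
  unfold Wf
  have h1 : z ∘ win (k + 1) (j + 1) = fun i => (if i = Fin.last k then (-1 : ℝ) ^ (k + 1) else 1) •
      ((z ∘ win (k + 1) j) ∘ finRotate (k + 1)) i := by
    funext i
    by_cases hi : i = Fin.last k
    · subst hi
      rw [if_pos rfl]
      simp only [Function.comp_apply, finRotate_last, win]
      have := hz j
      push_cast at this
      simp only [Fin.val_last, Fin.val_zero, Nat.cast_zero, add_zero]
      rw [← this]
      congr 1
      ring
    · rw [if_neg hi, one_smul]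
      simp only [Function.comp_apply, win]
      congr 1
      have h2 : ((finRotate (k + 1) i : Fin (k + 1)) : ℕ) = (i : ℕ) + 1 := by
        rw [coe_finRotate, if_neg hi]
      rw [h2]
      push_cast
      ring
  rw [h1, D1_scale, D1_perm, sign_finRotate]
  simp only [Finset.prod_ite_eq', Finset.mem_univ, if_true]
  have h3 : (((-1 : ℤˣ) ^ (k + 1 - 1) : ℤˣ) : ℤ) = (-1) ^ k := by simp
  rw [h3]
  push_cast
  rw [← mul_assoc, ← pow_add]
  have : (-1 : ℝ) ^ (k + 1 + k) = -1 := by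
    rw [show k + 1 + k = 2 * k + 1 by ring, pow_add, pow_mul]
    simp
  rw [this]
  ring

end Pool.Agent.AmpDual
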