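import Mathlib

set_option autoImplicit false

/-! All definitions used in the statements: Grassmannian, amplituhedron, extendable dual
amplituhedron, twist, sign-flip regions, exterior cyclic polytope. -/

namespace Pool.Agent.AmpDual

open Matrix

open Classical in
/-- the strictly increasing tuples -/
noncomputable def srt (k n : ℕ) : Finset (Fin k → Fin n) := Finset.univ.filter StrictMono

/-- `k × m` matrices with linearly independent rows -/
def Frame (k m : ℕ) : Type :=
  {Y : Matrix (Fin k) (Fin m) ℝ // LinearIndependent ℝ (fun a => Y a)}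

instance (k m : ℕ) : TopologicalSpace (Frame k m) := instTopologicalSpaceSubtype

/-- the real Grassmannian `Gr(k,m)`: `k`-dimensional subspaces of `ℝ^m` -/
def Gr (k m : ℕ) : Type := {V : Submodule ℝ (Fin m → ℝ) // Module.finrank ℝ V = k}

/-- the point of the Grassmannian spanned by the rows of a frame -/
noncomputable def Frame.toGr {k m : ℕ} (Y : Frame k m) : Gr k m :=
  ⟨Submodule.span ℝ (Set.range (fun a => Y.1 a)), by
    rw [finrank_span_eq_card Y.2, Fintype.card_fin]⟩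

/-- the quotient topology of the Grassmannian -/
noncomputable instance (k m : ℕ) : TopologicalSpace (Gr k m) :=
  TopologicalSpace.coinduced Frame.toGr inferInstance

/-- all maximal minors are positive -/
def MaxMinorsPos {p n : ℕ} (Z : Matrix (Fin p) (Fin n) ℝ) : Prop :=
  ∀ J : Fin p → Fin n, StrictMono J → 0 < (Z.submatrix id J).det

/-- all maximal minors are nonnegative -/
def MaxMinorsNonneg {p n : ℕ} (M : Matrix (Fin p) (Fin n) ℝ) : Prop :=
  ∀ J : Fin p → Fin n, StrictMono J → 0 ≤ (M.submatrix id J).det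

/-- the amplituhedron `A_{k,2,n}(Z)`: row spaces of `M Zᵀ` for `M` in the totally nonnegative
Grassmannian -/
def amplituhedron {k n : ℕ} (Z : Matrix (Fin (k + 2)) (Fin n) ℝ) : Set (Gr k (k + 2)) :=
  {V | ∃ M : Matrix (Fin k) (Fin n) ℝ, LinearIndependent ℝ (fun a => M a) ∧ MaxMinorsNonneg M ∧
    V.1 = Submodule.span ℝ (Set.range (fun a => (M * Zᵀ) a))}

/-- the standard inner product of `Y₁ ∧ ... ∧ Y_k` and `Z_{I 1} ∧ ... ∧ Z_{I k}`, computed in
Pluecker coordinates -/
noncomputable def pairing {k n : ℕ} (Y : Matrix (Fin k) (Fin (k + 2)) ℝ)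
    (Z : Matrix (Fin (k + 2)) (Fin n) ℝ) (I : Fin k → Fin n) : ℝ :=
  ∑ S ∈ srt k (k + 2), (Y.submatrix id S).det * (Z.submatrix S I).det

/-- the extendable dual amplituhedron -/
def dualAmp {k n : ℕ} (Z : Matrix (Fin (k + 2)) (Fin n) ℝ) : Set (Gr k (k + 2)) :=
  {V | ∃ Y : Frame k (k + 2), Y.toGr = V ∧
    ∀ I : Fin k → Fin n, StrictMono I → 0 ≤ pairing Y.1 Z I}

/-- the determinant with rows `Y₁, ..., Y_k, a, b` -/
noncomputable def bracket {k : ℕ} (Y : Matrix (Fin k) (Fin (k + 2)) ℝ) (a b : Fin (k + 2) → ℝ) :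
    ℝ :=
  Matrix.det (Matrix.of (Fin.snoc (α := fun _ => Fin (k + 2) → ℝ)
    (Fin.snoc (α := fun _ => Fin (k + 2) → ℝ) (fun i => Y i) a) b))

/-- column number `j` of a matrix, `j = 0, ..., n-1` -/
noncomputable def col {p n : ℕ} (W : Matrix (Fin p) (Fin n) ℝ) (j : ℕ) : Fin p → ℝ :=
  fun c => if h : j < n then W c ⟨j, h⟩ else 0

/-- the columns of `Z` continued cyclically with the sign `(-1)^(k+1)` (for `m < 2n`) -/
noncomputable def colCyc {k n : ℕ} (Z : Matrix (Fin (k + 2)) (Fin n) ℝ) (m : ℕ) :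
    Fin (k + 2) → ℝ :=
  if m < n then col Z m else (-1 : ℝ) ^ (k + 1) • col Z (m - n)

/-- the twist of `Z`: column `i` is the covector `v ↦ det (Z_i, Z_{i+1}, ..., Z_{i+k}, v)` -/
noncomputable def twist {k n : ℕ} (Z : Matrix (Fin (k + 2)) (Fin n) ℝ) :
    Matrix (Fin (k + 2)) (Fin n) ℝ :=
  Matrix.of (fun c i => Matrix.det (Matrix.of (Fin.snoc (α := fun _ => Fin (k + 2) → ℝ)
    (fun a : Fin (k + 1) => colCyc Z ((i : ℕ) + (a : ℕ))) (Pi.single c 1))))

open Classical in
/-- number of sign flips of a finite real sequence: the number of pairs of positions with entries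
of opposite sign and only zeros in between -/
noncomputable def signFlips {m : ℕ} (s : Fin m → ℝ) : ℕ :=
  (Finset.univ.filter (fun p : Fin m × Fin m => p.1 < p.2 ∧ s p.1 * s p.2 < 0 ∧
    ∀ r, p.1 < r → r < p.2 → s r = 0)).card

/-- the sign-flip region -/
def flipRegion {k n : ℕ} (W : Matrix (Fin (k + 2)) (Fin n) ℝ) : Set (Gr k (k + 2)) :=
  {V | ∃ Y : Frame k (k + 2), Y.toGr = V ∧
    (∀ i : ℕ, i + 1 < n → 0 < bracket Y.1 (col W i) (col W (i + 1))) ∧
    0 < (-1 : ℝ) ^ k * bracket Y.1 (col W 0) (col W (n - 1)) ∧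
    signFlips (fun j : Fin (n - 1) => bracket Y.1 (col W 0) (col W ((j : ℕ) + 1))) = k}

/-- `Gr(k,k+2) ∩ C_{k,2,n}(Z)`: points whose Pluecker vector is a nonnegative combination of the
vectors `Z_{I 1} ∧ ... ∧ Z_{I k}` -/
def hullSection {k n : ℕ} (Z : Matrix (Fin (k + 2)) (Fin n) ℝ) : Set (Gr k (k + 2)) :=
  {V | ∃ Y : Frame k (k + 2), Y.toGr = V ∧ ∃ w : (Fin k → Fin n) → ℝ, (∀ I, 0 ≤ w I) ∧
    ∀ S : Fin k → Fin (k + 2), StrictMono S →
      (Y.1.submatrix id S).det = ∑ I ∈ srt k n, w I * (Z.submatrix S I).det}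

/-- the region of the problem file, with zero sign flips -/
def zeroFlipRegion {k n : ℕ} (Z : Matrix (Fin (k + 2)) (Fin n) ℝ) : Set (Gr k (k + 2)) :=
  {V | ∃ Y : Frame k (k + 2), Y.toGr = V ∧
    (∀ i : ℕ, i + 1 < n → 0 < bracket Y.1 (col Z i) (col Z (i + 1))) ∧
    0 < bracket Y.1 (col Z 0) (col Z (n - 1)) ∧
    signFlips (fun j : Fin (n - 1) => bracket Y.1 (col Z 0) (col Z ((j : ℕ) + 1))) = 0}

end Pool.Agent.AmpDual
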