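import Pool.Agent.AmpDual.Kermit
import Pool.Agent.AmpDual.Spec

set_option autoImplicit false

/-! Sign flips and crossings. -/

namespace Pool.Agent.AmpDual

lemma hp_chain {x : ℕ → ℝ × ℝ} {n : ℕ} (hturn : ∀ j < n, 0 < det2 (x j) (x (j + 1)))
    (hn : 1 ≤ n) (p q : ℕ) (hpq : p + 1 ≤ q) (hq : q < n)
    (hz : ∀ r, p < r → r < q → det2 (x 0) (x (r + 1)) = 0) :
    (hp (x 0) (x (p + 2)) ↔ hp (x 0) (x (q + 1))) := by
  induction q, hpq using Nat.le_induction with
  | base => exact Iff.rfl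
  | succ q hpq ih =>
    have h1 := ih (by omega) (fun r h2 h3 => hz r h2 (by omega))
    have hu : x 0 ≠ 0 := (ne_zero_of_det2 (hturn 0 (by omega))).1
    have h2 := no_cross_of_zero hu (hturn (q + 1) (by omega)) (hz q (by omega) (by omega))
    rw [h1, h2]

lemma hp_of_ne {u y : ℝ × ℝ} (h : det2 u y ≠ 0) : hp u y ↔ 0 < det2 u y := by
  unfold hp
  constructor
  · rintro (h1 | h1)
    · exact h1
    · exact absurd h1.1 h
  · intro h1
    exact Or.inl h1

theorem signFlips_eq {x : ℕ → ℝ × ℝ} {n : ℕ} (hturn : ∀ j < n, 0 < det2 (x j) (x (j + 1)))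
    (hn : 2 ≤ n) (hlast : det2 (x 0) (x (n - 1)) ≠ 0) :
    signFlips (fun j : Fin (n - 1) => det2 (x 0) (x ((j : ℕ) + 1))) = (Cset x n).card := by
  classical
  have hu : x 0 ≠ 0 := (ne_zero_of_det2 (hturn 0 (by omega))).1
  unfold signFlips
  have opp : ∀ a b : ℝ, a * b < 0 → (a ≠ 0 ∧ b ≠ 0 ∧ ¬ (0 < a ↔ 0 < b)) := by
    intro a b h
    rcases mul_neg_iff.1 h with h1 | h1
    · exact ⟨h1.1.ne', h1.2.ne, fun h2 => absurd (h2.1 h1.1) (not_lt.2 h1.2.le)⟩
    · exact ⟨h1.1.ne, h1.2.ne', fun h2 => absurd (h2.2 h1.2) (not_lt.2 h1.1.le)⟩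
  apply Finset.card_bij (fun p _ => (p.1 : ℕ) + 1)
  · rintro ⟨p, q⟩ h
    rw [Finset.mem_filter] at h
    obtain ⟨_, hpq, hs, hz⟩ := h
    have hpq' : (p : ℕ) < q := hpq
    have hq := q.2
    obtain ⟨n1, n2, n3⟩ := opp _ _ hs
    show (p : ℕ) + 1 ∈ Cset x n
    unfold Cset
    rw [Finset.mem_filter, Finset.mem_Ico]
    refine ⟨⟨by omega, by omega⟩, ?_⟩
    have h1 := hp_chain hturn (by omega) p q (by omega) (by omega) (fun r h2 h3 => by
      exact hz ⟨r, by omega⟩ h2 h3)
    have h4 : (p : ℕ) + 1 + 1 = p + 2 := by ring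
    rw [h4, h1, hp_of_ne n1, hp_of_ne n2]
    exact n3
  · rintro ⟨p, q⟩ h ⟨p', q'⟩ h' heq
    rw [Finset.mem_filter] at h h'
    obtain ⟨_, hpq, hs, hz⟩ := h
    obtain ⟨_, hpq', hs', hz'⟩ := h'
    obtain ⟨n1, n2, n3⟩ := opp _ _ hs
    obtain ⟨n1', n2', n3'⟩ := opp _ _ hs'
    have hp : p = p' := by
      apply Fin.ext
      have : (p : ℕ) + 1 = p' + 1 := heq
      omega
    subst hp
    have hq : q = q' := by
      rcases lt_trichotomy q q' with h1 | h1 | h1
      · exact absurd (hz' q hpq h1) n2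
      · exact h1
      · exact absurd (hz q' hpq' h1) n2'
    rw [hq]
  · intro j hj
    unfold Cset at hj
    rw [Finset.mem_filter, Finset.mem_Ico] at hj
    obtain ⟨⟨hj1, hj2⟩, hj3⟩ := hj
    -- first nonzero after j
    have hex : ∃ q : ℕ, j ≤ q ∧ q < n - 1 ∧ det2 (x 0) (x (q + 1)) ≠ 0 := by
      refine ⟨n - 2, by omega, by omega, ?_⟩
      rw [show n - 2 + 1 = n - 1 by omega]
      exact hlast
    have hq := Nat.find_spec hex
    have hmin := fun r => Nat.find_min hex (m := r)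
    set q := Nat.find hex with hqd
    have hsp : det2 (x 0) (x j) ≠ 0 := by
      intro h0
      exact hj3 (no_cross_of_zero hu (hturn j (by omega)) h0)
    have hz : ∀ r, j - 1 < r → r < q → det2 (x 0) (x (r + 1)) = 0 := by
      intro r h1 h2
      by_contra hcon
      exact hmin r h2 ⟨by omega, by omega, hcon⟩
    have h1 := hp_chain hturn (by omega) (j - 1) q (by omega) (by omega) hz
    rw [show j - 1 + 2 = j + 1 by omega, hp_of_ne hq.2.2] at h1
    rw [h1, hp_of_ne hsp] at hj3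
    refine ⟨(⟨j - 1, by omega⟩, ⟨q, hq.2.1⟩), ?_, ?_⟩
    · rw [Finset.mem_filter]
      refine ⟨Finset.mem_univ _, ?_, ?_, ?_⟩
      · show j - 1 < q
        omega
      · show det2 (x 0) (x (j - 1 + 1)) * det2 (x 0) (x (q + 1)) < 0
        rw [show j - 1 + 1 = j by omega]
        rcases lt_or_gt_of_ne hsp with h2 | h2 <;> rcases lt_or_gt_of_ne hq.2.2 with h3 | h3
        · exfalso
          apply hj3
          constructor <;> intro h4 <;> linarith
        · exact mul_neg_of_neg_of_pos h2 h3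
        · exact mul_neg_of_pos_of_neg h2 h3
        · exfalso
          apply hj3
          constructor <;> intro _ <;> assumption
      · intro r h2 h3
        exact hz r h2 h3
    · show j - 1 + 1 = j
      omega

end Pool.Agent.AmpDual
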