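import Pool.Agent.AmpDual.CB

set_option autoImplicit false

/-! A totally positive kernel close to the identity. -/

namespace Pool.Agent.AmpDual

open Matrix

/-- one Schur complement step -/
lemma det_schur_step {k : ℕ} (A : Matrix (Fin (k + 1)) (Fin (k + 1)) ℝ) (h : A 0 0 ≠ 0) :
    A.det = A 0 0 * (Matrix.of (fun a b : Fin k =>
      A a.succ b.succ - A a.succ 0 * A 0 b.succ / A 0 0)).det := by
  set B : Matrix (Fin (k + 1)) (Fin (k + 1)) ℝ := Matrix.of (fun a b =>
    if a = 0 then A 0 b else A a b - A a 0 / A 0 0 * A 0 b) with hB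
  have h1 : A.det = B.det := by
    symm
    apply Matrix.det_eq_of_forall_row_eq_smul_add_const (fun a => if a = 0 then 0 else - (A a 0 / A 0 0)) 0
    · simp
    · intro a b
      rw [hB]
      simp only [Matrix.of_apply]
      by_cases ha : a = 0
      · subst ha
        simp
      · rw [if_neg ha, if_neg ha]
        ring
  rw [h1, Matrix.det_succ_column_zero, Fin.sum_univ_succ]
  have h2 : ∑ i : Fin k, (-1 : ℝ) ^ ((i.succ : Fin (k + 1)) : ℕ) * B i.succ 0 *
      (B.submatrix i.succ.succAbove Fin.succ).det = 0 := by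
    apply Finset.sum_eq_zero
    intro i _
    have : B i.succ 0 = 0 := by
      rw [hB]
      simp only [Matrix.of_apply]
      rw [if_neg (Fin.succ_ne_zero i), div_mul_cancel₀ _ h, sub_self]
    rw [this]
    ring
  rw [h2, add_zero]
  have h3 : B 0 0 = A 0 0 := by
    rw [hB]
    simp
  have h4 : B.submatrix (0 : Fin (k + 1)).succAbove Fin.succ = Matrix.of (fun a b : Fin k =>
      A a.succ b.succ - A a.succ 0 * A 0 b.succ / A 0 0) := by
    ext a b
    rw [hB]
    simp only [Matrix.submatrix_apply, Matrix.of_apply, Fin.zero_succAbove]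
    rw [if_neg (Fin.succ_ne_zero a)]
    ring
  rw [h3, h4]
  simp

/-- Cauchy determinants are positive -/
lemma det_cauchy_pos {k : ℕ} (x y : Fin k → ℝ) (hx0 : ∀ a, 0 < x a) (hy0 : ∀ a, 0 < y a)
    (hx : StrictMono x) (hy : StrictMono y) :
    0 < (Matrix.of (fun a b => 1 / (x a + y b))).det := by
  induction k with
  | zero => simp
  | succ k ih =>
    have hp : ∀ a b, 0 < x a + y b := fun a b => add_pos (hx0 a) (hy0 b)
    have h00 : (Matrix.of (fun a b => 1 / (x a + y b))) 0 0 = 1 / (x 0 + y 0) := rfl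
    have h00p : 0 < 1 / (x 0 + y 0) := by have := hp 0 0; positivity
    rw [det_schur_step _ (by rw [h00]; exact h00p.ne')]
    rw [h00]
    apply mul_pos h00p
    have h1 : (Matrix.of (fun a b : Fin k =>
        (Matrix.of (fun a b => 1 / (x a + y b))) a.succ b.succ -
        (Matrix.of (fun a b => 1 / (x a + y b))) a.succ 0 *
        (Matrix.of (fun a b => 1 / (x a + y b))) 0 b.succ / (1 / (x 0 + y 0)))) =
        Matrix.of (fun a b : Fin k => ((x a.succ - x 0) / (x a.succ + y 0)) *
          (Matrix.of (fun a b : Fin k => ((y b.succ - y 0) / (x 0 + y b.succ)) *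
            (Matrix.of (fun a b : Fin k => 1 / (x a.succ + y b.succ))) a b)) a b) := by
      ext a b
      simp only [Matrix.of_apply]
      have e1 := (hp a.succ b.succ).ne'
      have e2 := (hp a.succ 0).ne'
      have e3 := (hp 0 b.succ).ne'
      have e4 := (hp 0 0).ne'
      field_simp
      ring
    rw [h1, Matrix.det_mul_column, Matrix.det_mul_row]
    apply mul_pos
    · apply Finset.prod_pos
      intro a _
      have := hx (Fin.succ_pos a)
      exact div_pos (by linarith) (hp _ _)
    · apply mul_pos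
      · apply Finset.prod_pos
        intro a _
        have := hy (Fin.succ_pos a)
        exact div_pos (by linarith) (hp _ _)
      · exact ih (fun a => x a.succ) (fun a => y a.succ) (fun a => hx0 _) (fun a => hy0 _)
          (fun a b h => hx (Fin.succ_lt_succ_iff.2 h)) (fun a b h => hy (Fin.succ_lt_succ_iff.2 h))

/-- the kernel -/
noncomputable def Kt (n : ℕ) (t : ℝ) : Matrix (Fin n) (Fin n) ℝ :=
  Matrix.of (fun i j => 2 * t ^ ((i : ℕ) + (j : ℕ)) / (t ^ (2 * (i : ℕ)) + t ^ (2 * (j : ℕ))))

lemma Kt_minor_pos {n k : ℕ} {t : ℝ} (ht : 1 < t) {I J : Fin k → Fin n} (hI : StrictMono I)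
    (hJ : StrictMono J) : 0 < ((Kt n t).submatrix I J).det := by
  have ht0 : 0 < t := by linarith
  have h1 : (Kt n t).submatrix I J = Matrix.of (fun a b : Fin k => (2 * t ^ (I a : ℕ)) *
      (Matrix.of (fun a b : Fin k => (t ^ (J b : ℕ)) *
        (Matrix.of (fun a b : Fin k => 1 / (t ^ (2 * (I a : ℕ)) + t ^ (2 * (J b : ℕ))))) a b)) a b) := by
    ext a b
    unfold Kt
    simp only [Matrix.submatrix_apply, Matrix.of_apply]
    rw [pow_add]
    ring
  rw [h1, Matrix.det_mul_column, Matrix.det_mul_row]
  apply mul_pos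
  · apply Finset.prod_pos
    intro a _
    positivity
  · apply mul_pos
    · apply Finset.prod_pos
      intro a _
      positivity
    · apply det_cauchy_pos
      · intro a; positivity
      · intro a; positivity
      · intro a b h
        have h2 : (I a : ℕ) < I b := hI h
        exact pow_lt_pow_right₀ ht (by omega)
      · intro a b h
        have h2 : (J a : ℕ) < J b := hJ h
        exact pow_lt_pow_right₀ ht (by omega)

lemma Kt_diag {n : ℕ} {t : ℝ} (ht : 0 < t) (i : Fin n) : Kt n t i i = 1 := by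
  unfold Kt
  simp only [Matrix.of_apply]
  rw [← two_mul (i : ℕ)]
  have : 0 < t ^ (2 * (i : ℕ)) := by positivity
  field_simp
  ring

lemma Kt_off {n : ℕ} {t : ℝ} (ht : 1 < t) {i j : Fin n} (hij : i ≠ j) :
    0 ≤ Kt n t i j ∧ Kt n t i j ≤ 2 / t := by
  have ht0 : 0 < t := by linarith
  unfold Kt
  simp only [Matrix.of_apply]
  constructor
  · positivity
  · rw [div_le_div_iff₀ (by positivity) ht0]
    rcases lt_or_gt_of_ne hij with h | h
    · have h' : (i : ℕ) + 1 ≤ j := h
      have h1 : t ^ ((i : ℕ) + (j : ℕ)) * t ≤ t ^ (2 * (j : ℕ)) := by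
        rw [← pow_succ]
        exact pow_le_pow_right₀ ht.le (by omega)
      have h2 : 0 < t ^ (2 * (i : ℕ)) := by positivity
      nlinarith
    · have h' : (j : ℕ) + 1 ≤ i := h
      have h1 : t ^ ((i : ℕ) + (j : ℕ)) * t ≤ t ^ (2 * (i : ℕ)) := by
        rw [← pow_succ]
        exact pow_le_pow_right₀ ht.le (by omega)
      have h2 : 0 < t ^ (2 * (j : ℕ)) := by positivity
      nlinarith

open Filter Topology in
lemma Kt_tendsto (n : ℕ) : Tendsto (fun t : ℝ => Kt n t) atTop (𝓝 1) := by
  refine tendsto_pi_nhds.2 (fun i => ?_)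
  refine tendsto_pi_nhds.2 (fun j => ?_)
  by_cases hij : i = j
  · subst hij
    rw [Matrix.one_apply_eq]
    apply tendsto_const_nhds.congr'
    filter_upwards [eventually_gt_atTop (0 : ℝ)] with t ht
    exact (Kt_diag ht i).symm
  · rw [Matrix.one_apply_ne hij]
    have h0 : Tendsto (fun t : ℝ => 2 / t) atTop (𝓝 0) := tendsto_const_nhds.div_atTop tendsto_id
    apply squeeze_zero' _ _ h0
    · filter_upwards [eventually_gt_atTop (1 : ℝ)] with t ht
      exact (Kt_off ht hij).1
    · filter_upwards [eventually_gt_atTop (1 : ℝ)] with t ht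
      exact (Kt_off ht hij).2

end Pool.Agent.AmpDual
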