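import Pool.Agent.AmpDual.Expand

set_option autoImplicit false

/-! Window functionals: deletion relation, positivity, nonnegative minors. -/

namespace Pool.Agent.AmpDual

/-- window covector as a vector -/
noncomputable def Wv {k : ℕ} (z : ℤ → (Fin (k + 2) → ℝ)) (i : ℤ) : Fin (k + 2) → ℝ :=
  fun c => Wf z (win (k + 1) i) (Pi.single c 1)

lemma Wf_eq_sum {k : ℕ} (z : ℤ → (Fin (k + 2) → ℝ)) (i : ℤ) (v : Fin (k + 2) → ℝ) :
    Wf z (win (k + 1) i) v = ∑ c, Wv z i c * v c := by
  have h1 : v = ∑ c, v c • (Pi.single c (1 : ℝ) : Fin (k + 2) → ℝ) := by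
    have := pi_eq_sum_univ' v
    conv_lhs => rw [this]
  have h2 : Wf z (win (k + 1) i) v = D1L (z ∘ win (k + 1) i) v := rfl
  rw [h2]
  conv_lhs => rw [h1]
  rw [map_sum]
  apply Finset.sum_congr rfl
  intro c _
  rw [map_smul, smul_eq_mul, mul_comm]
  rfl

lemma neg_one_sq_pow (k : ℕ) : ((-1 : ℝ) ^ (k + 1)) ^ (k + 1) = (-1) ^ (k + 1) := by
  rcases neg_one_pow_eq_or ℝ (k + 1) with h | h
  · rw [h, one_pow]
  · rw [h]
    exact h

lemma Wf_per {k n : ℕ} {z : ℤ → (Fin (k + 2) → ℝ)} (hz : Per k n z) (i : ℤ)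
    (v : Fin (k + 2) → ℝ) :
    Wf z (win (k + 1) (i + n)) v = (-1 : ℝ) ^ (k + 1) * Wf z (win (k + 1) i) v := by
  unfold Wf
  have h1 : z ∘ win (k + 1) (i + n) = fun a => (-1 : ℝ) ^ (k + 1) • (z ∘ win (k + 1) i) a := by
    funext a
    simp only [Function.comp_apply, win]
    rw [← hz]
    congr 1
    ring
  rw [h1, D1_scale]
  simp only [Finset.prod_const, Finset.card_univ, Fintype.card_fin]
  rw [neg_one_sq_pow]

lemma Wv_per {k n : ℕ} {z : ℤ → (Fin (k + 2) → ℝ)} (hz : Per k n z) : Per k n (Wv z) := by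
  intro i
  funext c
  simp only [Wv, Pi.smul_apply, smul_eq_mul]
  exact Wf_per hz i _

/-- three term relation -/
lemma three_term {k : ℕ} (a b : Fin (k + 2) → ℝ) (w : Fin (k + 1) → (Fin (k + 2) → ℝ))
    (p : Fin (k + 1)) (v : Fin (k + 2) → ℝ)
    (hne : D1 (Fin.cons (α := fun _ => Fin (k + 2) → ℝ) a (w ∘ p.succAbove)) b ≠ 0) :
    D1 (Fin.cons (α := fun _ => Fin (k + 2) → ℝ) a (w ∘ p.succAbove)) b * D1 w v =
      D1 w b * D1 (Fin.cons (α := fun _ => Fin (k + 2) → ℝ) a (w ∘ p.succAbove)) v +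
      D (Fin.cons (α := fun _ => Fin (k + 2) → ℝ) a w) *
        D1 (Fin.snoc (α := fun _ => Fin (k + 2) → ℝ) (w ∘ p.succAbove) b) v := by
  set R : Fin k → (Fin (k + 2) → ℝ) := w ∘ p.succAbove with hR
  set V : Fin (k + 2) → (Fin (k + 2) → ℝ) :=
    Fin.snoc (α := fun _ => Fin (k + 2) → ℝ) (Fin.cons (α := fun _ => Fin (k + 2) → ℝ) a R) b with hV
  have hD : D V ≠ 0 := hne
  have hli : LinearIndependent ℝ V := by
    have h1 : IsUnit (Matrix.of V) := (Matrix.isUnit_iff_isUnit_det _).2 (isUnit_iff_ne_zero.2 hD)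
    exact Matrix.linearIndependent_rows_iff_isUnit.2 h1
  let B : Module.Basis (Fin (k + 2)) ℝ (Fin (k + 2) → ℝ) :=
    basisOfLinearIndependentOfCardEqFinrank hli (by simp)
  have hB : ∀ i, B i = V i := fun i => by simp [B]
  let L1 : (Fin (k + 2) → ℝ) →ₗ[ℝ] ℝ :=
    (D1 (Fin.cons (α := fun _ => Fin (k + 2) → ℝ) a R) b) • D1L w
  let L2 : (Fin (k + 2) → ℝ) →ₗ[ℝ] ℝ :=
    (D1 w b) • D1L (Fin.cons (α := fun _ => Fin (k + 2) → ℝ) a R) +
      (D (Fin.cons (α := fun _ => Fin (k + 2) → ℝ) a w)) •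
        D1L (Fin.snoc (α := fun _ => Fin (k + 2) → ℝ) R b)
  have hL : L1 = L2 := by
    apply B.ext
    intro i
    rw [hB]
    show D1 (Fin.cons (α := fun _ => Fin (k + 2) → ℝ) a R) b * D1 w (V i) =
      D1 w b * D1 (Fin.cons (α := fun _ => Fin (k + 2) → ℝ) a R) (V i) +
      D (Fin.cons (α := fun _ => Fin (k + 2) → ℝ) a w) *
        D1 (Fin.snoc (α := fun _ => Fin (k + 2) → ℝ) R b) (V i)
    induction i using Fin.lastCases with
    | last =>
      have hVl : V (Fin.last (k + 1)) = b := by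
        rw [hV, Fin.snoc_last]
      rw [hVl]
      have h2 : D1 (Fin.snoc (α := fun _ => Fin (k + 2) → ℝ) R b) b = 0 := by
        have := D1_self (Fin.snoc (α := fun _ => Fin (k + 2) → ℝ) R b) (Fin.last k)
        rwa [Fin.snoc_last] at this
      rw [h2]
      ring
    | cast i =>
      have hVc : V i.castSucc = (Fin.cons (α := fun _ => Fin (k + 2) → ℝ) a R :
          Fin (k + 1) → (Fin (k + 2) → ℝ)) i := by
        rw [hV, Fin.snoc_castSucc]
      have h3 : D1 (Fin.cons (α := fun _ => Fin (k + 2) → ℝ) a R) (V i.castSucc) = 0 := by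
        rw [hVc]
        exact D1_self _ i
      rw [h3]
      induction i using Fin.cases with
      | zero =>
        have hV0 : V (Fin.castSucc 0) = a := by rw [hVc, Fin.cons_zero]
        rw [hV0]
        have h4 : D1 w a = (-1) ^ (k + 1) * D (Fin.cons (α := fun _ => Fin (k + 2) → ℝ) a w) := by
          have := D1_remove (Fin.cons (α := fun _ => Fin (k + 2) → ℝ) a w) 0
          simpa using this
        have h5 : D1 (Fin.snoc (α := fun _ => Fin (k + 2) → ℝ) R b) a =
            (-1) ^ (k + 1) * D1 (Fin.cons (α := fun _ => Fin (k + 2) → ℝ) a R) b := by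
          have h6 := D1_remove V 0
          have h7 : V ∘ (0 : Fin (k + 2)).succAbove =
              Fin.snoc (α := fun _ => Fin (k + 2) → ℝ) R b := by
            have : V = Fin.cons (α := fun _ => Fin (k + 2) → ℝ) a
                (Fin.snoc (α := fun _ => Fin (k + 2) → ℝ) R b) := by
              rw [hV]
              exact (Fin.cons_snoc_eq_snoc_cons (β := Fin (k + 2) → ℝ) a R b).symm
            rw [this]
            funext j
            simp
          have h8 : V 0 = a := by
            rw [← Fin.castSucc_zero]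
            exact hV0
          rw [h7, h8] at h6
          have h9 : D V = D1 (Fin.cons (α := fun _ => Fin (k + 2) → ℝ) a R) b := rfl
          rw [← h9]
          simpa using h6
        rw [h4, h5]
        ring
      | succ j =>
        have hVj : V j.succ.castSucc = R j := by rw [hVc, Fin.cons_succ]
        rw [hVj]
        have h9 : D1 w (R j) = 0 := D1_self w (p.succAbove j)
        have h10 : D1 (Fin.snoc (α := fun _ => Fin (k + 2) → ℝ) R b) (R j) = 0 := by
          have := D1_self (Fin.snoc (α := fun _ => Fin (k + 2) → ℝ) R b) j.castSucc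
          rwa [Fin.snoc_castSucc] at this
        rw [h9, h10]
        ring
  have := congrArg (fun L => L v) hL
  exact this

lemma snoc_win {k m : ℕ} (g : ℤ → (Fin k → ℝ)) (i : ℤ) :
    Fin.snoc (α := fun _ => Fin k → ℝ) (g ∘ win m i) (g (i + m)) = g ∘ win (m + 1) i := by
  funext a
  induction a using Fin.lastCases with
  | last => simp [win]
  | cast a => simp [win]

lemma cons_win {k m : ℕ} (g : ℤ → (Fin k → ℝ)) (i : ℤ) :
    Fin.cons (α := fun _ => Fin k → ℝ) (g (i - 1)) (g ∘ win m i) = g ∘ win (m + 1) (i - 1) := by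
  funext a
  induction a using Fin.cases with
  | zero => simp [win]
  | succ a =>
    simp [win]

/-- the deletion relation for windows containing the deleted point -/
lemma Wf_del {k N : ℕ} (hN : k + 2 ≤ N) {z : ℤ → (Fin (k + 2) → ℝ)} (hp : Pos k (N + 1) z)
    {i : ℤ} (hi : (N : ℤ) - k ≤ i) (hi' : i ≤ N) (v : Fin (k + 2) → ℝ) :
    D ((fun j => z (en N j)) ∘ win (k + 2) (i - 1)) * Wf z (win (k + 1) i) v =
      D (z ∘ win (k + 2) i) * Wf (fun j => z (en N j)) (win (k + 1) (i - 1)) v +
      D (z ∘ win (k + 2) (i - 1)) * Wf (fun j => z (en N j)) (win (k + 1) i) v := by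
  set z' : ℤ → (Fin (k + 2) → ℝ) := fun j => z (en N j) with hz'
  have hpos' : Pos k N z' := Pos.del (by omega) hp
  obtain ⟨p, hp'⟩ : ∃ p : ℕ, (p : ℤ) = N - i := ⟨(N - i).toNat, by omega⟩
  have hpk : p < k + 1 := by omega
  have hR : (z ∘ win (k + 1) i) ∘ (⟨p, hpk⟩ : Fin (k + 1)).succAbove = z' ∘ win k i := by
    funext a
    simp only [Function.comp_apply, win, hz']
    congr 1
    have ha := a.2
    rcases Nat.lt_or_ge (a : ℕ) p with h | h
    · rw [Fin.succAbove_of_castSucc_lt _ _ (by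
        rw [Fin.lt_def]
        simpa using h)]
      rw [en_of_lt (by omega) (by omega)]
      simp
    · rw [Fin.succAbove_of_le_castSucc _ _ (by
        rw [Fin.le_def]
        simpa using h)]
      rw [en_of_ge (by omega) (by omega)]
      simp
      ring
  have ha : z (i - 1) = z' (i - 1) := by
    rw [hz']
    dsimp only
    rw [en_of_lt (by omega) (by omega)]
  have hb : z (i + (k + 1 : ℕ)) = z' (i + k) := by
    rw [hz']
    dsimp only
    rw [en_of_ge (by omega) (by omega)]
    congr 1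
    push_cast
    ring
  have h1 := three_term (z (i - 1)) (z (i + (k + 1 : ℕ))) (z ∘ win (k + 1) i) ⟨p, hpk⟩ v
  rw [hR] at h1
  have e1 : Fin.cons (α := fun _ => Fin (k + 2) → ℝ) (z (i - 1)) (z' ∘ win k i) =
      z' ∘ win (k + 1) (i - 1) := by
    rw [ha]
    exact cons_win z' i
  have e2 : Fin.snoc (α := fun _ => Fin (k + 2) → ℝ) (z' ∘ win k i) (z (i + (k + 1 : ℕ))) =
      z' ∘ win (k + 1) i := by
    rw [hb]
    exact snoc_win z' i
  have e3 : D1 (z' ∘ win (k + 1) (i - 1)) (z (i + (k + 1 : ℕ))) = D (z' ∘ win (k + 2) (i - 1)) := by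
    unfold D1
    rw [hb]
    have := snoc_win (m := k + 1) z' (i - 1)
    rw [← this]
    congr 3
    push_cast
    ring
  have e4 : D1 (z ∘ win (k + 1) i) (z (i + (k + 1 : ℕ))) = D (z ∘ win (k + 2) i) := by
    unfold D1
    rw [← snoc_win (m := k + 1)]
  have e5 : Fin.cons (α := fun _ => Fin (k + 2) → ℝ) (z (i - 1)) (z ∘ win (k + 1) i) =
      z ∘ win (k + 2) (i - 1) := cons_win z i
  rw [e1, e2, e3, e4, e5] at h1
  exact h1 (hpos' _ (win_in hN _)).ne'

/-- the coefficients of the deletion relation -/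
lemma exists_rel {k N : ℕ} (hN : k + 2 ≤ N) {z : ℤ → (Fin (k + 2) → ℝ)} (hp : Pos k (N + 1) z) :
    ∃ α β : ℤ → ℝ, (∀ i : ℤ, 0 ≤ i → i ≤ N → 0 ≤ α i) ∧ α 0 = 0 ∧
      (∀ i : ℤ, 0 ≤ i → i ≤ N → 0 < β i) ∧
      ∀ i : ℤ, 0 ≤ i → i ≤ N → ∀ v, Wf z (win (k + 1) i) v =
        α i * Wf (fun j => z (en N j)) (win (k + 1) (i - 1)) v +
        β i * Wf (fun j => z (en N j)) (win (k + 1) i) v := by
  classical
  have hpos' : Pos k N (fun j => z (en N j)) := Pos.del (by omega) hp
  refine ⟨fun i => if (N : ℤ) - k ≤ i then D (z ∘ win (k + 2) i) /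
      D ((fun j => z (en N j)) ∘ win (k + 2) (i - 1)) else 0,
    fun i => if (N : ℤ) - k ≤ i then D (z ∘ win (k + 2) (i - 1)) /
      D ((fun j => z (en N j)) ∘ win (k + 2) (i - 1)) else 1, ?_, ?_, ?_, ?_⟩
  · intro i _ _
    dsimp only
    split_ifs
    · exact div_nonneg (hp _ (win_in (by omega) _)).le (hpos' _ (win_in hN _)).le
    · exact le_rfl
  · dsimp only
    rw [if_neg (by omega)]
  · intro i _ _
    dsimp only
    split_ifs
    · exact div_pos (hp _ (win_in (by omega) _)) (hpos' _ (win_in hN _))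
    · exact one_pos
  · intro i hi0 hi1 v
    dsimp only
    split_ifs with h
    · have h1 := Wf_del hN hp h hi1 v
      have h2 := (hpos' _ (win_in hN (i - 1)))
      have h3 := h2.ne'
      field_simp
      linarith
    · rw [zero_mul, zero_add, one_mul]
      have : z ∘ win (k + 1) i = (fun j => z (en N j)) ∘ win (k + 1) i := by
        funext a
        simp only [Function.comp_apply, win]
        have := a.2
        rw [en_of_lt (by omega) (by omega)]
      unfold Wf
      rw [this]

/-- the matrix of values -/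
noncomputable def TM {k m : ℕ} (z : ℤ → (Fin (k + 2) → ℝ)) (I J : Fin m → ℤ) :
    Matrix (Fin m) (Fin m) ℝ := Matrix.of (fun a b => Wf z (win (k + 1) (I a)) (z (J b)))

lemma par_eq {m k : ℕ} (h : (m + k) % 2 = 0) : (-1 : ℝ) ^ (m + 1) = (-1) ^ (k + 1) := by
  rcases Nat.even_or_odd m with hm | hm
  · have hk : Even k := by
      rw [Nat.even_iff] at hm ⊢
      omega
    rw [pow_succ, pow_succ, hm.neg_one_pow, hk.neg_one_pow]
  · have hk : Odd k := by
      rw [Nat.odd_iff] at hm ⊢
      omega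
    rw [pow_succ, pow_succ, hm.neg_one_pow, hk.neg_one_pow]

/-- rotating the rows -/
lemma TM_rows {k n m : ℕ} (hmk : (m + k) % 2 = 0) {z : ℤ → (Fin (k + 2) → ℝ)} (hz : Per k n z)
    {I I' : Fin m → ℤ} (h : Req m n I I') (J : Fin m → ℤ) :
    (TM z I' J).det = (TM z I J).det := by
  have := h (fun i b => Wf z (win (k + 1) i) (z (J b))) (by
    intro j
    funext b
    simp only [Pi.smul_apply, smul_eq_mul]
    rw [Wf_per hz, par_eq hmk])
  exact this

lemma Wf_vec_per {k n : ℕ} {z : ℤ → (Fin (k + 2) → ℝ)} (hz : Per k n z) (f : Fin (k + 1) → ℤ)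
    (j : ℤ) : Wf z f (z (j + n)) = (-1 : ℝ) ^ (k + 1) * Wf z f (z j) := by
  rw [hz]
  unfold Wf
  rw [D1_smul]

/-- rotating the columns -/
lemma TM_cols {k n m : ℕ} (hmk : (m + k) % 2 = 0) {z : ℤ → (Fin (k + 2) → ℝ)} (hz : Per k n z)
    (I : Fin m → ℤ) {J J' : Fin m → ℤ} (h : Req m n J J') :
    (TM z I J').det = (TM z I J).det := by
  have := h (fun j a => Wf z (win (k + 1) (I a)) (z j)) (by
    intro j
    funext b
    simp only [Pi.smul_apply, smul_eq_mul]
    rw [Wf_vec_per hz, par_eq hmk])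
  unfold D at this
  have e : ∀ J : Fin m → ℤ, Matrix.of ((fun j a => Wf z (win (k + 1) (I a)) (z j)) ∘ J) =
      (TM z I J).transpose := by
    intro J
    ext a b
    rfl
  rw [e, e, Matrix.det_transpose, Matrix.det_transpose] at this
  exact this

lemma Wf_zero {k n : ℕ} (hn : k + 2 = n) {z : ℤ → (Fin (k + 2) → ℝ)} (hz : Per k n z)
    {i j : ℤ} (h0 : 0 ≤ j - i) (h1 : j - i ≤ 2 * n - 2) (h2 : j ≠ i + (n - 1)) :
    Wf z (win (k + 1) i) (z j) = 0 := by
  have hself : ∀ j : ℤ, i ≤ j → j ≤ i + k → Wf z (win (k + 1) i) (z j) = 0 := by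
    intro j hj1 hj2
    obtain ⟨e, he⟩ : ∃ e : ℕ, (e : ℤ) = j - i := ⟨(j - i).toNat, by omega⟩
    have := D1_self (z ∘ win (k + 1) i) ⟨e, by omega⟩
    unfold Wf
    have e2 : (z ∘ win (k + 1) i) ⟨e, by omega⟩ = z j := by
      simp only [Function.comp_apply, win]
      congr 1
      omega
    rw [e2] at this
    exact this
  rcases lt_or_gt_of_ne h2 with h | h
  · exact hself j (by omega) (by omega)
  · have h3 := Wf_vec_per hz (win (k + 1) i) (j - n)
    rw [sub_add_cancel, hself (j - n) (by omega) (by omega), mul_zero] at h3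
    exact h3

lemma Wf_pos {k n : ℕ} (hn : k + 2 = n) {z : ℤ → (Fin (k + 2) → ℝ)} (hp : Pos k n z)
    (i : ℤ) : 0 < Wf z (win (k + 1) i) (z (i + (n - 1))) := by
  have h := hp (win (k + 2) i) (win_in (by omega) _)
  rw [← snoc_win] at h
  unfold Wf D1
  have : (i + ((n : ℤ) - 1)) = i + ((k + 1 : ℕ) : ℤ) := by
    push_cast
    omega
  rw [this]
  exact h

lemma base_nonneg {k n m : ℕ} (hn : k + 2 = n) {z : ℤ → (Fin (k + 2) → ℝ)}
    (hz : Per k n z) (hp : Pos k n z) {I J : Fin m → ℤ} (hI : StrictMono I) (hJ : StrictMono J)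
    (hI' : ∀ a, 0 ≤ I a ∧ I a < n) (hJ' : ∀ a, (n : ℤ) - 1 ≤ J a ∧ J a < n - 1 + n) :
    0 ≤ (TM z I J).det := by
  by_cases h : ∃ a, ∀ b, J b ≠ I a + (n - 1)
  · obtain ⟨a, ha⟩ := h
    rw [Matrix.det_eq_zero_of_row_eq_zero a]
    intro b
    have h1 := hI' a
    have h2 := hJ' b
    exact Wf_zero hn hz (by omega) (by omega) (ha b)
  · push Not at h
    have h1 : (fun a => I a + ((n : ℤ) - 1)) = J := by
      have hs : StrictMono (fun a => I a + ((n : ℤ) - 1)) := fun a b hab => by
        have := hI hab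
        show I a + ((n : ℤ) - 1) < I b + ((n : ℤ) - 1)
        linarith
      have hsub : Finset.univ.image (fun a => I a + ((n : ℤ) - 1)) ⊆ Finset.univ.image J := by
        intro x hx
        rw [Finset.mem_image] at hx ⊢
        obtain ⟨a, _, rfl⟩ := hx
        obtain ⟨b, hb⟩ := h a
        exact ⟨b, Finset.mem_univ _, hb⟩
      have hcard : (Finset.univ.image J).card ≤
          (Finset.univ.image (fun a => I a + ((n : ℤ) - 1))).card := by
        rw [Finset.card_image_of_injective _ hJ.injective,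
          Finset.card_image_of_injective _ hs.injective]
      have heq := Finset.eq_of_subset_of_card_le hsub hcard
      apply (StrictMono.range_inj hs hJ).1
      have := congrArg (fun s : Finset ℤ => (s : Set ℤ)) heq
      simpa using this
    have h2 : TM z I J = Matrix.diagonal (fun a => Wf z (win (k + 1) (I a)) (z (J a))) := by
      ext a b
      by_cases hab : a = b
      · subst hab
        rw [Matrix.diagonal_apply_eq]
        rfl
      · rw [Matrix.diagonal_apply_ne _ hab]
        have h3 := hI' a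
        have h4 := hJ' b
        apply Wf_zero hn hz (by omega) (by omega)
        rw [← h1]
        intro h5
        apply hab
        apply hI.injective
        simp only at h5
        linarith
    rw [h2, Matrix.det_diagonal]
    apply Finset.prod_nonneg
    intro a _
    rw [← h1]
    exact (Wf_pos hn hp (I a)).le

lemma base_pos {k n m : ℕ} (hn : k + 2 = n) {z : ℤ → (Fin (k + 2) → ℝ)}
    (hz : Per k n z) (hp : Pos k n z) {I : Fin m → ℤ} (hI : StrictMono I)
    (hI' : ∀ a, 0 ≤ I a ∧ I a < n) :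
    0 < (TM z I (fun a => I a + ((n : ℤ) - 1))).det := by
  have h2 : TM z I (fun a => I a + ((n : ℤ) - 1)) =
      Matrix.diagonal (fun a => Wf z (win (k + 1) (I a)) (z (I a + ((n : ℤ) - 1)))) := by
    ext a b
    by_cases hab : a = b
    · subst hab
      rw [Matrix.diagonal_apply_eq]
      rfl
    · rw [Matrix.diagonal_apply_ne _ hab]
      have h3 := hI' a
      have h4 := hI' b
      show Wf z (win (k + 1) (I a)) (z (I b + ((n : ℤ) - 1))) = 0
      apply Wf_zero hn hz (by omega) (by omega)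
      intro h5
      apply hab
      apply hI.injective
      linarith
  rw [h2, Matrix.det_diagonal]
  apply Finset.prod_pos
  intro a _
  exact Wf_pos hn hp (I a)

lemma Per.shift {k n : ℕ} {z : ℤ → (Fin (k + 2) → ℝ)} (hz : Per k n z) (c : ℤ) :
    Per k n (fun j => z (j + c)) := by
  intro j
  show z (j + n + c) = _
  rw [show j + n + c = (j + c) + n by ring, hz]

lemma In.shift {m n : ℕ} {f : Fin m → ℤ} (hf : In n f) (c : ℤ) : In n (fun a => f a + c) :=
  ⟨fun a b h => by
    have := hf.1 h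
    show f a + c < f b + c
    linarith, fun a b => by
    have := hf.2 a b
    show f a + c < f b + c + n
    linarith⟩

lemma Pos.shift {k n : ℕ} {z : ℤ → (Fin (k + 2) → ℝ)} (hz : Pos k n z) (c : ℤ) :
    Pos k n (fun j => z (j + c)) := fun f hf => hz (fun a => f a + c) (hf.shift c)

lemma Wf_shift {k : ℕ} (z : ℤ → (Fin (k + 2) → ℝ)) (c i : ℤ) (v : Fin (k + 2) → ℝ) :
    Wf (fun j => z (j + c)) (win (k + 1) i) v = Wf z (win (k + 1) (i + c)) v := by
  unfold Wf
  have : (fun j => z (j + c)) ∘ win (k + 1) i = z ∘ win (k + 1) (i + c) := by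
    funext a
    simp only [Function.comp_apply, win]
    congr 1
    ring
  rw [this]

/-- some residue is missed -/
lemma exists_missed {m n : ℕ} (hmn : m < n) (J : Fin m → ℤ) :
    ∃ c : ℤ, ∀ (b : Fin m) (t : ℤ), c ≠ J b + t * n := by
  classical
  by_contra hcon
  push Not at hcon
  -- map residues to indices
  have h1 : ∀ c : Fin n, ∃ b : Fin m, ∃ t : ℤ, ((c : ℕ) : ℤ) = J b + t * n := fun c => hcon _
  choose g hg using h1
  have hinj : Function.Injective g := by
    intro c c' h
    obtain ⟨t, ht⟩ := hg c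
    obtain ⟨t', ht'⟩ := hg c'
    rw [h] at ht
    have h2 : ((c : ℕ) : ℤ) - ((c' : ℕ) : ℤ) = (t - t') * n := by
      rw [ht, ht']
      ring
    have h3 := c.2
    have h4 := c'.2
    apply Fin.ext
    have h5 : t - t' = 0 := by
      rcases lt_trichotomy (t - t') 0 with h6 | h6 | h6
      · exfalso
        have : (t - t') * (n : ℤ) ≤ (-1) * n :=
          mul_le_mul_of_nonneg_right (by omega) (by omega)
        omega
      · exact h6
      · exfalso
        have : 1 * (n : ℤ) ≤ (t - t') * n :=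
          mul_le_mul_of_nonneg_right (by omega) (by omega)
        omega
    rw [h5, zero_mul] at h2
    omega
  have := Fintype.card_le_of_injective g hinj
  simp at this
  omega

lemma avoid {m N : ℕ} {J g : Fin m → ℤ} {c : ℤ}
    (hc : ∀ (b : Fin m) (t : ℤ), c ≠ J b + t * (N + 1 : ℕ))
    (hg : ∀ a, ∃ (b : Fin m) (t : ℤ), g a = (J b + (-(c + 1))) + t * (N + 1 : ℕ))
    (hg' : ∀ a, 0 ≤ g a ∧ g a < 0 + (N + 1 : ℕ)) : ∀ a, 0 ≤ g a ∧ g a < N := by
  intro a
  have h1 := hg' a
  refine ⟨h1.1, ?_⟩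
  obtain ⟨b, t, hb⟩ := hg a
  by_contra hcon
  have h2 : g a = N := by push_cast at h1; omega
  rw [h2] at hb
  apply hc b (t - 1)
  push_cast at hb ⊢
  linarith

/-- **T-minors are nonnegative** -/
theorem TM_nonneg {k n m : ℕ} (hmk : (m + k) % 2 = 0) (hm : m ≤ k + 2) (hn : k + 2 ≤ n)
    {z : ℤ → (Fin (k + 2) → ℝ)} (hz : Per k n z) (hp : Pos k n z) {I J : Fin m → ℤ}
    (hI : In n I) (hJ : In n J) : 0 ≤ (TM z I J).det := by
  induction n, hn using Nat.le_induction generalizing z I J with
  | base =>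
    obtain ⟨I', hI1, hI2, hI3, _⟩ := normalize hI 0
    obtain ⟨J', hJ1, hJ2, hJ3, _⟩ := normalize hJ (((k + 2 : ℕ) : ℤ) - 1)
    rw [← TM_rows hmk hz hI3, ← TM_cols hmk hz I' hJ3]
    exact base_nonneg rfl hz hp hI1.1 hJ1.1 (fun a => by have := hI2 a; omega)
      (fun a => hJ2 a)
  | succ N hN ih =>
    obtain ⟨c, hc⟩ := exists_missed (by omega : m < N + 1) J
    have hzs := hz.shift (c + 1)
    have hps := hp.shift (c + 1)
    set zs : ℤ → (Fin (k + 2) → ℝ) := fun j => z (j + (c + 1)) with hzsd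
    have e1 : TM z I J = TM zs (fun a => I a + (-(c + 1))) (fun a => J a + (-(c + 1))) := by
      ext a b
      show Wf z (win (k + 1) (I a)) (z (J b)) =
        Wf zs (win (k + 1) (I a + (-(c + 1)))) (z (J b + (-(c + 1)) + (c + 1)))
      rw [Wf_shift]
      congr 2
      · ring_nf
      · ring_nf
    rw [e1]
    obtain ⟨I', hI1, hI2, hI3, _⟩ := normalize (hI.shift (-(c + 1))) 0
    obtain ⟨J', hJ1, hJ2, hJ3, hJ4⟩ := normalize (hJ.shift (-(c + 1))) 0
    have hJ5 := avoid hc hJ4 hJ2
    rw [← TM_rows hmk hzs hI3, ← TM_cols hmk hzs I' hJ3]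
    obtain ⟨α, β, hα, hα0, hβ, hrel⟩ := exists_rel hN hps
    have hper' : Per k N (fun j => zs (en N j)) := Per.del (by omega) hzs
    have hpos' : Pos k N (fun j => zs (en N j)) := Pos.del (by omega) hps
    have hJz : ∀ b, zs (J' b) = (fun j => zs (en N j)) (J' b) := by
      intro b
      show zs (J' b) = zs (en N (J' b))
      rw [en_of_lt (hJ5 b).1 (hJ5 b).2]
    have := expand_nonneg (m := m) (N := N) (by omega)
      (r := fun i b => Wf zs (win (k + 1) i) (zs (J' b)))
      (r' := fun i b => Wf (fun j => zs (en N j)) (win (k + 1) i) (zs (J' b)))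
      (α := α) (β := β)
      (by
        intro i h1 h2
        funext b
        simp only [Pi.add_apply, Pi.smul_apply, smul_eq_mul]
        exact hrel i h1 h2 _)
      hα hα0 (fun i h1 h2 => (hβ i h1 h2).le)
      (by
        intro j
        funext b
        simp only [Pi.smul_apply, smul_eq_mul]
        rw [Wf_per hper', par_eq hmk])
      (by
        intro f hf
        have h3 := ih hper' hpos' hf (in_of_mem (n := N) (c := 0) hJ1.1
          (fun a => by have := hJ5 a; omega))
        have h4 : TM (fun j => zs (en N j)) f J' =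
            Matrix.of ((fun i b => Wf (fun j => zs (en N j)) (win (k + 1) i) (zs (J' b))) ∘ f) := by
          ext a b
          show Wf (fun j => zs (en N j)) (win (k + 1) (f a)) ((fun j => zs (en N j)) (J' b)) = _
          rw [← hJz]
          rfl
        rw [h4] at h3
        exact h3)
      hI1.1 (fun a => by have := hI2 a; push_cast at this; omega)
    exact this

/-- the matrix of values is a product -/
lemma TM_full {k : ℕ} (z : ℤ → (Fin (k + 2) → ℝ)) (I J : Fin (k + 2) → ℤ) :
    (TM z I J).det = D (Wv z ∘ I) * D (z ∘ J) := by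
  have : TM z I J = Matrix.of (Wv z ∘ I) * (Matrix.of (z ∘ J)).transpose := by
    ext a b
    rw [Matrix.mul_apply]
    show Wf z (win (k + 1) (I a)) (z (J b)) = _
    rw [Wf_eq_sum]
    rfl
  rw [this, Matrix.det_mul, Matrix.det_transpose]
  rfl

/-- **W is positive** -/
theorem Wv_pos {k n : ℕ} (hn : k + 2 ≤ n) {z : ℤ → (Fin (k + 2) → ℝ)} (hz : Per k n z)
    (hp : Pos k n z) : Pos k n (Wv z) := by
  induction n, hn using Nat.le_induction generalizing z with
  | base =>
    intro I hI
    obtain ⟨I', hI1, hI2, hI3, _⟩ := normalize hI 0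
    have h1 : D (Wv z ∘ I') = D (Wv z ∘ I) := hI3 (Wv z) (by
      intro j
      rw [par_eq (by omega : (k + 2 + k) % 2 = 0)]
      exact Wv_per hz j)
    rw [← h1]
    have h2 := base_pos rfl hz hp hI1.1 (fun a => by have := hI2 a; omega)
    rw [TM_full] at h2
    have h3 : 0 < D (z ∘ (fun a => I' a + (((k + 2 : ℕ) : ℤ) - 1))) := hp _ (hI1.shift _)
    exact (pos_iff_pos_of_mul_pos h2).2 h3
  | succ N hN ih =>
    intro I hI
    obtain ⟨c, hc⟩ := exists_missed (by omega : k + 2 < N + 1) I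
    have hzs := hz.shift (c + 1)
    have hps := hp.shift (c + 1)
    set zs : ℤ → (Fin (k + 2) → ℝ) := fun j => z (j + (c + 1)) with hzsd
    have e1 : Wv z ∘ I = Wv zs ∘ (fun a => I a + (-(c + 1))) := by
      funext a b
      show Wf z (win (k + 1) (I a)) _ = Wf zs (win (k + 1) (I a + (-(c + 1)))) _
      rw [Wf_shift]
      congr 2
      ring_nf
    rw [e1]
    obtain ⟨I', hI1, hI2, hI3, hI4⟩ := normalize (hI.shift (-(c + 1))) 0
    have hI5 := avoid hc hI4 hI2
    have h1 : D (Wv zs ∘ I') = D (Wv zs ∘ (fun a => I a + (-(c + 1)))) := hI3 (Wv zs) (by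
      intro j
      rw [par_eq (by omega : (k + 2 + k) % 2 = 0)]
      exact Wv_per hzs j)
    rw [← h1]
    obtain ⟨α, β, hα, hα0, hβ, hrel⟩ := exists_rel hN hps
    have hper' : Per k N (fun j => zs (en N j)) := Per.del (by omega) hzs
    have hpos' : Pos k N (fun j => zs (en N j)) := Pos.del (by omega) hps
    exact expand_pos (m := k + 2) (N := N) (by omega)
      (r := Wv zs) (r' := Wv (fun j => zs (en N j))) (α := α) (β := β)
      (by
        intro i h1 h2
        funext b
        simp only [Pi.add_apply, Pi.smul_apply, smul_eq_mul]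
        exact hrel i h1 h2 _)
      hα hα0 hβ
      (by
        intro j
        rw [par_eq (by omega : (k + 2 + k) % 2 = 0)]
        exact Wv_per hper' j)
      (fun f hf => ih hper' hpos' f hf)
      hI1.1 hI5

end Pool.Agent.AmpDual
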