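import Pool.Agent.AmpDual.Cyc

set_option autoImplicit false

/-! The total turning of the window vectors. -/

namespace Pool.Agent.AmpDual

/-- the sequence of window vectors -/
noncomputable def xs {k : ℕ} (z : ℤ → (Fin (k + 2) → ℝ)) (z₁ z₂ : Fin (k + 2) → ℝ) (j : ℕ) :
    ℝ × ℝ := X z z₁ z₂ (win (k + 1) (j : ℤ))

lemma win_last {k : ℕ} (j : ℤ) : win (k + 2) j ∘ (Fin.last (k + 1)).succAbove = win (k + 1) j := by
  funext i
  simp [win]

lemma win_zero {k : ℕ} (j : ℤ) : win (k + 2) j ∘ (0 : Fin (k + 2)).succAbove =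
    win (k + 1) (j + 1) := by
  funext i
  simp [win]
  ring

lemma xs_turn {k n : ℕ} (hn : k + 2 ≤ n) {z : ℤ → (Fin (k + 2) → ℝ)} (hp : Pos k n z)
    {z₁ z₂ : Fin (k + 2) → ℝ} (hq : QPos k n z z₁ z₂) (j : ℕ) :
    0 < det2 (xs z z₁ z₂ j) (xs z z₁ z₂ (j + 1)) := by
  have h := X_exchange hp hq (win_in hn (j : ℤ)) (p := 0) (q := Fin.last (k + 1))
    (Fin.last_pos)
  rw [win_last, win_zero] at h
  unfold xs
  push_cast
  exact h

section step

variable {k N : ℕ} (hN : k + 1 ≤ N) {z : ℤ → (Fin (k + 2) → ℝ)} (hp : Pos k (N + 1) z)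
  {z₁ z₂ : Fin (k + 2) → ℝ} (hq : QPos k (N + 1) z z₁ z₂)

include hN in
lemma xs_del_lt (j : ℕ) (hj : j ≤ N - (k + 1)) :
    xs (fun i => z (en N i)) z₁ z₂ j = xs z z₁ z₂ j := by
  unfold xs X Wf
  have : (fun i => z (en N i)) ∘ win (k + 1) (j : ℤ) = z ∘ win (k + 1) (j : ℤ) := by
    funext i
    simp only [Function.comp_apply, win]
    have := i.2
    rw [en_of_lt (by omega) (by omega)]
  rw [this]

include hN in
lemma xs_del_end : xs (fun i => z (en N i)) z₁ z₂ N = xs z z₁ z₂ (N + 1) := by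
  unfold xs X Wf
  have : (fun i => z (en N i)) ∘ win (k + 1) (N : ℤ) = z ∘ win (k + 1) ((N + 1 : ℕ) : ℤ) := by
    funext i
    simp only [Function.comp_apply, win]
    have := i.2
    rw [en_of_ge (by omega) (by omega)]
    congr 1
    push_cast
    ring
  rw [this]

include hN in
lemma xs_del_mid (j : ℕ) (h1 : N - (k + 1) < j) (h2 : j ≤ N - 1) :
    xs (fun i => z (en N i)) z₁ z₂ j =
      X z z₁ z₂ (win (k + 2) (j : ℤ) ∘ (⟨N - j, by omega⟩ : Fin (k + 2)).succAbove) := by
  unfold xs X Wf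
  have : (fun i => z (en N i)) ∘ win (k + 1) (j : ℤ) =
      z ∘ (win (k + 2) (j : ℤ) ∘ (⟨N - j, by omega⟩ : Fin (k + 2)).succAbove) := by
    funext i
    simp only [Function.comp_apply, win]
    have hi := i.2
    congr 1
    rcases Nat.lt_or_ge (i : ℕ) (N - j) with h | h
    · rw [Fin.succAbove_of_castSucc_lt _ _ (by
        rw [Fin.lt_def]
        simpa using h)]
      rw [en_of_lt (by omega) (by omega)]
      simp
    · rw [Fin.succAbove_of_le_castSucc _ _ (by
        rw [Fin.le_def]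
        simpa using h)]
      rw [en_of_ge (by omega) (by omega)]
      simp
      ring
  rw [this]

include hN hp hq in
lemma step_interlace (hb : ∀ j, N - (k + 1) ≤ j → j ≤ N - 1 →
      Turn (xs (fun i => z (en N i)) z₁ z₂) j) :
    ∑ j ∈ Finset.range N, cr (xs z z₁ z₂ 0) (xs (fun i => z (en N i)) z₁ z₂ j)
        (xs (fun i => z (en N i)) z₁ z₂ (j + 1)) =
      ∑ j ∈ Finset.range (N + 1), cr (xs z z₁ z₂ 0) (xs z z₁ z₂ j) (xs z z₁ z₂ (j + 1)) := by
  have hturn := xs_turn (by omega : k + 2 ≤ N + 1) hp hq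
  have hu : xs z z₁ z₂ 0 ≠ 0 := (ne_zero_of_det2 (hturn 0)).1
  have hN1 : N - 1 + 1 = N := by omega
  have hN2 : N - 1 + 2 = N + 1 := by omega
  have := interlace hu (a := xs z z₁ z₂) (b := xs (fun i => z (en N i)) z₁ z₂)
    (p := N - (k + 1)) (q := N - 1) (by omega) (fun j hj => xs_del_lt hN j hj)
    (fun j _ => hturn j)
    (by
      intro j h1 h2
      rw [xs_del_mid hN j h1 h2]
      have h := X_exchange hp hq (win_in (by omega : k + 2 ≤ N + 1) (j : ℤ))
        (p := ⟨N - j, by omega⟩) (q := Fin.last (k + 1)) (by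
          rw [Fin.lt_def]
          simp
          omega)
      rw [win_last] at h
      exact h)
    (by
      intro j h1 h2
      rw [xs_del_mid hN j h1 h2]
      have h := X_exchange hp hq (win_in (by omega : k + 2 ≤ N + 1) (j : ℤ))
        (q := ⟨N - j, by omega⟩) (p := 0) (by
          rw [Fin.lt_def]
          simp
          omega)
      rw [win_zero] at h
      have e : xs z z₁ z₂ (j + 1) = X z z₁ z₂ (win (k + 1) ((j : ℤ) + 1)) := by
        unfold xs
        push_cast
        rfl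
      rw [e]
      exact h)
    (by
      rw [hN1, hN2]
      exact xs_del_end hN)
    hb
  rw [hN1, hN2] at this
  exact this

end step

lemma In.mono {m n n' : ℕ} (h : n ≤ n') {f : Fin m → ℤ} (hf : In n f) : In n' f :=
  ⟨hf.1, fun a b => by have := hf.2 a b; omega⟩

/-- **Winding theorem**: the total number of crossings is `k + 1`. -/
theorem cross_total {k n : ℕ} (hn : k + 2 ≤ n) {z : ℤ → (Fin (k + 2) → ℝ)} (hz : Per k n z)
    (hp : Pos k n z) {z₁ z₂ : Fin (k + 2) → ℝ} (hq : QPos k n z z₁ z₂) :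
    ∑ j ∈ Finset.range n, cr (xs z z₁ z₂ 0) (xs z z₁ z₂ j) (xs z z₁ z₂ (j + 1)) = k + 1 := by
  induction n, hn using Nat.le_induction generalizing z with
  | base =>
    have hb : ∀ j : ℕ, xs (fun i => z (en (k + 1) i)) z₁ z₂ (j + 1) =
        - xs (fun i => z (en (k + 1) i)) z₁ z₂ j := by
      intro j
      have hper : Per k (k + 1) (fun i => z (en (k + 1) i)) := Per.del (by omega) hz
      unfold xs X
      push_cast
      rw [Wf_win_full hper, Wf_win_full hper]
      rfl
    have h := step_interlace (le_refl (k + 1)) hp hq (fun j _ _ => Or.inr (hb j))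
    rw [← h]
    have hturn := xs_turn (le_refl (k + 2)) hp hq
    have hu : xs z z₁ z₂ 0 ≠ 0 := (ne_zero_of_det2 (hturn 0)).1
    have hb0 : xs (fun i => z (en (k + 1) i)) z₁ z₂ 0 = xs z z₁ z₂ 0 :=
      xs_del_lt (le_refl (k + 1)) 0 (Nat.zero_le _)
    have hne : ∀ j : ℕ, xs (fun i => z (en (k + 1) i)) z₁ z₂ j ≠ 0 := by
      intro j
      induction j with
      | zero => rw [hb0]; exact hu
      | succ j ih => rw [hb j]; exact neg_ne_zero.2 ih
    have h1 : ∀ j ∈ Finset.range (k + 1), cr (xs z z₁ z₂ 0)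
        (xs (fun i => z (en (k + 1) i)) z₁ z₂ j)
        (xs (fun i => z (en (k + 1) i)) z₁ z₂ (j + 1)) = 1 := by
      intro j _
      rw [hb j]
      unfold cr
      rw [if_neg]
      rw [hp_neg hu (hne j)]
      tauto
    rw [Finset.sum_congr rfl h1]
    simp
  | succ N hN ih =>
    have hN1 : k + 1 ≤ N := by omega
    have hper := Per.del (by omega : 0 < N) hz
    have hpos := Pos.del (by omega : 0 < N) hp
    have hqpos := QPos.del (by omega : 0 < N) hq
    have h := step_interlace hN1 hp hq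
      (fun j _ _ => Or.inl (xs_turn hN hpos hqpos j))
    rw [← h]
    have hb0 : xs (fun i => z (en N i)) z₁ z₂ 0 = xs z z₁ z₂ 0 :=
      xs_del_lt hN1 0 (Nat.zero_le _)
    rw [← hb0]
    exact ih hper hpos hqpos

end Pool.Agent.AmpDual
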