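import Pool.Agent.AmpDual.Norm
import Pool.Agent.AmpDual.Flip
import Pool.Agent.AmpDual.Bridge
import Pool.Agent.AmpDual.Ker
import Pool.Agent.AmpDual.TMin
import Pool.Agent.AmpDual.Total

set_option autoImplicit false

/-! Definitions: Grassmannian, amplituhedron, extendable dual amplituhedron, twist, flip region. -/

namespace Pool.Agent.AmpDual

open Matrix

/-! ### the periodic extension -/

/-- periodic extension -/
noncomputable def zz {k n : ℕ} (Z : Matrix (Fin (k + 2)) (Fin n) ℝ) (j : ℤ) : Fin (k + 2) → ℝ :=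
  fun c => if h : (j % n).toNat < n then
    ((-1 : ℝ) ^ (k + 1)) ^ (j / (n : ℤ)) * Z c ⟨(j % n).toNat, h⟩ else 0

lemma zz_per {k n : ℕ} (hn : 0 < n) (Z : Matrix (Fin (k + 2)) (Fin n) ℝ) : Per k n (zz Z) := by
  intro j
  have h1 : (j + n) % (n : ℤ) = j % n := Int.add_emod_right j n
  have h2 : (j + n) / (n : ℤ) = j / n + 1 := by
    rw [Int.add_ediv_of_dvd_right (dvd_refl _), Int.ediv_self (by omega)]
  funext c
  simp only [zz, h1, h2, Pi.smul_apply, smul_eq_mul]
  split_ifs with h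
  · rw [zpow_add_one₀ (by
      rcases neg_one_pow_eq_or ℝ (k + 1) with h3 | h3 <;> rw [h3] <;> norm_num)]
    ring
  · simp

lemma zz_cyc {k n : ℕ} (Z : Matrix (Fin (k + 2)) (Fin n) ℝ) (m : ℕ) (hm : m < 2 * n) :
    zz Z (m : ℤ) = colCyc Z m := by
  unfold colCyc
  by_cases h : m < n
  · rw [if_pos h]
    funext c
    unfold zz col
    have h1 : ((m : ℤ) % n).toNat = m := by
      rw [Int.emod_eq_of_lt (by omega) (by omega)]
      simp
    have h2 : (m : ℤ) / n = 0 := Int.ediv_eq_zero_of_lt (by omega) (by omega)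
    simp only [h1, h2, h, dite_true, zpow_zero, one_mul]
  · rw [if_neg h]
    funext c
    simp only [Pi.smul_apply, smul_eq_mul]
    unfold zz col
    have h3 : (m : ℤ) = ((m - n : ℕ) : ℤ) + n := by omega
    have h1 : ((m : ℤ) % n).toNat = m - n := by
      rw [h3, Int.add_emod_right, Int.emod_eq_of_lt (by omega) (by omega)]
      simp
    have h2 : (m : ℤ) / n = 1 := by
      rw [h3, Int.add_ediv_of_dvd_right (dvd_refl _), Int.ediv_self (by omega),
        Int.ediv_eq_zero_of_lt (by omega) (by omega), zero_add]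
    have h4 : m - n < n := by omega
    simp only [h1, h2, h4, dite_true, zpow_one]

lemma zz_col {k n : ℕ} (Z : Matrix (Fin (k + 2)) (Fin n) ℝ) {j : ℕ} (hj : j < n) :
    zz Z (j : ℤ) = col Z j := by
  rw [zz_cyc Z j (by omega)]
  unfold colCyc
  rw [if_pos hj]

lemma zz_apply {k n : ℕ} (Z : Matrix (Fin (k + 2)) (Fin n) ℝ) (j : Fin n) (c : Fin (k + 2)) :
    zz Z (((j : ℕ) : ℤ)) c = Z c j := by
  rw [zz_col Z j.2]
  unfold col
  rw [dif_pos j.2]

lemma twist_apply {k n : ℕ} (hn : k + 2 ≤ n) (Z : Matrix (Fin (k + 2)) (Fin n) ℝ) (i : Fin n)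
    (c : Fin (k + 2)) : twist Z c i = Wv (zz Z) (((i : ℕ) : ℤ)) c := by
  unfold twist Wv Wf D1 D
  rw [Matrix.of_apply]
  congr 3
  funext a
  simp only [Function.comp_apply, win]
  have h1 := i.2
  have h2 := a.2
  have h3 := zz_cyc Z ((i : ℕ) + (a : ℕ)) (by omega)
  push_cast at h3
  exact h3.symm

lemma twist_col {k n : ℕ} (hn : k + 2 ≤ n) (Z : Matrix (Fin (k + 2)) (Fin n) ℝ) {i : ℕ}
    (hi : i < n) : col (twist Z) i = Wv (zz Z) (i : ℤ) := by
  funext c
  unfold col
  rw [dif_pos hi, twist_apply hn]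

/-- cast of an index tuple -/
def castT {m n : ℕ} (J : Fin m → Fin n) : Fin m → ℤ := fun a => (((J a : ℕ)) : ℤ)

lemma castT_in {m n : ℕ} {J : Fin m → Fin n} (hJ : StrictMono J) : In n (castT J) := by
  refine ⟨fun a b h => ?_, fun a b => ?_⟩
  · have : (J a : ℕ) < J b := hJ h
    unfold castT
    omega
  · have := (J a).2
    unfold castT
    omega

lemma exists_castT {m n : ℕ} {f : Fin m → ℤ} (hf : StrictMono f)
    (h : ∀ a, 0 ≤ f a ∧ f a < 0 + n) : ∃ J : Fin m → Fin n, StrictMono J ∧ castT J = f := by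
  refine ⟨fun a => ⟨(f a).toNat, by have := h a; omega⟩, ?_, ?_⟩
  · intro a b hab
    have h1 := hf hab
    have h2 := h a
    have h3 := h b
    rw [Fin.lt_def]
    show (f a).toNat < (f b).toNat
    omega
  · funext a
    have h2 := h a
    unfold castT
    show (((f a).toNat : ℕ) : ℤ) = f a
    omega

lemma D_zz {k n : ℕ} (Z : Matrix (Fin (k + 2)) (Fin n) ℝ) (J : Fin (k + 2) → Fin n) :
    D (zz Z ∘ castT J) = (Z.submatrix id J).det := by
  unfold D
  rw [← Matrix.det_transpose]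
  congr 1
  ext a b
  simp only [Matrix.transpose_apply, Matrix.of_apply, Function.comp_apply, castT, zz_apply]
  rfl

lemma pos_zz {k n : ℕ} (hn : k + 2 ≤ n) {Z : Matrix (Fin (k + 2)) (Fin n) ℝ}
    (hZ : MaxMinorsPos Z) : Pos k n (zz Z) := by
  intro f hf
  obtain ⟨g, hg1, hg2, hg3, _⟩ := normalize hf 0
  have h1 : D (zz Z ∘ g) = D (zz Z ∘ f) := hg3 (zz Z) (by
    intro j
    rw [par_eq (by omega : (k + 2 + k) % 2 = 0)]
    exact zz_per (by omega) Z j)
  rw [← h1]
  obtain ⟨J, hJ, rfl⟩ := exists_castT hg1.1 hg2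
  rw [D_zz]
  exact hZ J hJ

theorem twist_pos {k n : ℕ} (hn : k + 2 ≤ n) {Z : Matrix (Fin (k + 2)) (Fin n) ℝ}
    (hZ : MaxMinorsPos Z) : MaxMinorsPos (twist Z) := by
  intro J hJ
  have h := Wv_pos hn (zz_per (by omega) Z) (pos_zz hn hZ) (castT J) (castT_in hJ)
  have e : D (Wv (zz Z) ∘ castT J) = ((twist Z).submatrix id J).det := by
    unfold D
    rw [← Matrix.det_transpose]
    congr 1
    ext a b
    simp only [Matrix.transpose_apply, Matrix.of_apply, Function.comp_apply, castT,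
      Matrix.submatrix_apply, id_eq]
    rw [← twist_apply hn]
  rwa [e] at h

/-- the matrix `T` -/
lemma T_nonneg {k n : ℕ} (hn : k + 2 ≤ n) {Z : Matrix (Fin (k + 2)) (Fin n) ℝ}
    (hZ : MaxMinorsPos Z) {I J : Fin k → Fin n} (hI : StrictMono I) (hJ : StrictMono J) :
    0 ≤ (((twist Z)ᵀ * Z).submatrix I J).det := by
  have h := TM_nonneg (m := k) (by omega) (by omega) hn (zz_per (by omega) Z) (pos_zz hn hZ)
    (castT_in hI) (castT_in hJ)
  have e : TM (zz Z) (castT I) (castT J) = ((twist Z)ᵀ * Z).submatrix I J := by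
    ext a b
    rw [Matrix.submatrix_apply, Matrix.mul_apply]
    show Wf (zz Z) (win (k + 1) (castT I a)) (zz Z (castT J b)) = _
    rw [Wf_eq_sum]
    simp only [castT]
    apply Finset.sum_congr rfl
    intro c _
    rw [← twist_apply hn, zz_apply]
    rfl
  rwa [e] at h

end Pool.Agent.AmpDual
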