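import Mathlib

set_option autoImplicit false

/-! Exchange lemma for determinants (Pluecker relation with one repeated block). -/

namespace Pool.Agent.AmpDual

open Matrix

/-- determinant of `m` vectors in `ℝ^m` -/
noncomputable def D {m : ℕ} (v : Fin m → (Fin m → ℝ)) : ℝ := Matrix.det (Matrix.of v)

/-- append one vector at the end -/
noncomputable def D1 {m : ℕ} (u : Fin m → (Fin (m + 1) → ℝ)) (w : Fin (m + 1) → ℝ) : ℝ :=
  D (Fin.snoc (α := fun _ => Fin (m + 1) → ℝ) u w)

/-- append two vectors at the end -/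
noncomputable def D2 {m : ℕ} (u : Fin m → (Fin (m + 2) → ℝ)) (w w' : Fin (m + 2) → ℝ) : ℝ :=
  D1 (Fin.snoc (α := fun _ => Fin (m + 2) → ℝ) u w) w'

lemma D1_expand {m : ℕ} (u : Fin m → (Fin (m + 1) → ℝ)) (w : Fin (m + 1) → ℝ) :
    D1 u w = ∑ j : Fin (m + 1), (-1) ^ (m + (j : ℕ)) * w j *
      Matrix.det ((Matrix.of u).submatrix id j.succAbove) := by
  unfold D1 D
  rw [Matrix.det_succ_row _ (Fin.last m)]
  apply Finset.sum_congr rfl
  intro j _
  have h1 : (Matrix.of (Fin.snoc (α := fun _ => Fin (m + 1) → ℝ) u w)) (Fin.last m) j = w j := by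
    simp
  have h2 : (Matrix.of (Fin.snoc (α := fun _ => Fin (m + 1) → ℝ) u w)).submatrix
      (Fin.last m).succAbove j.succAbove = (Matrix.of u).submatrix id j.succAbove := by
    ext a b
    simp [Matrix.submatrix_apply]
  rw [h1, h2]
  simp

/-- moving the vector number `q` to the end -/
lemma D1_remove {m : ℕ} (v : Fin (m + 1) → (Fin (m + 1) → ℝ)) (q : Fin (m + 1)) :
    D1 (v ∘ q.succAbove) (v q) = (-1) ^ (m + (q : ℕ)) * D v := by
  rw [D1_expand]
  unfold D
  rw [Matrix.det_succ_row _ q, Finset.mul_sum]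
  apply Finset.sum_congr rfl
  intro j _
  have h2 : (Matrix.of v).submatrix q.succAbove j.succAbove =
      (Matrix.of (v ∘ q.succAbove)).submatrix id j.succAbove := by
    ext a b
    simp [Matrix.submatrix_apply]
  rw [h2]
  have h3 : (-1 : ℝ) ^ (m + (q : ℕ)) * ((-1) ^ ((q : ℕ) + (j : ℕ))) = (-1) ^ (m + (j : ℕ)) := by
    rw [← pow_add]
    have : m + (q : ℕ) + ((q : ℕ) + (j : ℕ)) = (m + (j : ℕ)) + 2 * (q : ℕ) := by ring
    rw [this, pow_add, pow_mul]
    simp
  rw [← h3]
  simp only [Matrix.of_apply]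
  ring

lemma D1_add {m : ℕ} (u : Fin m → (Fin (m + 1) → ℝ)) (w w' : Fin (m + 1) → ℝ) :
    D1 u (w + w') = D1 u w + D1 u w' := by
  rw [D1_expand, D1_expand, D1_expand, ← Finset.sum_add_distrib]
  apply Finset.sum_congr rfl
  intro j _
  simp only [Pi.add_apply]
  ring

lemma D1_smul {m : ℕ} (u : Fin m → (Fin (m + 1) → ℝ)) (c : ℝ) (w : Fin (m + 1) → ℝ) :
    D1 u (c • w) = c * D1 u w := by
  rw [D1_expand, D1_expand, Finset.mul_sum]
  apply Finset.sum_congr rfl
  intro j _
  simp only [Pi.smul_apply, smul_eq_mul]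
  ring

/-- `D1 u` as a linear map -/
noncomputable def D1L {m : ℕ} (u : Fin m → (Fin (m + 1) → ℝ)) : (Fin (m + 1) → ℝ) →ₗ[ℝ] ℝ where
  toFun := D1 u
  map_add' := D1_add u
  map_smul' := by intro c w; simp [D1_smul]

lemma D_eq_zero_of_eq {m : ℕ} {v : Fin m → (Fin m → ℝ)} {i j : Fin m} (hij : i ≠ j)
    (h : v i = v j) : D v = 0 := by
  unfold D
  exact Matrix.det_zero_of_row_eq hij h

lemma D1_self {m : ℕ} (u : Fin m → (Fin (m + 1) → ℝ)) (i : Fin m) : D1 u (u i) = 0 := by
  unfold D1
  apply D_eq_zero_of_eq (i := i.castSucc) (j := Fin.last m) (Fin.castSucc_lt_last i).ne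
  simp

lemma D2_self {m : ℕ} (u : Fin m → (Fin (m + 2) → ℝ)) (w : Fin (m + 2) → ℝ) :
    D2 u w w = 0 := by
  have := D1_self (Fin.snoc (α := fun _ => Fin (m + 2) → ℝ) u w) (Fin.last m)
  unfold D2
  simpa using this

lemma D2_add_right {m : ℕ} (u : Fin m → (Fin (m + 2) → ℝ)) (w a b : Fin (m + 2) → ℝ) :
    D2 u w (a + b) = D2 u w a + D2 u w b := D1_add _ _ _

lemma D2_smul_right {m : ℕ} (u : Fin m → (Fin (m + 2) → ℝ)) (c : ℝ) (w a : Fin (m + 2) → ℝ) :
    D2 u w (c • a) = c * D2 u w a := D1_smul _ _ _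

/-- exchanging the last two vectors -/
lemma D2_swap {m : ℕ} (u : Fin m → (Fin (m + 2) → ℝ)) (w w' : Fin (m + 2) → ℝ) :
    D2 u w w' = - D2 u w' w := by
  unfold D2 D1 D
  set A : Matrix (Fin (m + 2)) (Fin (m + 2)) ℝ := Matrix.of
    (Fin.snoc (α := fun _ => Fin (m + 2) → ℝ)
      (Fin.snoc (α := fun _ => Fin (m + 2) → ℝ) u w') w) with hA
  have h := Matrix.det_permute (Equiv.swap (Fin.last (m + 1)) (Fin.last m).castSucc) A
  have hne : Fin.last (m + 1) ≠ (Fin.last m).castSucc := (Fin.castSucc_lt_last _).ne'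
  rw [Equiv.Perm.sign_swap hne] at h
  simp only [Units.val_neg, Units.val_one, Int.cast_neg, Int.cast_one, neg_mul, one_mul] at h
  rw [← h]
  congr 1
  ext a b
  rw [Matrix.submatrix_apply]
  induction a using Fin.lastCases with
  | last => simp [hA]
  | cast a =>
    induction a using Fin.lastCases with
    | last => simp [hA]
    | cast a =>
      have h1 : Equiv.swap (Fin.last (m + 1)) (Fin.last m).castSucc a.castSucc.castSucc =
          a.castSucc.castSucc := by
        apply Equiv.swap_apply_of_ne_of_ne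
        · exact (Fin.castSucc_lt_last _).ne
        · intro h
          have := Fin.castSucc_injective _ h
          exact (Fin.castSucc_lt_last a).ne this
      rw [h1]
      simp [hA]

lemma D2_add_left {m : ℕ} (u : Fin m → (Fin (m + 2) → ℝ)) (w a b : Fin (m + 2) → ℝ) :
    D2 u (a + b) w = D2 u a w + D2 u b w := by
  rw [D2_swap, D2_add_right, D2_swap u w a, D2_swap u w b]
  ring

lemma D2_smul_left {m : ℕ} (u : Fin m → (Fin (m + 2) → ℝ)) (c : ℝ) (w a : Fin (m + 2) → ℝ) :
    D2 u (c • a) w = c * D2 u a w := by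
  rw [D2_swap, D2_smul_right, D2_swap u w a]
  ring

/-- `D2 u` as a bilinear map -/
noncomputable def D2L {m : ℕ} (u : Fin m → (Fin (m + 2) → ℝ)) :
    (Fin (m + 2) → ℝ) →ₗ[ℝ] (Fin (m + 2) → ℝ) →ₗ[ℝ] ℝ :=
  LinearMap.mk₂ ℝ (D2 u) (fun a b w => D2_add_left u w a b) (fun c a w => D2_smul_left u c w a)
    (fun a b c => D2_add_right u a b c) (fun c a b => D2_smul_right u c a b)

lemma D2_self_left {m : ℕ} (u : Fin m → (Fin (m + 2) → ℝ)) (i : Fin m) (w : Fin (m + 2) → ℝ) :
    D2 u (u i) w = 0 := by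
  rw [D2_swap]
  have := D1_self (Fin.snoc (α := fun _ => Fin (m + 2) → ℝ) u w) i.castSucc
  unfold D2
  simp at this
  rw [this, neg_zero]

lemma D2_self_right {m : ℕ} (u : Fin m → (Fin (m + 2) → ℝ)) (i : Fin m) (w : Fin (m + 2) → ℝ) :
    D2 u w (u i) = 0 := by
  rw [D2_swap, D2_self_left, neg_zero]

/-- the vectors `v` without number `q` and `p` -/
lemma D2_remove {m : ℕ} (v : Fin (m + 2) → (Fin (m + 2) → ℝ)) (q : Fin (m + 2)) (p : Fin (m + 1)) :
    D2 (v ∘ q.succAbove ∘ p.succAbove) (v (q.succAbove p)) (v q) =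
      - ((-1) ^ ((p : ℕ) + (q : ℕ)) * D v) := by
  -- first move `v q` to the end, then `v (q.succAbove p)`
  set v' : Fin (m + 2) → (Fin (m + 2) → ℝ) :=
    Fin.snoc (α := fun _ => Fin (m + 2) → ℝ) (v ∘ q.succAbove) (v q) with hv'
  have h1 : D v' = (-1) ^ (m + 1 + (q : ℕ)) * D v := D1_remove v q
  have h2 := D1_remove v' p.castSucc
  have h3 : v' ∘ p.castSucc.succAbove = Fin.snoc (α := fun _ => Fin (m + 2) → ℝ)
      (v ∘ q.succAbove ∘ p.succAbove) (v q) := by
    funext a
    induction a using Fin.lastCases with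
    | last => simp [hv']
    | cast a =>
      simp only [Function.comp_apply, Fin.snoc_castSucc]
      have : p.castSucc.succAbove a.castSucc = (p.succAbove a).castSucc := by
        rw [Fin.castSucc_succAbove_castSucc]
      rw [this, hv', Fin.snoc_castSucc]
      rfl
  have h4 : v' p.castSucc = v (q.succAbove p) := by
    rw [hv', Fin.snoc_castSucc]
    rfl
  rw [h3, h4] at h2
  have h5 : D1 (Fin.snoc (α := fun _ => Fin (m + 2) → ℝ) (v ∘ q.succAbove ∘ p.succAbove) (v q))
      (v (q.succAbove p)) = D2 (v ∘ q.succAbove ∘ p.succAbove) (v q) (v (q.succAbove p)) := rfl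
  rw [h5] at h2
  rw [D2_swap, h2, h1]
  have h6 : (-1 : ℝ) ^ (m + 1 + (p.castSucc : ℕ)) * ((-1) ^ (m + 1 + (q : ℕ)) * D v) =
      (-1) ^ ((p : ℕ) + (q : ℕ)) * D v := by
    rw [← mul_assoc, ← pow_add]
    have : m + 1 + (p.castSucc : ℕ) + (m + 1 + (q : ℕ)) = ((p : ℕ) + (q : ℕ)) + 2 * (m + 1) := by
      simp
      ring
    rw [this, pow_add, pow_mul]
    simp
  rw [h6]

/-- **Exchange lemma.** -/
theorem exchange {m : ℕ} (v : Fin (m + 2) → (Fin (m + 2) → ℝ)) (hv : D v ≠ 0)
    {q p : Fin (m + 2)} {p' : Fin (m + 1)} (hp : q.succAbove p' = p) (hpq : p < q)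
    (z₁ z₂ : Fin (m + 2) → ℝ) :
    D1 (v ∘ q.succAbove) z₁ * D1 (v ∘ p.succAbove) z₂ -
      D1 (v ∘ q.succAbove) z₂ * D1 (v ∘ p.succAbove) z₁ =
    D v * D2 (v ∘ q.succAbove ∘ p'.succAbove) z₁ z₂ := by
  have hli : LinearIndependent ℝ v := by
    have h1 : IsUnit (Matrix.of v) := (Matrix.isUnit_iff_isUnit_det _).2 (isUnit_iff_ne_zero.2 hv)
    exact Matrix.linearIndependent_rows_iff_isUnit.2 h1
  let b : Module.Basis (Fin (m + 2)) ℝ (Fin (m + 2) → ℝ) :=
    basisOfLinearIndependentOfCardEqFinrank hli (by simp)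
  have hb : ∀ i, b i = v i := fun i => by
    simp [b]
  -- bilinear maps
  let B1 : (Fin (m + 2) → ℝ) →ₗ[ℝ] (Fin (m + 2) → ℝ) →ₗ[ℝ] ℝ :=
    LinearMap.mk₂ ℝ (fun z₁ z₂ => D1 (v ∘ q.succAbove) z₁ * D1 (v ∘ p.succAbove) z₂ -
      D1 (v ∘ q.succAbove) z₂ * D1 (v ∘ p.succAbove) z₁)
      (by intro a b c; simp only [D1_add]; ring) (by intro c a b; simp only [D1_smul, smul_eq_mul]; ring)
      (by intro a b c; simp only [D1_add]; ring) (by intro c a b; simp only [D1_smul, smul_eq_mul]; ring)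
  let B2 : (Fin (m + 2) → ℝ) →ₗ[ℝ] (Fin (m + 2) → ℝ) →ₗ[ℝ] ℝ :=
    D v • D2L (v ∘ q.succAbove ∘ p'.succAbove)
  have hB : B1 = B2 := by
    apply b.ext
    intro i
    apply b.ext
    intro j
    rw [hb, hb]
    show D1 (v ∘ q.succAbove) (v i) * D1 (v ∘ p.succAbove) (v j) -
      D1 (v ∘ q.succAbove) (v j) * D1 (v ∘ p.succAbove) (v i) =
      D v * D2 (v ∘ q.succAbove ∘ p'.succAbove) (v i) (v j)
    have hz : ∀ r s : Fin (m + 2), s ≠ r → D1 (v ∘ r.succAbove) (v s) = 0 := by
      intro r s hsr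
      obtain ⟨t, rfl⟩ := Fin.exists_succAbove_eq hsr
      exact D1_self (v ∘ r.succAbove) t
    have hz2 : ∀ s : Fin (m + 2), s ≠ q → s ≠ p → ∃ t : Fin m,
        v s = (v ∘ q.succAbove ∘ p'.succAbove) t := by
      intro s hsq hsp
      obtain ⟨t, rfl⟩ := Fin.exists_succAbove_eq hsq
      have : t ≠ p' := fun h => hsp (by rw [h, hp])
      obtain ⟨t', rfl⟩ := Fin.exists_succAbove_eq this
      exact ⟨t', rfl⟩
    have hpq' : p ≠ q := hpq.ne
    by_cases hiq : i = q
    · subst hiq
      by_cases hjp : j = p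
      · subst hjp
        have e := D2_remove v i p'
        rw [hp, D2_swap] at e
        have e' : D2 (v ∘ i.succAbove ∘ p'.succAbove) (v i) (v j) =
            (-1) ^ ((p' : ℕ) + (i : ℕ)) * D v := by linarith
        rw [e', D1_remove, D1_remove, hz j i hpq'.symm, mul_zero, sub_zero]
        have hval : (p' : ℕ) = (j : ℕ) := by
          have h7 : i.succAbove p' = j := hp
          have h8 : (p'.castSucc : Fin (m + 2)) < i := by
            by_contra hcon
            rw [not_lt] at hcon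
            rw [Fin.succAbove_of_le_castSucc _ _ hcon] at h7
            have : i < j := by
              rw [← h7]
              exact lt_of_le_of_lt hcon (Fin.castSucc_lt_succ)
            exact absurd this (not_lt.2 hpq.le)
          rw [Fin.succAbove_of_castSucc_lt _ _ h8] at h7
          rw [← h7]
          rfl
        rw [hval]
        have : (-1 : ℝ) ^ (m + 1 + (i : ℕ)) * D v * ((-1) ^ (m + 1 + (j : ℕ)) * D v) =
            D v * ((-1) ^ ((j : ℕ) + (i : ℕ)) * D v) := by
          have h9 : (-1 : ℝ) ^ (m + 1 + (i : ℕ)) * (-1) ^ (m + 1 + (j : ℕ)) =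
              (-1) ^ ((j : ℕ) + (i : ℕ)) := by
            rw [← pow_add]
            have : m + 1 + (i : ℕ) + (m + 1 + (j : ℕ)) = ((j : ℕ) + (i : ℕ)) + 2 * (m + 1) := by
              ring
            rw [this, pow_add, pow_mul]
            simp
          calc _ = ((-1 : ℝ) ^ (m + 1 + (i : ℕ)) * (-1) ^ (m + 1 + (j : ℕ))) * (D v * D v) := by ring
            _ = _ := by rw [h9]; ring
        exact this
      · by_cases hji : j = i
        · subst hji
          rw [D2_self]
          ring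
        · rw [hz p j hjp, hz i j hji]
          obtain ⟨t, ht⟩ := hz2 j hji hjp
          rw [ht, D2_self_right]
          ring
    · by_cases hip : i = p
      · subst hip
        by_cases hjq : j = q
        · subst hjq
          have e := D2_remove v j p'
          rw [hp] at e
          rw [e, hz j i hpq', D1_remove, D1_remove]
          have hval : (p' : ℕ) = (i : ℕ) := by
            have h7 : j.succAbove p' = i := hp
            have h8 : (p'.castSucc : Fin (m + 2)) < j := by
              by_contra hcon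
              rw [not_lt] at hcon
              rw [Fin.succAbove_of_le_castSucc _ _ hcon] at h7
              have : j < i := by
                rw [← h7]
                exact lt_of_le_of_lt hcon (Fin.castSucc_lt_succ)
              exact absurd this (not_lt.2 hpq.le)
            rw [Fin.succAbove_of_castSucc_lt _ _ h8] at h7
            rw [← h7]
            rfl
          rw [hval]
          have h9 : (-1 : ℝ) ^ (m + 1 + (j : ℕ)) * (-1) ^ (m + 1 + (i : ℕ)) =
              (-1) ^ ((i : ℕ) + (j : ℕ)) := by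
            rw [← pow_add]
            have : m + 1 + (j : ℕ) + (m + 1 + (i : ℕ)) = ((i : ℕ) + (j : ℕ)) + 2 * (m + 1) := by
              ring
            rw [this, pow_add, pow_mul]
            simp
          calc 0 * D1 (v ∘ i.succAbove) (v j) -
              (-1 : ℝ) ^ (m + 1 + (j : ℕ)) * D v * ((-1) ^ (m + 1 + (i : ℕ)) * D v)
              = -(((-1 : ℝ) ^ (m + 1 + (j : ℕ)) * (-1) ^ (m + 1 + (i : ℕ))) * (D v * D v)) := by ring
            _ = _ := by rw [h9]; ring
        · rw [hz q i hiq, hz q j hjq]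
          by_cases hji : j = i
          · subst hji
            rw [D2_self]
            ring
          · obtain ⟨t, ht⟩ := hz2 j hjq hji
            rw [ht, D2_self_right]
            ring
      · rw [hz q i hiq, hz p i hip]
        obtain ⟨t, ht⟩ := hz2 i hiq hip
        rw [ht, D2_self_left]
        ring
  have := congrArg (fun B => B z₁ z₂) hB
  exact this

end Pool.Agent.AmpDual
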