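import Pool.Agent.AmpDual.Rot

set_option autoImplicit false

/-! Expansion of determinants of rows which are nonnegative combinations of two neighbours. -/

namespace Pool.Agent.AmpDual

lemma D_add_expand {m : ℕ} (u v : Fin m → (Fin m → ℝ)) :
    D (u + v) = ∑ s : Finset (Fin m), D (s.piecewise u v) := by
  have := (Matrix.detRowAlternating (n := Fin m) (R := ℝ)).toMultilinearMap.map_add_univ u v
  exact this

lemma D_zero_of_prop {m : ℕ} {v : Fin m → (Fin m → ℝ)} {a b : Fin m} (hab : a ≠ b) {c : ℝ}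
    (h : v a = c • v b) : D v = 0 := by
  have h1 : v = Function.update v a (c • v b) := by
    rw [← h]
    simp
  rw [h1]
  unfold D
  have h2 := Matrix.det_updateRow_smul (Matrix.of v) a c (v b)
  have h3 : Matrix.of (Function.update v a (c • v b)) = (Matrix.of v).updateRow a (c • v b) := rfl
  rw [h3, h2]
  have h4 : ((Matrix.of v).updateRow a (v b)).det = 0 := by
    apply Matrix.det_zero_of_row_eq hab
    rw [Matrix.updateRow_self, Matrix.updateRow_ne hab.symm]
    rfl
  rw [h4, mul_zero]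

/-- the summands -/
lemma expand_term {m N : ℕ} (hN : 0 < N) {r' : ℤ → (Fin m → ℝ)} {α β : ℤ → ℝ}
    (hα : ∀ i : ℤ, 0 ≤ i → i ≤ N → 0 ≤ α i) (hα0 : α 0 = 0)
    (hβ : ∀ i : ℤ, 0 ≤ i → i ≤ N → 0 ≤ β i)
    (hper : ∀ j, r' (j + N) = (-1 : ℝ) ^ (m + 1) • r' j)
    (hpos : ∀ f : Fin m → ℤ, In N f → 0 ≤ D (r' ∘ f)) {f : Fin m → ℤ} (hf : StrictMono f)
    (hf0 : ∀ a, 0 ≤ f a ∧ f a ≤ N) (s : Finset (Fin m)) :
    0 ≤ D (s.piecewise (fun a => α (f a) • r' (f a - 1)) (fun a => β (f a) • r' (f a))) := by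
  classical
  have h1 : s.piecewise (fun a => α (f a) • r' (f a - 1)) (fun a => β (f a) • r' (f a)) =
      fun a => (if a ∈ s then α (f a) else β (f a)) •
        (r' ∘ (fun a => if a ∈ s then f a - 1 else f a)) a := by
    funext a
    unfold Finset.piecewise
    simp only [Function.comp_apply]
    split_ifs <;> rfl
  rw [h1, D_scale]
  by_cases h0 : ∃ a ∈ s, f a = 0
  · obtain ⟨a, ha, hfa⟩ := h0
    rw [Finset.prod_eq_zero (Finset.mem_univ a) (by rw [if_pos ha, hfa, hα0]), zero_mul]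
  · push Not at h0
    apply mul_nonneg
    · apply Finset.prod_nonneg
      intro a _
      split_ifs
      · exact hα _ (hf0 a).1 (hf0 a).2
      · exact hβ _ (hf0 a).1 (hf0 a).2
    · set h : Fin m → ℤ := fun a => if a ∈ s then f a - 1 else f a with hh
      have hrange : ∀ a, 0 ≤ h a ∧ h a ≤ N := by
        intro a
        have h2 := hf0 a
        rw [hh]
        dsimp only
        split_ifs with h3
        · have := h0 a h3
          omega
        · exact h2
      by_cases hinj : Function.Injective h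
      · have hmono : StrictMono h := by
          have : Monotone h := by
            intro a b hab
            rcases hab.eq_or_lt with h3 | h3
            · rw [h3]
            · have := hf h3
              rw [hh]
              dsimp only
              split_ifs <;> omega
          exact this.strictMono_of_injective hinj
        by_cases hper' : ∃ a b, h b + N ≤ h a
        · obtain ⟨a, b, hab⟩ := hper'
          have ha := hrange a
          have hb := hrange b
          have hne : a ≠ b := by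
            intro h3
            subst h3
            omega
          have hhb : h b = 0 := by omega
          have hha : h a = N := by omega
          have h3 : (r' ∘ h) a = (-1 : ℝ) ^ (m + 1) • (r' ∘ h) b := by
            simp only [Function.comp_apply, hha, hhb]
            have := hper 0
            rw [zero_add] at this
            exact this
          rw [D_zero_of_prop hne h3]
        · push Not at hper'
          exact hpos h ⟨hmono, fun a b => by have := hper' a b; linarith⟩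
      · rw [Function.Injective] at hinj
        push Not at hinj
        obtain ⟨a, b, hab, hne⟩ := hinj
        rw [D_eq_zero_of_eq hne]
        simp [hab]

lemma expand_eq {m N : ℕ} {r r' : ℤ → (Fin m → ℝ)} {α β : ℤ → ℝ}
    (hrel : ∀ i : ℤ, 0 ≤ i → i ≤ N → r i = α i • r' (i - 1) + β i • r' i) {f : Fin m → ℤ}
    (hf0 : ∀ a, 0 ≤ f a ∧ f a ≤ N) :
    D (r ∘ f) = ∑ s : Finset (Fin m),
      D (s.piecewise (fun a => α (f a) • r' (f a - 1)) (fun a => β (f a) • r' (f a))) := by
  rw [← D_add_expand]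
  congr 1
  funext a
  exact hrel _ (hf0 a).1 (hf0 a).2

theorem expand_nonneg {m N : ℕ} (hN : 0 < N) {r r' : ℤ → (Fin m → ℝ)} {α β : ℤ → ℝ}
    (hrel : ∀ i : ℤ, 0 ≤ i → i ≤ N → r i = α i • r' (i - 1) + β i • r' i)
    (hα : ∀ i : ℤ, 0 ≤ i → i ≤ N → 0 ≤ α i) (hα0 : α 0 = 0)
    (hβ : ∀ i : ℤ, 0 ≤ i → i ≤ N → 0 ≤ β i)
    (hper : ∀ j, r' (j + N) = (-1 : ℝ) ^ (m + 1) • r' j)
    (hpos : ∀ f : Fin m → ℤ, In N f → 0 ≤ D (r' ∘ f)) {f : Fin m → ℤ} (hf : StrictMono f)
    (hf0 : ∀ a, 0 ≤ f a ∧ f a ≤ N) : 0 ≤ D (r ∘ f) := by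
  rw [expand_eq hrel hf0]
  exact Finset.sum_nonneg (fun s _ => expand_term hN hα hα0 hβ hper hpos hf hf0 s)

theorem expand_pos {m N : ℕ} (hN : 0 < N) {r r' : ℤ → (Fin m → ℝ)} {α β : ℤ → ℝ}
    (hrel : ∀ i : ℤ, 0 ≤ i → i ≤ N → r i = α i • r' (i - 1) + β i • r' i)
    (hα : ∀ i : ℤ, 0 ≤ i → i ≤ N → 0 ≤ α i) (hα0 : α 0 = 0)
    (hβ : ∀ i : ℤ, 0 ≤ i → i ≤ N → 0 < β i)
    (hper : ∀ j, r' (j + N) = (-1 : ℝ) ^ (m + 1) • r' j)
    (hpos : ∀ f : Fin m → ℤ, In N f → 0 < D (r' ∘ f)) {f : Fin m → ℤ} (hf : StrictMono f)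
    (hf0 : ∀ a, 0 ≤ f a ∧ f a < N) : 0 < D (r ∘ f) := by
  have hf0' : ∀ a, 0 ≤ f a ∧ f a ≤ N := fun a => ⟨(hf0 a).1, (hf0 a).2.le⟩
  rw [expand_eq hrel hf0']
  apply Finset.sum_pos' (fun s _ => expand_term hN hα hα0 (fun i h1 h2 => (hβ i h1 h2).le) hper
    (fun f hf => (hpos f hf).le) hf hf0' s)
  refine ⟨∅, Finset.mem_univ _, ?_⟩
  rw [Finset.piecewise_empty]
  have h1 := D_scale (r' ∘ f) (fun a => β (f a))
  have h2 : (fun a => β (f a) • r' (f a)) = fun a => β (f a) • (r' ∘ f) a := rfl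
  rw [h2, h1]
  apply mul_pos
  · exact Finset.prod_pos (fun a _ => hβ _ (hf0 a).1 (hf0 a).2.le)
  · exact hpos f (in_of_mem (c := 0) hf (fun a => by have := hf0 a; omega))

end Pool.Agent.AmpDual
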