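import Pool.Agent.AmpDual.Wind

set_option autoImplicit false

/-! Staircase matrices and the Kermit representation. -/

namespace Pool.Agent.AmpDual

/-- staircase matrices have nonnegative minors -/
lemma stair_nonneg {k : ℕ} (p : Fin k → ℕ) (hp : StrictMono p) (A : Fin k → ℕ → ℝ)
    (J : Fin k → ℕ) (hJ : StrictMono J) (hA0 : ∀ a b, 0 ≤ A a (J b))
    (hA : ∀ a j, j ≠ p a → j ≠ p a + 1 → A a j = 0) :
    0 ≤ Matrix.det (Matrix.of (fun a b => A a (J b))) := by
  induction k with
  | zero => simp
  | succ k ih =>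
    have ihm : 0 ≤ Matrix.det (Matrix.of (fun a b : Fin k => A a.succ (J b.succ))) :=
      ih (fun a => p a.succ) (fun a b h => hp (Fin.succ_lt_succ_iff.2 h)) (fun a => A a.succ)
        (fun b => J b.succ) (fun a b h => hJ (Fin.succ_lt_succ_iff.2 h))
        (fun a b => hA0 a.succ b.succ) (fun a j => hA a.succ j)
    have hp0 : ∀ a : Fin k, p 0 + 1 ≤ p a.succ := fun a => hp (Fin.succ_pos a)
    have hJ0 : ∀ b : Fin k, J 0 + 1 ≤ J b.succ := fun b => hJ (Fin.succ_pos b)
    rcases lt_trichotomy (J 0) (p 0) with h | h | h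
    · -- column zero vanishes
      rw [Matrix.det_eq_zero_of_column_eq_zero 0]
      intro a
      rw [Matrix.of_apply]
      induction a using Fin.cases with
      | zero => exact hA 0 _ (by omega) (by omega)
      | succ a =>
        have := hp0 a
        exact hA a.succ _ (by omega) (by omega)
    · rw [Matrix.det_succ_column_zero]
      rw [Fin.sum_univ_succ]
      have hz : ∑ i : Fin k, (-1 : ℝ) ^ ((i.succ : Fin (k + 1)) : ℕ) *
          (Matrix.of (fun a b => A a (J b))) i.succ 0 *
          ((Matrix.of (fun a b => A a (J b))).submatrix i.succ.succAbove Fin.succ).det = 0 := by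
        apply Finset.sum_eq_zero
        intro i _
        have := hp0 i
        have e : (Matrix.of (fun a b => A a (J b))) i.succ 0 = 0 := by
          rw [Matrix.of_apply]
          exact hA i.succ _ (by omega) (by omega)
        rw [e]
        ring
      rw [hz, add_zero]
      have e2 : ((Matrix.of (fun a b => A a (J b))).submatrix (0 : Fin (k + 1)).succAbove Fin.succ)
          = Matrix.of (fun a b : Fin k => A a.succ (J b.succ)) := by
        ext a b
        simp
      rw [e2]
      have := hA0 0 0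
      simp only [Fin.val_zero, pow_zero, one_mul, Matrix.of_apply]
      exact mul_nonneg this ihm
    · rcases Nat.lt_or_ge (p 0 + 1) (J 0) with h' | h'
      · rw [Matrix.det_eq_zero_of_row_eq_zero 0]
        intro b
        rw [Matrix.of_apply]
        induction b using Fin.cases with
        | zero => exact hA 0 _ (by omega) (by omega)
        | succ b =>
          have := hJ0 b
          exact hA 0 _ (by omega) (by omega)
      · rw [Matrix.det_succ_row_zero]
        rw [Fin.sum_univ_succ]
        have hz : ∑ i : Fin k, (-1 : ℝ) ^ ((i.succ : Fin (k + 1)) : ℕ) *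
            (Matrix.of (fun a b => A a (J b))) 0 i.succ *
            ((Matrix.of (fun a b => A a (J b))).submatrix Fin.succ i.succ.succAbove).det = 0 := by
          apply Finset.sum_eq_zero
          intro i _
          have := hJ0 i
          have e : (Matrix.of (fun a b => A a (J b))) 0 i.succ = 0 := by
            rw [Matrix.of_apply]
            exact hA 0 _ (by omega) (by omega)
          rw [e]
          ring
        rw [hz, add_zero]
        have e2 : ((Matrix.of (fun a b => A a (J b))).submatrix Fin.succ (0 : Fin (k + 1)).succAbove)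
            = Matrix.of (fun a b : Fin k => A a.succ (J b.succ)) := by
          ext a b
          simp
        rw [e2]
        have := hA0 0 0
        simp only [Fin.val_zero, pow_zero, one_mul, Matrix.of_apply]
        exact mul_nonneg this ihm

/-- the minor on the columns `p a + 1` is positive -/
lemma stair_pos {k : ℕ} (p : Fin k → ℕ) (hp : StrictMono p) (A : Fin k → ℕ → ℝ)
    (hpos : ∀ a, 0 < A a (p a + 1))
    (hA : ∀ a j, j ≠ p a → j ≠ p a + 1 → A a j = 0) :
    0 < Matrix.det (Matrix.of (fun a b => A a (p b + 1))) := by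
  induction k with
  | zero => simp
  | succ k ih =>
    have ihm : 0 < Matrix.det (Matrix.of (fun a b : Fin k => A a.succ (p b.succ + 1))) :=
      ih (fun a => p a.succ) (fun a b h => hp (Fin.succ_lt_succ_iff.2 h)) (fun a => A a.succ)
        (fun a => hpos a.succ) (fun a j => hA a.succ j)
    have hp0 : ∀ a : Fin k, p 0 + 1 ≤ p a.succ := fun a => hp (Fin.succ_pos a)
    rw [Matrix.det_succ_row_zero]
    rw [Fin.sum_univ_succ]
    have hz : ∑ i : Fin k, (-1 : ℝ) ^ ((i.succ : Fin (k + 1)) : ℕ) *
        (Matrix.of (fun a b => A a (p b + 1))) 0 i.succ *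
        ((Matrix.of (fun a b => A a (p b + 1))).submatrix Fin.succ i.succ.succAbove).det = 0 := by
      apply Finset.sum_eq_zero
      intro i _
      have := hp0 i
      have e : (Matrix.of (fun a b => A a (p b + 1))) 0 i.succ = 0 := by
        rw [Matrix.of_apply]
        exact hA 0 _ (by omega) (by omega)
      rw [e]
      ring
    rw [hz, add_zero]
    have e2 : ((Matrix.of (fun a b => A a (p b + 1))).submatrix Fin.succ
        (0 : Fin (k + 1)).succAbove)
        = Matrix.of (fun a b : Fin k => A a.succ (p b.succ + 1)) := by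
      ext a b
      simp
    rw [e2]
    simp only [Fin.val_zero, pow_zero, one_mul, Matrix.of_apply]
    exact mul_pos (hpos 0) ihm

/-- nonnegativity with an extra first column with alternating signs -/
lemma stair_nonneg' {k : ℕ} (p : Fin k → ℕ) (hp : StrictMono p) (hp1 : ∀ a, 1 ≤ p a)
    (A : Fin k → ℕ → ℝ)
    (J : Fin k → ℕ) (hJ : StrictMono J) (hA0 : ∀ a j, 1 ≤ j → 0 ≤ A a j)
    (hA : ∀ a j, 1 ≤ j → j ≠ p a → j ≠ p a + 1 → A a j = 0)
    (hA1 : ∀ a : Fin k, 0 ≤ (-1 : ℝ) ^ (a : ℕ) * A a 0) :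
    0 ≤ Matrix.det (Matrix.of (fun a b => A a (J b))) := by
  -- replace the zeroth column by zero
  obtain ⟨A', hA'⟩ : ∃ A' : Fin k → ℕ → ℝ, ∀ (a : Fin k) (j : ℕ),
      A' a j = if j = 0 then 0 else A a j := ⟨fun a j => if j = 0 then 0 else A a j, fun _ _ => rfl⟩
  have hA'0 : ∀ (a : Fin k) (j : ℕ), 0 ≤ A' a j := by
    intro a j
    rw [hA']
    split_ifs with h
    · exact le_rfl
    · exact hA0 a j (by omega)
  have hA'1 : ∀ (a : Fin k) (j : ℕ), j ≠ p a → j ≠ p a + 1 → A' a j = 0 := by
    intro a j h1 h2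
    rw [hA']
    split_ifs with h
    · rfl
    · exact hA a j (by omega) h1 h2
  have hA'2 : ∀ (a : Fin k) (j : ℕ), 1 ≤ j → A' a j = A a j := by
    intro a j h
    rw [hA', if_neg (by omega)]
  cases k with
  | zero => simp
  | succ k =>
    have hJ0 : ∀ b : Fin k, J 0 + 1 ≤ J b.succ := fun b => hJ (Fin.succ_pos b)
    rcases Nat.eq_zero_or_pos (J 0) with h0 | h0
    · rw [Matrix.det_succ_column_zero]
      apply Finset.sum_nonneg
      intro a _
      have e1 : ((Matrix.of (fun a b => A a (J b))).submatrix a.succAbove Fin.succ) =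
          Matrix.of (fun c b : Fin k => A' (a.succAbove c) (J b.succ)) := by
        ext c b
        have := hJ0 b
        simp only [Matrix.submatrix_apply, Matrix.of_apply]
        rw [hA'2 _ _ (by omega)]
      rw [e1]
      have e2 : 0 ≤ Matrix.det (Matrix.of (fun c b : Fin k => A' (a.succAbove c) (J b.succ))) :=
        stair_nonneg (fun c => p (a.succAbove c)) (hp.comp (Fin.strictMono_succAbove a))
          (fun c => A' (a.succAbove c)) (fun b => J b.succ)
          (fun a b h => hJ (Fin.succ_lt_succ_iff.2 h)) (fun _ _ => hA'0 _ _)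
          (fun c j => hA'1 _ j)
      have e3 := hA1 a
      rw [Matrix.of_apply, h0]
      exact mul_nonneg e3 e2
    · have e1 : (Matrix.of (fun a b => A a (J b))) = Matrix.of (fun a b => A' a (J b)) := by
        ext a b
        simp only [Matrix.of_apply]
        rw [hA'2]
        have : J 0 ≤ J b := hJ.monotone (Fin.zero_le b)
        omega
      rw [e1]
      exact stair_nonneg p hp A' J hJ (fun _ _ => hA'0 _ _) hA'1

/-! ### crossings -/

lemma det2_dot (u x y : ℝ × ℝ) : (u.1 ^ 2 + u.2 ^ 2) * det2 x y =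
    (u.1 * x.1 + u.2 * x.2) * det2 u y - det2 u x * (u.1 * y.1 + u.2 * y.2) := by
  unfold det2; ring

lemma sq_pos_of_ne {u : ℝ × ℝ} (hu : u ≠ 0) : 0 < u.1 ^ 2 + u.2 ^ 2 := by
  by_contra hcon
  apply hu
  have h1 : u.1 = 0 := by nlinarith [sq_nonneg u.1, sq_nonneg u.2]
  have h2 : u.2 = 0 := by nlinarith [sq_nonneg u.1, sq_nonneg u.2]
  exact Prod.ext h1 h2

/-- if `det2 u x = 0` and `x → y` is a positive turn then `x` and `y` are on the same side -/
lemma no_cross_of_zero {u x y : ℝ × ℝ} (hu : u ≠ 0) (h : 0 < det2 x y) (hx : det2 u x = 0) :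
    (hp u x ↔ hp u y) := by
  have h1 := det2_dot u x y
  rw [hx, zero_mul, sub_zero] at h1
  have h2 := mul_pos (sq_pos_of_ne hu) h
  rw [h1] at h2
  constructor
  · intro a
    rcases a with a | a
    · linarith
    · left
      exact (pos_iff_pos_of_mul_pos h2).1 a.2
  · intro b
    right
    refine ⟨hx, ?_⟩
    rcases b with b | b
    · exact (pos_iff_pos_of_mul_pos h2).2 b
    · rw [b.1, mul_zero] at h2
      exact absurd h2 (lt_irrefl _)

lemma sign_of_cross {u x y : ℝ × ℝ} (hu : u ≠ 0) (h : 0 < det2 x y) (hc : ¬ (hp u x ↔ hp u y)) :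
    (hp u x → 0 < det2 u x ∧ det2 u y ≤ 0) ∧ (¬ hp u x → det2 u x < 0 ∧ 0 ≤ det2 u y) := by
  have h0 : det2 u x ≠ 0 := fun h0 => hc (no_cross_of_zero hu h h0)
  constructor
  · intro a
    have hy : ¬ hp u y := fun b => hc ⟨fun _ => b, fun _ => a⟩
    refine ⟨?_, ?_⟩
    · rcases a with a | a
      · exact a
      · exact absurd a.1 h0
    · by_contra hcon
      exact hy (Or.inl (not_le.1 hcon))
  · intro a
    have hy : hp u y := by
      by_contra b
      exact hc ⟨fun c => absurd c a, fun c => absurd c b⟩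
    refine ⟨?_, ?_⟩
    · rcases lt_trichotomy (det2 u x) 0 with h1 | h1 | h1
      · exact h1
      · exact absurd h1 h0
      · exact absurd (Or.inl h1) a
    · rcases hy with b | b
      · exact b.le
      · exact b.1.ge

open Classical in
/-- set of crossings strictly inside -/
noncomputable def Cset (x : ℕ → ℝ × ℝ) (n : ℕ) : Finset ℕ :=
  (Finset.Ico 1 (n - 1)).filter (fun j => ¬ (hp (x 0) (x j) ↔ hp (x 0) (x (j + 1))))

lemma hp_self {u : ℝ × ℝ} (hu : u ≠ 0) : hp u u := by
  right
  refine ⟨det2_self u, ?_⟩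
  have := sq_pos_of_ne hu
  nlinarith

/-- parity of crossings -/
lemma hp_iff_even {x : ℕ → ℝ × ℝ} (hu : x 0 ≠ 0) (j : ℕ) :
    hp (x 0) (x j) ↔ Even (∑ i ∈ Finset.range j, cr (x 0) (x i) (x (i + 1))) := by
  induction j with
  | zero => simp [hp_self hu]
  | succ j ih =>
    rw [Finset.sum_range_succ]
    unfold cr at ih ⊢
    by_cases h1 : hp (x 0) (x j) <;> by_cases h2 : hp (x 0) (x (j + 1)) <;>
      simp [h1, h2, Nat.even_add_one] at ih ⊢ <;> simpa using ih

lemma cross_count {x : ℕ → ℝ × ℝ} {n : ℕ} (hturn : ∀ j < n, 0 < det2 (x j) (x (j + 1)))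
    (hn : 1 ≤ n) (j : ℕ) (hj1 : 1 ≤ j) (hj : j ≤ n - 1) :
    ∑ i ∈ Finset.range j, cr (x 0) (x i) (x (i + 1)) = ((Cset x n).filter (fun i => i < j)).card := by
  classical
  have h0 : cr (x 0) (x 0) (x 1) = 0 := by
    unfold cr
    rw [if_pos]
    have h := hturn 0 (by omega)
    exact ⟨fun _ => Or.inl h, fun _ => hp_self (ne_zero_of_det2 h).1⟩
  have h1 : ∑ i ∈ Finset.range j, cr (x 0) (x i) (x (i + 1)) =
      ∑ i ∈ Finset.Ico 1 j, cr (x 0) (x i) (x (i + 1)) := by
    rw [Finset.range_eq_Ico, Finset.sum_eq_sum_Ico_succ_bot (by omega), h0, zero_add]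
  rw [h1, Finset.card_eq_sum_ones]
  have h2 : (Cset x n).filter (fun i => i < j) =
      (Finset.Ico 1 j).filter (fun i => ¬ (hp (x 0) (x i) ↔ hp (x 0) (x (i + 1)))) := by
    unfold Cset
    rw [Finset.filter_filter]
    ext i
    simp only [Finset.mem_filter, Finset.mem_Ico]
    constructor
    · rintro ⟨⟨a, b⟩, c, d⟩
      exact ⟨⟨a, d⟩, c⟩
    · rintro ⟨⟨a, b⟩, c⟩
      exact ⟨⟨a, by omega⟩, c, b⟩
  rw [h2, Finset.sum_filter]
  apply Finset.sum_congr rfl
  intro i _
  unfold cr
  by_cases h : (hp (x 0) (x i) ↔ hp (x 0) (x (i + 1)))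
  · rw [if_pos h, if_neg (not_not.2 h)]
  · rw [if_neg h, if_pos h]

/-- total count = inner crossings + 1 -/
lemma cross_total_eq {x : ℕ → ℝ × ℝ} {n k : ℕ} (hturn : ∀ j < n, 0 < det2 (x j) (x (j + 1)))
    (hn : 2 ≤ n) (hend : x n = (-1 : ℝ) ^ (k + 1) • x 0) :
    ∑ i ∈ Finset.range n, cr (x 0) (x i) (x (i + 1)) = (Cset x n).card + 1 := by
  classical
  have hu : x 0 ≠ 0 := (ne_zero_of_det2 (hturn 0 (by omega))).1
  have h1 := cross_count hturn (by omega) (n - 1) (by omega) le_rfl
  have h2 : (Cset x n).filter (fun i => i < n - 1) = Cset x n := by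
    apply Finset.filter_true_of_mem
    intro i hi
    unfold Cset at hi
    rw [Finset.mem_filter, Finset.mem_Ico] at hi
    exact hi.1.2
  rw [h2] at h1
  have h3 : n = (n - 1) + 1 := by omega
  rw [h3, Finset.sum_range_succ, h1]
  congr 1
  have hlast := hturn (n - 1) (by omega)
  rw [← h3] at hlast ⊢
  unfold cr
  rw [if_neg]
  intro hcon
  rcases neg_one_pow_eq_or ℝ (k + 1) with h4 | h4
  · rw [hend, h4, one_smul] at hlast hcon
    have h5 : hp (x 0) (x (n - 1)) := hcon.2 (hp_self hu)
    rw [det2_swap] at hlast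
    rcases h5 with h5 | h5
    · linarith
    · linarith [h5.1]
  · rw [hend, h4, neg_one_smul] at hlast hcon
    have h5 : ¬ hp (x 0) (x (n - 1)) := fun h6 => by
      have h7 := hcon.1 h6
      rw [hp_neg hu hu] at h7
      exact h7 (hp_self hu)
    rw [det2_neg_right, det2_swap, neg_neg] at hlast
    exact h5 (Or.inl hlast)

/-- **Kermit representation.** -/
theorem kermit {k n : ℕ} {x : ℕ → ℝ × ℝ} (hturn : ∀ j < n, 0 < det2 (x j) (x (j + 1)))
    (hn : 2 ≤ n) (hC : (Cset x n).card = k) :
    ∃ M : Matrix (Fin k) (Fin n) ℝ, (∀ a, ∑ j : Fin n, M a j • x (j : ℕ) = 0) ∧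
      (∀ J : Fin k → Fin n, StrictMono J → 0 ≤ (M.submatrix id J).det) ∧
      (∃ J : Fin k → Fin n, StrictMono J ∧ 0 < (M.submatrix id J).det) := by
  classical
  have hu : x 0 ≠ 0 := (ne_zero_of_det2 (hturn 0 (by omega))).1
  set c := (Cset x n).orderEmbOfFin hC with hc
  have hcm : ∀ a, c a ∈ Cset x n := fun a => Finset.orderEmbOfFin_mem _ _ a
  have hc1 : ∀ a, 1 ≤ c a ∧ c a + 1 ≤ n - 1 := by
    intro a
    have := hcm a
    unfold Cset at this
    rw [Finset.mem_filter, Finset.mem_Ico] at this
    omega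
  have hcc : ∀ a, ¬ (hp (x 0) (x (c a)) ↔ hp (x 0) (x (c a + 1))) := by
    intro a
    have := hcm a
    unfold Cset at this
    rw [Finset.mem_filter] at this
    exact this.2
  have hcount : ∀ a : Fin k, ((Cset x n).filter (fun i => i < c a)).card = (a : ℕ) := by
    intro a
    have h1 : (Cset x n).filter (fun i => i < c a) = (Finset.univ.filter (fun b : Fin k => b < a)).map
        c.toEmbedding := by
      ext i
      rw [Finset.mem_filter, Finset.mem_map]
      constructor
      · rintro ⟨h2, h3⟩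
        have : i ∈ Set.range c := by
          rw [hc, Finset.range_orderEmbOfFin]
          exact h2
        obtain ⟨b, rfl⟩ := this
        refine ⟨b, ?_, rfl⟩
        rw [Finset.mem_filter]
        exact ⟨Finset.mem_univ _, c.lt_iff_lt.1 h3⟩
      · rintro ⟨b, hb, rfl⟩
        rw [Finset.mem_filter] at hb
        exact ⟨hcm b, c.lt_iff_lt.2 hb.2⟩
    rw [h1, Finset.card_map]
    have h2 : (Finset.univ.filter (fun b : Fin k => b < a)) = Finset.Iio a := by
      ext b
      simp
    rw [h2, Fin.card_Iio]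
  have hpar : ∀ a : Fin k, hp (x 0) (x (c a)) ↔ Even (a : ℕ) := by
    intro a
    rw [hp_iff_even hu, cross_count hturn (by omega) (c a) (hc1 a).1 (by have := (hc1 a).2; omega),
      hcount a]
  -- signs
  have hs : ∀ a : Fin k, 0 < (-1 : ℝ) ^ (a : ℕ) * det2 (x 0) (x (c a)) ∧
      0 ≤ (-1 : ℝ) ^ (a : ℕ) * (- det2 (x 0) (x (c a + 1))) := by
    intro a
    have h1 := sign_of_cross hu (hturn (c a) (by have := (hc1 a).2; omega)) (hcc a)
    rcases Nat.even_or_odd (a : ℕ) with h2 | h2
    · rw [h2.neg_one_pow]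
      have := h1.1 ((hpar a).2 h2)
      constructor <;> linarith [this.1, this.2]
    · rw [h2.neg_one_pow]
      have h3 : ¬ hp (x 0) (x (c a)) := fun h4 => by
        have := (hpar a).1 h4
        exact (Nat.not_even_iff_odd.2 h2) this
      have := h1.2 h3
      constructor <;> linarith [this.1, this.2]
  -- the matrix
  let A : Fin k → ℕ → ℝ := fun a j => (-1 : ℝ) ^ (a : ℕ) *
    (if j = 0 then det2 (x (c a)) (x (c a + 1)) else
      if j = c a then - det2 (x 0) (x (c a + 1)) else
      if j = c a + 1 then det2 (x 0) (x (c a)) else 0)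
  have hA0 : ∀ (a : Fin k) (j : ℕ), 1 ≤ j → 0 ≤ A a j := by
    intro a j hj
    show 0 ≤ (-1 : ℝ) ^ (a : ℕ) * _
    rw [if_neg (by omega)]
    split_ifs
    · exact (hs a).2
    · exact (hs a).1.le
    · simp
  have hA : ∀ (a : Fin k) (j : ℕ), 1 ≤ j → j ≠ c a → j ≠ c a + 1 → A a j = 0 := by
    intro a j hj h1 h2
    show (-1 : ℝ) ^ (a : ℕ) * _ = 0
    rw [if_neg (by omega), if_neg h1, if_neg h2, mul_zero]
  have hA1 : ∀ (a : Fin k), 0 ≤ (-1 : ℝ) ^ (a : ℕ) * A a 0 := by
    intro a
    show 0 ≤ (-1 : ℝ) ^ (a : ℕ) * ((-1 : ℝ) ^ (a : ℕ) * _)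
    rw [if_pos rfl, ← mul_assoc, ← pow_add]
    have h1 : (-1 : ℝ) ^ ((a : ℕ) + (a : ℕ)) = 1 := by
      rw [← two_mul, pow_mul]; simp
    rw [h1, one_mul]
    exact (hturn (c a) (by have := (hc1 a).2; omega)).le
  have hcs : StrictMono (fun a => c a) := c.strictMono
  refine ⟨Matrix.of (fun a j => A a (j : ℕ)), ?_, ?_, ?_⟩
  · intro a
    have hlt0 : 0 < n := by omega
    have hlt1 : c a < n := by have := (hc1 a).2; omega
    have hlt2 : c a + 1 < n := by have := (hc1 a).2; omega
    have h1 : ∑ j : Fin n, (Matrix.of (fun a j => A a ((j : Fin n) : ℕ))) a j • x (j : ℕ) =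
        ∑ j ∈ Finset.range n, A a j • x j := by
      rw [Finset.sum_range]
      rfl
    rw [h1]
    have h2 : ∑ j ∈ Finset.range n, A a j • x j =
        ∑ j ∈ ({0, c a, c a + 1} : Finset ℕ), A a j • x j := by
      symm
      apply Finset.sum_subset
      · intro j hj
        simp only [Finset.mem_insert, Finset.mem_singleton] at hj
        rw [Finset.mem_range]
        omega
      · intro j _ hj
        simp only [Finset.mem_insert, Finset.mem_singleton, not_or] at hj
        rw [hA a j (by omega) hj.2.1 hj.2.2, zero_smul]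
    rw [h2]
    have hca := (hc1 a).1
    rw [Finset.sum_insert (by simp; omega), Finset.sum_insert (by simp), Finset.sum_singleton]
    have a0 : A a 0 = (-1 : ℝ) ^ (a : ℕ) * det2 (x (c a)) (x (c a + 1)) := by
      show (-1 : ℝ) ^ (a : ℕ) * _ = _
      rw [if_pos rfl]
    have a1 : A a (c a) = (-1 : ℝ) ^ (a : ℕ) * (- det2 (x 0) (x (c a + 1))) := by
      show (-1 : ℝ) ^ (a : ℕ) * _ = _
      rw [if_neg (by omega), if_pos rfl]
    have a2 : A a (c a + 1) = (-1 : ℝ) ^ (a : ℕ) * det2 (x 0) (x (c a)) := by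
      show (-1 : ℝ) ^ (a : ℕ) * _ = _
      rw [if_neg (by omega), if_neg (by omega), if_pos rfl]
    rw [a0, a1, a2]
    ext
    · simp [det2]; ring
    · simp [det2]; ring
  · intro J hJ
    have := stair_nonneg' (fun a => c a) hcs (fun a => (hc1 a).1) A (fun b => (J b : ℕ))
      (fun a b h => hJ h) hA0 hA hA1
    exact this
  · refine ⟨fun a => ⟨c a + 1, by have := (hc1 a).2; omega⟩, ?_, ?_⟩
    · intro a b h
      have := hcs h
      rw [Fin.lt_def]
      simp only at this ⊢
      omega
    · -- positive minor: use the matrix with zeroth column removed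
      have h1 : (Matrix.of (fun a j => A a ((j : Fin n) : ℕ))).submatrix id
          (fun b : Fin k => (⟨c b + 1, by have := (hc1 b).2; omega⟩ : Fin n)) =
          Matrix.of (fun a b => (fun a j => if j = 0 then 0 else A a j) a (c b + 1)) := by
        ext a b
        simp
      rw [h1]
      apply stair_pos (fun a => c a) hcs (fun a j => if j = 0 then 0 else A a j)
      · intro a
        show 0 < (if (c a + 1) = 0 then (0 : ℝ) else A a (c a + 1))
        rw [if_neg (by omega)]
        show 0 < (-1 : ℝ) ^ (a : ℕ) * _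
        rw [if_neg (by omega), if_neg (by omega), if_pos rfl]
        exact (hs a).1
      · intro a j h1 h2
        show (if j = 0 then (0 : ℝ) else A a j) = 0
        split_ifs with h
        · rfl
        · exact hA a j (by omega) h1 h2

end Pool.Agent.AmpDual
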