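import Pool.Agent.AmpDual.Bidual

set_option autoImplicit false

/-! The literal question with zero sign flips. -/

namespace Pool.Agent.AmpDual

open Matrix Filter Topology

lemma D1_single {m : ℕ} (u : Fin m → (Fin (m + 1) → ℝ)) (j : Fin (m + 1)) :
    D1 u (Pi.single j 1) = (-1) ^ (m + (j : ℕ)) *
      Matrix.det ((Matrix.of u).submatrix id j.succAbove) := by
  rw [D1_expand, Finset.sum_eq_single j]
  · simp
  · intro b _ hb
    rw [Pi.single_eq_of_ne hb]
    ring
  · intro h
    exact absurd (Finset.mem_univ j) h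

/-- brackets with unit vectors -/
lemma bracket_single {k : ℕ} {Y : Matrix (Fin k) (Fin (k + 2)) ℝ} (hY : MaxMinorsPos Y)
    (q : Fin (k + 1)) : 0 < (-1 : ℝ) ^ (q : ℕ) *
      bracket Y (Pi.single 0 1) (Pi.single q.succ 1) := by
  have h0 : bracket Y (Pi.single 0 1) (Pi.single q.succ 1) =
      D1 (Fin.snoc (α := fun _ => Fin (k + 2) → ℝ) (fun i => Y i) (Pi.single 0 1))
        (Pi.single q.succ 1) := rfl
  rw [h0, D1_single]
  have h1 : (Matrix.of (Fin.snoc (α := fun _ => Fin (k + 2) → ℝ) (fun i => Y i)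
      (Pi.single 0 1))).submatrix id q.succ.succAbove =
      Matrix.of (Fin.snoc (α := fun _ => Fin (k + 1) → ℝ) (fun i => Y i ∘ q.succ.succAbove)
        (Pi.single 0 1)) := by
    ext a b
    rw [Matrix.submatrix_apply, Matrix.of_apply, Matrix.of_apply]
    induction a using Fin.lastCases with
    | last =>
      simp only [id_eq, Fin.snoc_last]
      by_cases hb : b = 0
      · subst hb
        rw [Fin.succ_succAbove_zero, Pi.single_eq_same, Pi.single_eq_same]
      · rw [Pi.single_eq_of_ne hb, Pi.single_eq_of_ne]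
        intro h
        apply hb
        have h2 : q.succ.succAbove b = q.succ.succAbove 0 := by
          rw [h, Fin.succ_succAbove_zero]
        exact Fin.succAbove_right_injective h2
    | cast a => simp
  rw [h1]
  have h2 : (Matrix.of (Fin.snoc (α := fun _ => Fin (k + 1) → ℝ)
      (fun i => Y i ∘ q.succ.succAbove) (Pi.single 0 1))).det =
      D1 (fun i => Y i ∘ q.succ.succAbove) (Pi.single 0 1) := rfl
  rw [h2, D1_single]
  have h3 : 0 < (Y.submatrix id (q.succ.succAbove ∘ (0 : Fin (k + 1)).succAbove)).det :=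
    hY _ ((Fin.strictMono_succAbove _).comp (Fin.strictMono_succAbove _))
  have h4 : (Matrix.of (fun i => Y i ∘ q.succ.succAbove)).submatrix id
      (0 : Fin (k + 1)).succAbove =
      Y.submatrix id (q.succ.succAbove ∘ (0 : Fin (k + 1)).succAbove) := by
    ext a b
    rfl
  rw [h4]
  have h5 : (-1 : ℝ) ^ (q : ℕ) * ((-1) ^ (k + 1 + ((q.succ : Fin (k + 2)) : ℕ)) *
      ((-1) ^ (k + ((0 : Fin (k + 1)) : ℕ)) *
        (Y.submatrix id (q.succ.succAbove ∘ (0 : Fin (k + 1)).succAbove)).det)) =
      (Y.submatrix id (q.succ.succAbove ∘ (0 : Fin (k + 1)).succAbove)).det := by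
    rw [← mul_assoc, ← mul_assoc, ← pow_add, ← pow_add]
    have : Even ((q : ℕ) + (k + 1 + ((q.succ : Fin (k + 2)) : ℕ)) +
        (k + ((0 : Fin (k + 1)) : ℕ))) := by
      rw [Fin.val_succ, Fin.val_zero]
      exact ⟨(q : ℕ) + k + 1, by ring⟩
    rw [this.neg_one_pow, one_mul]
  rw [h5]
  exact h3

lemma bracket_change {k : ℕ} (g : Matrix (Fin k) (Fin k) ℝ) (Y : Matrix (Fin k) (Fin (k + 2)) ℝ)
    (a b : Fin (k + 2) → ℝ) : bracket (g * Y) a b = g.det * bracket Y a b := by
  set G : Matrix (Fin (k + 2)) (Fin (k + 2)) ℝ :=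
    (Matrix.fromBlocks g 0 0 (1 : Matrix (Fin 2) (Fin 2) ℝ)).submatrix finSumFinEquiv.symm
      finSumFinEquiv.symm with hG
  have h1 : G.det = g.det := by
    rw [hG, Matrix.det_submatrix_equiv_self, Matrix.det_fromBlocks_zero₂₁, Matrix.det_one, mul_one]
  have h2 : Matrix.of (rows2 (fun i => (g * Y) i) a b) = G * Matrix.of (rows2 (fun i => Y i) a b) := by
    ext i c
    obtain ⟨i, rfl⟩ := finSumFinEquiv.surjective i
    rw [Matrix.mul_apply, ← Equiv.sum_comp finSumFinEquiv, Fintype.sum_sum_type, Matrix.of_apply]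
    rcases i with i | i
    · rw [rows2_inl]
      have e1 : ∀ x : Fin k, G (finSumFinEquiv (Sum.inl i)) (finSumFinEquiv (Sum.inl x)) = g i x := by
        intro x
        rw [hG]
        simp
      have e2 : ∀ x : Fin 2, G (finSumFinEquiv (Sum.inl i)) (finSumFinEquiv (Sum.inr x)) = 0 := by
        intro x
        rw [hG]
        simp
      simp only [e1, e2, zero_mul, Finset.sum_const_zero, add_zero, Matrix.of_apply]
      rw [Matrix.mul_apply]
      apply Finset.sum_congr rfl
      intro x _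
      rw [rows2_inl]
    · have e1 : ∀ x : Fin k, G (finSumFinEquiv (Sum.inr i)) (finSumFinEquiv (Sum.inl x)) = 0 := by
        intro x
        rw [hG]
        simp
      have e2 : ∀ x : Fin 2, G (finSumFinEquiv (Sum.inr i)) (finSumFinEquiv (Sum.inr x)) =
          (1 : Matrix (Fin 2) (Fin 2) ℝ) i x := by
        intro x
        rw [hG]
        simp
      simp only [e1, e2, zero_mul, Finset.sum_const_zero, zero_add, Matrix.of_apply,
        Fin.sum_univ_two]
      have hi : i = 0 ∨ i = 1 := by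
        fin_cases i <;> simp
      rcases hi with rfl | rfl
      · rw [rows2_inr0, rows2_inr0, rows2_inr1]
        simp
      · rw [rows2_inr1, rows2_inr0, rows2_inr1]
        simp
  have h3 : bracket (g * Y) a b = (Matrix.of (rows2 (fun i => (g * Y) i) a b)).det := rfl
  have h4 : bracket Y a b = (Matrix.of (rows2 (fun i => Y i) a b)).det := rfl
  rw [h3, h4, h2, Matrix.det_mul, h1]

lemma continuous_bracket {k : ℕ} : Continuous (fun q : (Matrix (Fin k) (Fin (k + 2)) ℝ) ×
    ((Fin (k + 2) → ℝ) × (Fin (k + 2) → ℝ)) => bracket q.1 q.2.1 q.2.2) := by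
  unfold bracket
  apply Continuous.matrix_det
  refine continuous_pi (fun r => continuous_pi (fun s => ?_))
  simp only [Matrix.of_apply]
  induction r using Fin.lastCases with
  | last =>
    simp only [Fin.snoc_last]
    exact (continuous_apply s).comp (continuous_snd.comp continuous_snd)
  | cast r =>
    simp only [Fin.snoc_castSucc]
    induction r using Fin.lastCases with
    | last =>
      simp only [Fin.snoc_last]
      exact (continuous_apply s).comp (continuous_fst.comp continuous_snd)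
    | cast r =>
      simp only [Fin.snoc_castSucc]
      exact (continuous_apply s).comp ((continuous_apply r).comp continuous_fst)

/-- a closed set containing the zero flip region -/
lemma isClosed_prod {k : ℕ} (a b c : Fin (k + 2) → ℝ) :
    IsClosed {V : Gr k (k + 2) | ∃ Y : Frame k (k + 2), Y.toGr = V ∧
      0 ≤ bracket Y.1 a b * bracket Y.1 a c} := by
  refine isClosed_coinduced.2 ?_
  have hpre : Frame.toGr ⁻¹' {V : Gr k (k + 2) | ∃ Y : Frame k (k + 2), Y.toGr = V ∧
      0 ≤ bracket Y.1 a b * bracket Y.1 a c} =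
      {Y : Frame k (k + 2) | 0 ≤ bracket Y.1 a b * bracket Y.1 a c} := by
    ext Y
    constructor
    · rintro ⟨Y', hY', h⟩
      obtain ⟨g, hg⟩ := exists_change Y' Y hY'
      show 0 ≤ bracket Y.1 a b * bracket Y.1 a c
      rw [hg, bracket_change, bracket_change]
      have : g.det * bracket Y'.1 a b * (g.det * bracket Y'.1 a c) =
          g.det ^ 2 * (bracket Y'.1 a b * bracket Y'.1 a c) := by ring
      rw [this]
      exact mul_nonneg (sq_nonneg _) h
    · intro h
      exact ⟨Y, rfl, h⟩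
  rw [hpre]
  have hc : ∀ b c : Fin (k + 2) → ℝ, Continuous (fun Y : Frame k (k + 2) => bracket Y.1 b c) := by
    intro b c
    have h1 : Continuous (fun Y : Frame k (k + 2) => (Y.1, (b, c))) :=
      continuous_subtype_val.prodMk continuous_const
    exact continuous_bracket.comp h1
  exact isClosed_le continuous_const ((hc a b).mul (hc a c))

lemma zero_flip_sub {k n : ℕ} (hn : 3 ≤ n) (Z : Matrix (Fin (k + 2)) (Fin n) ℝ) :
    closure (zeroFlipRegion Z) ⊆ {V : Gr k (k + 2) | ∃ Y : Frame k (k + 2), Y.toGr = V ∧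
      0 ≤ bracket Y.1 (col Z 0) (col Z 1) * bracket Y.1 (col Z 0) (col Z 2)} := by
  apply closure_minimal _ (isClosed_prod _ _ _)
  rintro V ⟨Y, hV, h1, _, h3⟩
  refine ⟨Y, hV, ?_⟩
  have h4 := h1 0 (by omega)
  by_contra hcon
  rw [not_le] at hcon
  unfold signFlips at h3
  rw [Finset.card_eq_zero, Finset.filter_eq_empty_iff] at h3
  refine h3 (Finset.mem_univ ((⟨0, by omega⟩ : Fin (n - 1)), (⟨1, by omega⟩ : Fin (n - 1)))) ?_
  refine ⟨?_, ?_, ?_⟩
  · show (⟨0, by omega⟩ : Fin (n - 1)) < ⟨1, by omega⟩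
    exact Fin.mk_lt_mk.2 one_pos
  · exact hcon
  · intro r hr1 hr2
    exfalso
    have h5 : 0 < (r : ℕ) := hr1
    have h6 : (r : ℕ) < 1 := hr2
    omega

/-- **the literal identity fails for every `k ≥ 1` and every `n ≥ k + 2`** -/
theorem literal_false {k n : ℕ} (hk : 1 ≤ k) (hn : k + 2 ≤ n) :
    ∃ Z : Matrix (Fin (k + 2)) (Fin n) ℝ, MaxMinorsPos Z ∧
      dualAmp Z ≠ closure (zeroFlipRegion Z) := by
  have hkk : k ≤ k + 2 := by omega
  set Y : Matrix (Fin k) (Fin (k + 2)) ℝ := (Kt (k + 2) 2).submatrix (Fin.castLE hkk) id with hY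
  have hYpos : MaxMinorsPos Y := by
    intro J hJ
    rw [hY, Matrix.submatrix_submatrix]
    exact Kt_minor_pos (by norm_num) ((Fin.strictMono_castLE hkk).comp strictMono_id)
      (strictMono_id.comp hJ)
  have hYli : LinearIndependent ℝ (fun a => Y a) := by
    rw [rows_iff]
    exact ⟨Fin.castLE hkk, Fin.strictMono_castLE hkk, (hYpos _ (Fin.strictMono_castLE hkk)).ne'⟩
  -- the matrices Z_t
  set Zt : ℝ → Matrix (Fin (k + 2)) (Fin n) ℝ := fun t =>
    (Kt n t).submatrix (Fin.castLE hn) id with hZt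
  have hcol : ∀ j : ℕ, ∀ hj : j < k + 2, Tendsto (fun t => col (Zt t) j) atTop
      (𝓝 (Pi.single (⟨j, hj⟩ : Fin (k + 2)) 1)) := by
    intro j hj
    rw [tendsto_pi_nhds]
    intro c
    have h1 : ∀ t, col (Zt t) j c = Kt n t (Fin.castLE hn c) ⟨j, by omega⟩ := by
      intro t
      unfold col
      rw [dif_pos (by omega : j < n)]
      rfl
    simp only [h1]
    have h2 : Continuous (fun K : Matrix (Fin n) (Fin n) ℝ => K (Fin.castLE hn c) ⟨j, by omega⟩) :=
      (continuous_apply _).comp (continuous_apply _)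
    have h3 := (h2.tendsto 1).comp (Kt_tendsto n)
    have h4 : (1 : Matrix (Fin n) (Fin n) ℝ) (Fin.castLE hn c) ⟨j, by omega⟩ =
        (Pi.single (⟨j, hj⟩ : Fin (k + 2)) 1 : Fin (k + 2) → ℝ) c := by
      rw [Matrix.one_apply, Pi.single_apply]
      congr 1
      rw [Fin.ext_iff, Fin.ext_iff]
      rfl
    rw [h4] at h3
    exact h3
  have hbr : ∀ q : ℕ, ∀ hq : q < k + 2, Tendsto (fun t => bracket Y (col (Zt t) 0)
      (col (Zt t) q)) atTop (𝓝 (bracket Y (Pi.single (⟨0, by omega⟩ : Fin (k + 2)) 1)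
        (Pi.single (⟨q, hq⟩ : Fin (k + 2)) 1))) := by
    intro q hq
    have h1 := ((tendsto_const_nhds (x := Y) (f := atTop (α := ℝ))).prodMk_nhds
      ((hcol 0 (by omega)).prodMk_nhds (hcol q hq)))
    exact (continuous_bracket.tendsto _).comp h1
  have hs1 := bracket_single hYpos ⟨0, by omega⟩
  have hs2 := bracket_single hYpos ⟨1, by omega⟩
  simp only [pow_zero, one_mul, pow_one] at hs1 hs2
  have hprod := (hbr 1 (by omega)).mul (hbr 2 (by omega))
  have hneg : bracket Y (Pi.single (⟨0, by omega⟩ : Fin (k + 2)) 1)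
        (Pi.single (⟨1, by omega⟩ : Fin (k + 2)) 1) *
      bracket Y (Pi.single (⟨0, by omega⟩ : Fin (k + 2)) 1)
        (Pi.single (⟨2, by omega⟩ : Fin (k + 2)) 1) < 0 := by
    apply mul_neg_of_pos_of_neg
    · exact hs1
    · have : 0 < -1 * bracket Y (Pi.single (⟨0, by omega⟩ : Fin (k + 2)) 1)
        (Pi.single (⟨2, by omega⟩ : Fin (k + 2)) 1) := hs2
      linarith
  obtain ⟨t, ht1, ht2⟩ := ((hprod.eventually (gt_mem_nhds hneg)).and
    (eventually_gt_atTop (1 : ℝ))).exists
  refine ⟨Zt t, ?_, ?_⟩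
  · intro J hJ
    rw [hZt]
    dsimp only
    rw [Matrix.submatrix_submatrix]
    exact Kt_minor_pos ht2 ((Fin.strictMono_castLE hn).comp strictMono_id)
      (strictMono_id.comp hJ)
  · intro heq
    let F : Frame k (k + 2) := ⟨Y, hYli⟩
    have hmem : F.toGr ∈ dualAmp (Zt t) := by
      refine ⟨F, rfl, ?_⟩
      intro I hI
      unfold pairing
      apply Finset.sum_nonneg
      intro S hS
      apply mul_nonneg (hYpos S (mem_srt.1 hS)).le
      rw [hZt]
      dsimp only
      rw [Matrix.submatrix_submatrix]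
      exact (Kt_minor_pos ht2 ((Fin.strictMono_castLE hn).comp (mem_srt.1 hS))
        (strictMono_id.comp hI)).le
    rw [heq] at hmem
    obtain ⟨Y', hY', hge⟩ := zero_flip_sub (by omega) _ hmem
    obtain ⟨g, hg⟩ := exists_change F Y' hY'.symm
    rw [hg, bracket_change, bracket_change] at hge
    have h5 : g.det * bracket Y (col (Zt t) 0) (col (Zt t) 1) *
        (g.det * bracket Y (col (Zt t) 0) (col (Zt t) 2)) =
        g.det ^ 2 * (bracket Y (col (Zt t) 0) (col (Zt t) 1) *
          bracket Y (col (Zt t) 0) (col (Zt t) 2)) := by ring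
    have h6 : 0 ≤ g.det ^ 2 * (bracket Y (col (Zt t) 0) (col (Zt t) 1) *
          bracket Y (col (Zt t) 0) (col (Zt t) 2)) := by
      rw [← h5]
      exact hge
    have h7 : 0 < g.det ^ 2 := by
      have := change_det_ne hg
      positivity
    have h8 := mul_neg_of_pos_of_neg h7 ht1
    linarith

end Pool.Agent.AmpDual
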