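import Pool.Agent.AmpDual.Defs

set_option autoImplicit false

/-! Frame-level statements. -/

namespace Pool.Agent.AmpDual

open Matrix

lemma cols_li {k n : ℕ} (hn : k + 2 ≤ n) {A : Matrix (Fin (k + 2)) (Fin n) ℝ}
    (hA : MaxMinorsPos A) {I : Fin k → Fin n} (hI : Function.Injective I) :
    LinearIndependent ℝ (fun a => fun c => A c (I a)) := by
  classical
  obtain ⟨t, hst, ht⟩ := Finset.exists_superset_card_eq (s := Finset.univ.image I) (n := k + 2)
    (by rw [Finset.card_image_of_injective _ hI]; simp) (by simpa using hn)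
  let e := t.orderEmbOfFin ht
  have h1 : LinearIndependent ℝ (fun b : Fin (k + 2) => fun c => A c (e b)) := by
    have h2 := hA e e.strictMono
    have h3 : IsUnit ((A.submatrix id e)ᵀ) := by
      rw [Matrix.isUnit_iff_isUnit_det, Matrix.det_transpose]
      exact isUnit_iff_ne_zero.2 h2.ne'
    exact Matrix.linearIndependent_rows_iff_isUnit.2 h3
  have h4 : ∀ a, ∃ b, e b = I a := by
    intro a
    have : I a ∈ Set.range e := by
      rw [Finset.range_orderEmbOfFin]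
      exact hst (Finset.mem_image_of_mem _ (Finset.mem_univ a))
    exact this
  choose g hg using h4
  have hginj : Function.Injective g := by
    intro a b h
    apply hI
    rw [← hg a, ← hg b, h]
  have h5 := h1.comp g hginj
  have h6 : (fun b : Fin (k + 2) => fun c => A c (e b)) ∘ g = (fun a => fun c => A c (I a)) := by
    funext a c
    simp only [Function.comp_apply, hg]
  rwa [h6] at h5

lemma span_cols {k n : ℕ} (hn : k + 2 ≤ n) {A : Matrix (Fin (k + 2)) (Fin n) ℝ}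
    (hA : MaxMinorsPos A) {v : Fin (k + 2) → ℝ} (hv : ∀ j, ∑ c, v c * A c j = 0) : v = 0 := by
  have h1 := hA (Fin.castLE hn) (Fin.strictMono_castLE hn)
  apply Matrix.eq_zero_of_vecMul_eq_zero h1.ne'
  funext b
  exact hv _

lemma prod_rows_li {k n : ℕ} (hn : k + 2 ≤ n) {A B : Matrix (Fin (k + 2)) (Fin n) ℝ}
    (hA : MaxMinorsPos A) (hB : MaxMinorsPos B) {I : Fin k → Fin n} (hI : Function.Injective I) :
    LinearIndependent ℝ (fun a => ((Aᵀ * B).submatrix I id) a) := by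
  have h1 := cols_li hn hA hI
  rw [Fintype.linearIndependent_iff] at h1 ⊢
  intro g hg
  apply h1
  apply span_cols hn hB
  intro j
  have := congrFun hg j
  simp only [Finset.sum_apply, Pi.smul_apply, smul_eq_mul, Matrix.submatrix_apply, id_eq,
    Matrix.mul_apply, Matrix.transpose_apply, Pi.zero_apply] at this
  rw [← this]
  simp only [Finset.sum_apply, Pi.smul_apply, smul_eq_mul, Finset.sum_mul, Finset.mul_sum]
  rw [Finset.sum_comm]
  apply Finset.sum_congr rfl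
  intro a _
  apply Finset.sum_congr rfl
  intro c _
  ring

section

variable {k n : ℕ} (hn : k + 2 ≤ n) {Z : Matrix (Fin (k + 2)) (Fin n) ℝ} (hZ : MaxMinorsPos Z)

include hn hZ

lemma T_row {I : Fin k → Fin n} (hI : StrictMono I) : ∃ J : Fin k → Fin n, StrictMono J ∧
    0 < (((twist Z)ᵀ * Z).submatrix I J).det := by
  have h1 := prod_rows_li hn (twist_pos hn hZ) hZ hI.injective
  rw [rows_iff] at h1
  obtain ⟨J, hJ, hne⟩ := h1
  have e : ((((twist Z)ᵀ * Z).submatrix I id).submatrix id J) =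
      ((twist Z)ᵀ * Z).submatrix I J := rfl
  rw [e] at hne
  exact ⟨J, hJ, lt_of_le_of_ne (T_nonneg hn hZ hI hJ) hne.symm⟩

lemma T_col {J : Fin k → Fin n} (hJ : StrictMono J) : ∃ I : Fin k → Fin n, StrictMono I ∧
    0 < (((twist Z)ᵀ * Z).submatrix I J).det := by
  have h1 := prod_rows_li hn hZ (twist_pos hn hZ) hJ.injective
  rw [rows_iff] at h1
  obtain ⟨I, hI, hne⟩ := h1
  have e : (((Zᵀ * (twist Z)).submatrix J id).submatrix id I) =
      (((twist Z)ᵀ * Z).submatrix I J)ᵀ := by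
    ext a b
    simp only [Matrix.submatrix_apply, Matrix.transpose_apply, Matrix.mul_apply, id_eq]
    apply Finset.sum_congr rfl
    intro c _
    ring
  rw [e, Matrix.det_transpose] at hne
  exact ⟨I, hI, lt_of_le_of_ne (T_nonneg hn hZ hI hJ) hne.symm⟩

omit hn hZ in
lemma minor_MT (M : Matrix (Fin k) (Fin n) ℝ) (J : Fin k → Fin n) :
    ((M * (twist Z)ᵀ * Z).submatrix id J).det =
      ∑ I ∈ srt k n, (M.submatrix id I).det * (((twist Z)ᵀ * Z).submatrix I J).det := by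
  have e : (M * (twist Z)ᵀ * Z).submatrix id J = M * ((twist Z)ᵀ * Z).submatrix id J := by
    rw [Matrix.mul_assoc]
    ext a b
    simp [Matrix.mul_apply]
  rw [e, cauchy_binet]
  rfl

lemma MT_nonneg {M : Matrix (Fin k) (Fin n) ℝ} (hM : MaxMinorsNonneg M) :
    MaxMinorsNonneg (M * (twist Z)ᵀ * Z) := by
  intro J hJ
  rw [minor_MT]
  apply Finset.sum_nonneg
  intro I hI
  exact mul_nonneg (hM I (mem_srt.1 hI)) (T_nonneg hn hZ (mem_srt.1 hI) hJ)

lemma MT_pos_exists {M : Matrix (Fin k) (Fin n) ℝ} (hM : MaxMinorsNonneg M)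
    {I : Fin k → Fin n} (hI : StrictMono I) (hIp : 0 < (M.submatrix id I).det) :
    ∃ J : Fin k → Fin n, StrictMono J ∧ 0 < ((M * (twist Z)ᵀ * Z).submatrix id J).det := by
  obtain ⟨J, hJ, hJp⟩ := T_row hn hZ hI
  refine ⟨J, hJ, ?_⟩
  rw [minor_MT]
  apply Finset.sum_pos'
  · intro I hI
    exact mul_nonneg (hM I (mem_srt.1 hI)) (T_nonneg hn hZ (mem_srt.1 hI) hJ)
  · exact ⟨I, mem_srt.2 hI, mul_pos hIp hJp⟩

lemma MT_pos_all {M : Matrix (Fin k) (Fin n) ℝ} (hM : MaxMinorsPos M)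
    (J : Fin k → Fin n) (hJ : StrictMono J) :
    0 < ((M * (twist Z)ᵀ * Z).submatrix id J).det := by
  obtain ⟨I, hI, hIp⟩ := T_col hn hZ hJ
  rw [minor_MT]
  apply Finset.sum_pos'
  · intro I hI
    exact mul_nonneg (hM I (mem_srt.1 hI)).le (T_nonneg hn hZ (mem_srt.1 hI) hJ)
  · exact ⟨I, mem_srt.2 hI, mul_pos (hM I hI) hIp⟩

omit hn hZ in
lemma li_of_mul {l p q : ℕ} {A : Matrix (Fin l) (Fin p) ℝ} {B : Matrix (Fin p) (Fin q) ℝ}
    (h : LinearIndependent ℝ (fun a => (A * B) a)) : LinearIndependent ℝ (fun a => A a) := by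
  have e : (fun a => (A * B) a) = (Matrix.vecMulLinear B) ∘ (fun a => A a) := by
    funext a j
    simp only [Function.comp_apply, Matrix.vecMulLinear_apply, Matrix.mul_apply, Matrix.vecMul,
      dotProduct]
  rw [e] at h
  exact LinearIndependent.of_comp _ h

lemma MW_li {M : Matrix (Fin k) (Fin n) ℝ} (hM : MaxMinorsNonneg M)
    (hM' : LinearIndependent ℝ (fun a => M a)) :
    LinearIndependent ℝ (fun a => (M * (twist Z)ᵀ) a) := by
  obtain ⟨I, hI, hIne⟩ := (rows_iff M).1 hM'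
  obtain ⟨J, hJ, hJp⟩ := MT_pos_exists hn hZ hM hI (lt_of_le_of_ne (hM I hI) hIne.symm)
  apply li_of_mul (B := Z)
  rw [rows_iff]
  exact ⟨J, hJ, hJp.ne'⟩

omit hn hZ in
lemma pairing_eq (Y : Matrix (Fin k) (Fin (k + 2)) ℝ) (Z : Matrix (Fin (k + 2)) (Fin n) ℝ)
    (I : Fin k → Fin n) : pairing Y Z I = ((Y * Z).submatrix id I).det := by
  have e : (Y * Z).submatrix id I = Y * Z.submatrix id I := by
    ext a b
    simp [Matrix.mul_apply]
  rw [e, cauchy_binet]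
  rfl

/-- the amplituhedron of the twist is contained in the dual amplituhedron -/
theorem amp_sub_dual : amplituhedron (twist Z) ⊆ dualAmp Z := by
  rintro V ⟨M, hM1, hM2, hV⟩
  refine ⟨⟨M * (twist Z)ᵀ, MW_li hn hZ hM2 hM1⟩, ?_, ?_⟩
  · apply Subtype.ext
    exact hV.symm
  · intro I hI
    rw [pairing_eq]
    exact MT_nonneg hn hZ hM2 I hI

end

/-- a vector orthogonal to the complement lies in the span -/
lemma mem_span_of_perp {k : ℕ} {Y : Fin k → (Fin (k + 2) → ℝ)} (hY : LinearIndependent ℝ Y)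
    {z₁ z₂ : Fin (k + 2) → ℝ} (hz : LinearIndependent ℝ ![z₁, z₂])
    (h1 : ∀ i, Y i ⬝ᵥ z₁ = 0) (h2 : ∀ i, Y i ⬝ᵥ z₂ = 0) {v : Fin (k + 2) → ℝ}
    (hv1 : v ⬝ᵥ z₁ = 0) (hv2 : v ⬝ᵥ z₂ = 0) : v ∈ Submodule.span ℝ (Set.range Y) := by
  have hr : Module.finrank ℝ (LinearMap.range (Matrix.of ![z₁, z₂]).mulVecLin) = 2 := by
    have := hz.rank_matrix (M := Matrix.of ![z₁, z₂])
    rw [Matrix.rank, Fintype.card_fin] at this
    exact this
  have h3 := LinearMap.finrank_range_add_finrank_ker (Matrix.of ![z₁, z₂]).mulVecLin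
  rw [hr] at h3
  simp only [Module.finrank_fintype_fun_eq_card, Fintype.card_fin] at h3
  have h4 : Module.finrank ℝ (LinearMap.ker (Matrix.of ![z₁, z₂]).mulVecLin) = k := by omega
  have hmem : ∀ v : Fin (k + 2) → ℝ, v ∈ LinearMap.ker (Matrix.of ![z₁, z₂]).mulVecLin ↔
      (v ⬝ᵥ z₁ = 0 ∧ v ⬝ᵥ z₂ = 0) := by
    intro v
    rw [LinearMap.mem_ker, Matrix.mulVecLin_apply]
    constructor
    · intro h
      constructor
      · have := congrFun h 0
        rw [dotProduct_comm]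
        exact this
      · have := congrFun h 1
        rw [dotProduct_comm]
        exact this
    · rintro ⟨a, b⟩
      funext i
      fin_cases i
      · rw [dotProduct_comm] at a
        exact a
      · rw [dotProduct_comm] at b
        exact b
  have h5 : Submodule.span ℝ (Set.range Y) ≤ LinearMap.ker (Matrix.of ![z₁, z₂]).mulVecLin := by
    rw [Submodule.span_le]
    rintro _ ⟨i, rfl⟩
    exact (hmem _).2 ⟨h1 i, h2 i⟩
  have h6 : Submodule.span ℝ (Set.range Y) = LinearMap.ker (Matrix.of ![z₁, z₂]).mulVecLin := by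
    apply Submodule.eq_of_le_of_finrank_eq h5
    rw [h4, finrank_span_eq_card hY, Fintype.card_fin]
  rw [h6]
  exact (hmem v).2 ⟨hv1, hv2⟩

/-- planar vectors attached to a configuration and a pair of vectors -/
noncomputable def pl {k n : ℕ} (W : Matrix (Fin (k + 2)) (Fin n) ℝ) (z₁ z₂ : Fin (k + 2) → ℝ)
    (j : ℕ) : ℝ × ℝ := (col W j ⬝ᵥ z₁, col W j ⬝ᵥ z₂)

/-- a relation between the planar vectors gives a point of the amplituhedron -/
theorem amp_of_rel {k n : ℕ} (hn : k + 2 ≤ n) {Z : Matrix (Fin (k + 2)) (Fin n) ℝ}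
    (hZ : MaxMinorsPos Z) (Y : Frame k (k + 2)) {z₁ z₂ : Fin (k + 2) → ℝ}
    (hz : LinearIndependent ℝ ![z₁, z₂]) (h1 : ∀ i, Y.1 i ⬝ᵥ z₁ = 0) (h2 : ∀ i, Y.1 i ⬝ᵥ z₂ = 0)
    (M : Matrix (Fin k) (Fin n) ℝ) (hM : MaxMinorsNonneg M)
    (hM' : LinearIndependent ℝ (fun a => M a))
    (hrel : ∀ a, ∑ j : Fin n, M a j • pl (twist Z) z₁ z₂ j = 0) :
    Y.toGr ∈ amplituhedron (twist Z) := by
  refine ⟨M, hM', hM, ?_⟩
  have hli := MW_li hn hZ hM hM'
  have hdot : ∀ (a : Fin k) (v : Fin (k + 2) → ℝ), (M * (twist Z)ᵀ) a ⬝ᵥ v =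
      ∑ j : Fin n, M a j * (col (twist Z) (j : ℕ) ⬝ᵥ v) := by
    intro a v
    simp only [dotProduct, Matrix.mul_apply, Matrix.transpose_apply, Finset.sum_mul,
      Finset.mul_sum]
    rw [Finset.sum_comm]
    apply Finset.sum_congr rfl
    intro j _
    apply Finset.sum_congr rfl
    intro c _
    unfold col
    rw [dif_pos j.2]
    ring
  have hmem : ∀ a, (M * (twist Z)ᵀ) a ∈ Submodule.span ℝ (Set.range (fun a => Y.1 a)) := by
    intro a
    have hr := hrel a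
    have e1 := congrArg Prod.fst hr
    have e2 := congrArg Prod.snd hr
    rw [Prod.fst_sum] at e1
    rw [Prod.snd_sum] at e2
    apply mem_span_of_perp Y.2 hz h1 h2
    · rw [hdot]
      exact e1
    · rw [hdot]
      exact e2
  symm
  apply Submodule.eq_of_le_of_finrank_eq
  · rw [Submodule.span_le]
    rintro _ ⟨a, rfl⟩
    exact hmem a
  · rw [finrank_span_eq_card hli, Fintype.card_fin]
    exact Y.toGr.2.symm

lemma pl_eq_xs {k n : ℕ} (hn : k + 2 ≤ n) (Z : Matrix (Fin (k + 2)) (Fin n) ℝ)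
    (z₁ z₂ : Fin (k + 2) → ℝ) {j : ℕ} (hj : j < n) :
    pl (twist Z) z₁ z₂ j = xs (zz Z) z₁ z₂ j := by
  unfold pl xs X
  rw [Wf_eq_sum, Wf_eq_sum, twist_col hn Z hj]
  rfl

lemma xs_end {k n : ℕ} (hn : k + 2 ≤ n) (Z : Matrix (Fin (k + 2)) (Fin n) ℝ)
    (z₁ z₂ : Fin (k + 2) → ℝ) :
    xs (zz Z) z₁ z₂ n = (-1 : ℝ) ^ (k + 1) • xs (zz Z) z₁ z₂ 0 := by
  have hper := zz_per (by omega : 0 < n) Z
  unfold xs X
  have h0 : ((n : ℕ) : ℤ) = ((0 : ℕ) : ℤ) + n := by push_cast; ring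
  rw [h0, Wf_per hper, Wf_per hper]
  rfl

/-- all `k`-minors of `Y Z` positive -/
def Strict {k n : ℕ} (Y : Matrix (Fin k) (Fin (k + 2)) ℝ) (Z : Matrix (Fin (k + 2)) (Fin n) ℝ) :
    Prop := ∀ J : Fin k → Fin n, StrictMono J → 0 < ((Y * Z).submatrix id J).det

lemma strict_qpos {k n : ℕ} (hn : k + 2 ≤ n) {Z : Matrix (Fin (k + 2)) (Fin n) ℝ}
    {Y : Matrix (Fin k) (Fin (k + 2)) ℝ} (hYZ : Strict Y Z) {z₁ z₂ : Fin (k + 2) → ℝ} {c₂ : ℝ}
    (hc : 0 < c₂) (h : ∀ u : Fin k → (Fin (k + 2) → ℝ), D2 u z₁ z₂ = c₂ *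
        (Matrix.of (fun i j => u i ⬝ᵥ Y j)).det) : QPos k n (zz Z) z₁ z₂ := by
  intro f hf
  rw [h]
  apply mul_pos hc
  obtain ⟨g, hg1, hg2, hg3, _⟩ := normalize hf 0
  have h1 : D ((fun i b => zz Z i ⬝ᵥ Y b) ∘ g) = D ((fun i b => zz Z i ⬝ᵥ Y b) ∘ f) :=
    hg3 (fun i b => zz Z i ⬝ᵥ Y b) (by
      intro j
      funext b
      show zz Z (j + n) ⬝ᵥ Y b = (-1 : ℝ) ^ (k + 1) * (zz Z j ⬝ᵥ Y b)
      rw [zz_per (by omega) Z j, smul_dotProduct, smul_eq_mul])
  have h2 : (Matrix.of (fun i j => (zz Z ∘ f) i ⬝ᵥ Y j)).det =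
      D ((fun i b => zz Z i ⬝ᵥ Y b) ∘ f) := rfl
  rw [h2, ← h1]
  obtain ⟨J, hJ, rfl⟩ := exists_castT hg1.1 hg2
  have h3 := hYZ J hJ
  have h4 : D ((fun i b => zz Z i ⬝ᵥ Y b) ∘ castT J) = ((Y * Z).submatrix id J).det := by
    unfold D
    rw [← Matrix.det_transpose]
    congr 1
    ext a b
    simp only [Matrix.transpose_apply, Matrix.of_apply, Function.comp_apply, castT,
      Matrix.submatrix_apply, id_eq, Matrix.mul_apply, dotProduct, zz_apply]
    apply Finset.sum_congr rfl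
    intro c _
    ring
  rw [h4]
  exact h3

lemma signFlips_smul {m : ℕ} {c : ℝ} (hc : 0 < c) (s : Fin m → ℝ) :
    signFlips (fun j => c * s j) = signFlips s := by
  classical
  unfold signFlips
  congr 1
  apply Finset.filter_congr
  intro p _
  have h1 : c * s p.1 * (c * s p.2) < 0 ↔ s p.1 * s p.2 < 0 := by
    have : c * s p.1 * (c * s p.2) = (c * c) * (s p.1 * s p.2) := by ring
    rw [this]
    have hcc : 0 < c * c := mul_pos hc hc
    constructor
    · intro h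
      by_contra hcon
      rw [not_lt] at hcon
      have := mul_nonneg hcc.le hcon
      linarith
    · intro h
      exact mul_neg_of_pos_of_neg hcc h
  have h2 : ∀ r, c * s r = 0 ↔ s r = 0 := by
    intro r
    rw [mul_eq_zero]
    exact ⟨fun h => h.resolve_left hc.ne', Or.inr⟩
  simp only [h1, h2]

/-- strictly positive frames lie in the flip region -/
theorem strict_flip {k n : ℕ} (hn : k + 2 ≤ n) {Z : Matrix (Fin (k + 2)) (Fin n) ℝ}
    (hZ : MaxMinorsPos Z) (Y : Frame k (k + 2)) (hYZ : Strict Y.1 Z) :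
    Y.toGr ∈ flipRegion (twist Z) := by
  obtain ⟨z₁, z₂, c₁, c₂, hc1, hc2, hz, h1, h2, h3, h4⟩ := exists_bridge Y.2
  have hq := strict_qpos hn hYZ hc2 h4
  have hp := pos_zz hn hZ
  have hper := zz_per (by omega : 0 < n) Z
  have hturn : ∀ j, 0 < det2 (xs (zz Z) z₁ z₂ j) (xs (zz Z) z₁ z₂ (j + 1)) :=
    fun j => xs_turn hn hp hq j
  have htot := cross_total hn hper hp hq
  have hend := xs_end hn Z z₁ z₂
  have hC : (Cset (xs (zz Z) z₁ z₂) n).card = k := by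
    have := cross_total_eq (fun j _ => hturn j) (by omega) hend
    rw [htot] at this
    omega
  have hbr : ∀ i j : ℕ, i < n → j < n → bracket Y.1 (col (twist Z) i) (col (twist Z) j) =
      c₁ * det2 (xs (zz Z) z₁ z₂ i) (xs (zz Z) z₁ z₂ j) := by
    intro i j hi hj
    rw [← pl_eq_xs hn Z z₁ z₂ hi, ← pl_eq_xs hn Z z₁ z₂ hj]
    exact h3 _ _
  have hlast : 0 < (-1 : ℝ) ^ k * det2 (xs (zz Z) z₁ z₂ 0) (xs (zz Z) z₁ z₂ (n - 1)) := by
    have h5 := hturn (n - 1)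
    rw [Nat.sub_add_cancel (by omega), hend] at h5
    have h6 : det2 (xs (zz Z) z₁ z₂ (n - 1)) ((-1 : ℝ) ^ (k + 1) • xs (zz Z) z₁ z₂ 0) =
        (-1 : ℝ) ^ k * det2 (xs (zz Z) z₁ z₂ 0) (xs (zz Z) z₁ z₂ (n - 1)) := by
      unfold det2
      simp only [Prod.smul_fst, Prod.smul_snd, smul_eq_mul, pow_succ]
      ring
    rwa [h6] at h5
  refine ⟨Y, rfl, ?_, ?_, ?_⟩
  · intro i hi
    rw [hbr i (i + 1) (by omega) hi]
    exact mul_pos hc1 (hturn i)
  · rw [hbr 0 (n - 1) (by omega) (by omega)]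
    have : (-1 : ℝ) ^ k * (c₁ * det2 (xs (zz Z) z₁ z₂ 0) (xs (zz Z) z₁ z₂ (n - 1))) =
        c₁ * ((-1 : ℝ) ^ k * det2 (xs (zz Z) z₁ z₂ 0) (xs (zz Z) z₁ z₂ (n - 1))) := by ring
    rw [this]
    exact mul_pos hc1 hlast
  · have e : (fun j : Fin (n - 1) => bracket Y.1 (col (twist Z) 0)
        (col (twist Z) ((j : ℕ) + 1))) =
        fun j : Fin (n - 1) => c₁ * det2 (xs (zz Z) z₁ z₂ 0) (xs (zz Z) z₁ z₂ ((j : ℕ) + 1)) := by
      funext j
      have := j.2
      exact hbr 0 _ (by omega) (by omega)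
    rw [e, signFlips_smul hc1 (fun j : Fin (n - 1) => det2 (xs (zz Z) z₁ z₂ 0)
      (xs (zz Z) z₁ z₂ ((j : ℕ) + 1))), signFlips_eq (fun j _ => hturn j) (by omega) _, hC]
    intro h0
    rw [h0, mul_zero] at hlast
    exact lt_irrefl _ hlast

/-- Kermit: the flip region is contained in the amplituhedron -/
theorem flip_sub_amp {k n : ℕ} (hn : k + 2 ≤ n) {Z : Matrix (Fin (k + 2)) (Fin n) ℝ}
    (hZ : MaxMinorsPos Z) : flipRegion (twist Z) ⊆ amplituhedron (twist Z) := by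
  rintro V ⟨Y, rfl, hb1, hb2, hb3⟩
  obtain ⟨z₁, z₂, c₁, c₂, hc1, hc2, hz, h1, h2, h3, h4⟩ := exists_bridge Y.2
  have hend := xs_end hn Z z₁ z₂
  have hbr : ∀ i j : ℕ, i < n → j < n → bracket Y.1 (col (twist Z) i) (col (twist Z) j) =
      c₁ * det2 (xs (zz Z) z₁ z₂ i) (xs (zz Z) z₁ z₂ j) := by
    intro i j hi hj
    rw [← pl_eq_xs hn Z z₁ z₂ hi, ← pl_eq_xs hn Z z₁ z₂ hj]
    exact h3 _ _
  rw [hbr 0 (n - 1) (by omega) (by omega)] at hb2
  have hlast : 0 < (-1 : ℝ) ^ k * det2 (xs (zz Z) z₁ z₂ 0) (xs (zz Z) z₁ z₂ (n - 1)) := by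
    have : (-1 : ℝ) ^ k * (c₁ * det2 (xs (zz Z) z₁ z₂ 0) (xs (zz Z) z₁ z₂ (n - 1))) =
        c₁ * ((-1 : ℝ) ^ k * det2 (xs (zz Z) z₁ z₂ 0) (xs (zz Z) z₁ z₂ (n - 1))) := by ring
    rw [this] at hb2
    exact (pos_iff_pos_of_mul_pos hb2).1 hc1
  have hturn : ∀ j < n, 0 < det2 (xs (zz Z) z₁ z₂ j) (xs (zz Z) z₁ z₂ (j + 1)) := by
    intro j hj
    rcases Nat.lt_or_ge (j + 1) n with hj1 | hj1
    · have := hb1 j hj1
      rw [hbr j (j + 1) hj hj1] at this
      exact (pos_iff_pos_of_mul_pos this).1 hc1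
    · have hjn : j = n - 1 := by omega
      subst hjn
      rw [Nat.sub_add_cancel (by omega), hend]
      have h6 : det2 (xs (zz Z) z₁ z₂ (n - 1)) ((-1 : ℝ) ^ (k + 1) • xs (zz Z) z₁ z₂ 0) =
          (-1 : ℝ) ^ k * det2 (xs (zz Z) z₁ z₂ 0) (xs (zz Z) z₁ z₂ (n - 1)) := by
        unfold det2
        simp only [Prod.smul_fst, Prod.smul_snd, smul_eq_mul, pow_succ]
        ring
      rwa [h6]
  have hC : (Cset (xs (zz Z) z₁ z₂) n).card = k := by
    rw [← signFlips_eq hturn (by omega) (by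
      intro h0
      rw [h0, mul_zero] at hlast
      exact lt_irrefl _ hlast)]
    rw [← signFlips_smul hc1 (fun j : Fin (n - 1) => det2 (xs (zz Z) z₁ z₂ 0)
      (xs (zz Z) z₁ z₂ ((j : ℕ) + 1)))]
    refine Eq.trans ?_ hb3
    congr 1
    funext j
    have := j.2
    exact (hbr 0 _ (by omega) (by omega)).symm
  obtain ⟨M, hM1, hM2, J, hJ, hJp⟩ := kermit hturn (by omega) hC
  refine amp_of_rel hn hZ Y hz h1 h2 M hM2 ((rows_iff M).2 ⟨J, hJ, hJp.ne'⟩) ?_
  intro a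
  rw [← hM1 a]
  apply Finset.sum_congr rfl
  intro j _
  rw [pl_eq_xs hn Z z₁ z₂ j.2]

end Pool.Agent.AmpDual
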