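import Pool.Agent.AmpDual.CB

set_option autoImplicit false

/-! Normalisation of nonnegative matrices and compactness. -/

namespace Pool.Agent.AmpDual

open Matrix

/-- the compact set of normalised nonnegative matrices -/
def NC (k n : ℕ) : Set (Matrix (Fin k) (Fin n) ℝ) :=
  {M | (∀ a j, |M a j| ≤ 1) ∧ (∀ J : Fin k → Fin n, StrictMono J → 0 ≤ (M.submatrix id J).det) ∧
    ∃ J : Fin k → Fin n, StrictMono J ∧ M.submatrix id J = 1}

lemma continuous_minor {k n p : ℕ} (I : Fin k → Fin p) (J : Fin k → Fin n) :
    Continuous (fun M : Matrix (Fin p) (Fin n) ℝ => (M.submatrix I J).det) :=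
  (continuous_id.matrix_submatrix I J).matrix_det

lemma isClosed_NC (k n : ℕ) : IsClosed (NC k n) := by
  have h1 : IsClosed {M : Matrix (Fin k) (Fin n) ℝ | ∀ a j, |M a j| ≤ 1} := by
    simp only [Set.setOf_forall]
    apply isClosed_iInter
    intro a
    apply isClosed_iInter
    intro j
    exact isClosed_le ((continuous_apply j).comp (continuous_apply a)).abs continuous_const
  have h2 : IsClosed {M : Matrix (Fin k) (Fin n) ℝ | ∀ J : Fin k → Fin n, StrictMono J →
      0 ≤ (M.submatrix id J).det} := by
    simp only [Set.setOf_forall]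
    apply isClosed_iInter
    intro J
    apply isClosed_iInter
    intro _
    exact isClosed_le continuous_const (continuous_minor id J)
  have h3 : IsClosed {M : Matrix (Fin k) (Fin n) ℝ | ∃ J : Fin k → Fin n, StrictMono J ∧
      M.submatrix id J = 1} := by
    have : {M : Matrix (Fin k) (Fin n) ℝ | ∃ J : Fin k → Fin n, StrictMono J ∧
        M.submatrix id J = 1} = ⋃ J : {J : Fin k → Fin n // StrictMono J},
          {M : Matrix (Fin k) (Fin n) ℝ | M.submatrix id J.1 = 1} := by
      ext M
      simp
    rw [this]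
    apply isClosed_iUnion_of_finite
    intro J
    exact isClosed_eq (continuous_id.matrix_submatrix id J.1) continuous_const
  exact h1.inter (h2.inter h3)

lemma isCompact_NC (k n : ℕ) : IsCompact (NC k n) := by
  have h : IsCompact (Set.pi Set.univ (fun _ : Fin k => Set.pi Set.univ
      (fun _ : Fin n => Set.Icc (-1 : ℝ) 1))) :=
    isCompact_univ_pi (fun _ => isCompact_univ_pi (fun _ => isCompact_Icc))
  refine h.of_isClosed_subset (isClosed_NC k n) ?_
  intro M hM
  rw [Set.mem_univ_pi]
  intro a
  rw [Set.mem_univ_pi]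
  intro j
  exact abs_le.1 (hM.1 a j)

/-- normalisation -/
theorem exists_norm {k n : ℕ} (M : Matrix (Fin k) (Fin n) ℝ)
    (h0 : ∀ J : Fin k → Fin n, StrictMono J → 0 ≤ (M.submatrix id J).det)
    (h1 : ∃ J : Fin k → Fin n, StrictMono J ∧ 0 < (M.submatrix id J).det)
    (x : Fin n → ℝ × ℝ) (hx : ∀ a, ∑ j, M a j • x j = 0) :
    ∃ M' ∈ NC k n, ∀ a, ∑ j, M' a j • x j = 0 := by
  obtain ⟨J0, hJ0, hJ0p⟩ := h1
  haveI : Nonempty (Fin k → Fin n) := ⟨J0⟩
  obtain ⟨f, hf⟩ := Finite.exists_max (fun f : Fin k → Fin n => |(M.submatrix id f).det|)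
  have hfpos : 0 < |(M.submatrix id f).det| := by
    have := hf J0
    rw [abs_of_pos hJ0p] at this
    linarith
  have hinj : Function.Injective f := by
    by_contra hcon
    rw [det_cols_not_inj M f hcon] at hfpos
    simp at hfpos
  obtain ⟨J, π, hJ, hJπ⟩ := exists_sort f hinj
  have hdet : |(M.submatrix id J).det| = |(M.submatrix id f).det| := by
    have e : M.submatrix id f = (M.submatrix id J).submatrix id π := by
      rw [← hJπ]
      rfl
    rw [e, Matrix.det_permute', abs_mul]
    rcases Int.units_eq_one_or (Equiv.Perm.sign π) with h | h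
    · rw [h]; simp
    · rw [h]; simp
  set B := (M.submatrix id J).det with hB
  have hBpos : 0 < B := by
    rw [← hdet] at hfpos
    rcases (h0 J hJ).lt_or_eq with h | h
    · exact h
    · rw [hB, ← h] at hfpos
      simp at hfpos
  have hmax : ∀ g : Fin k → Fin n, |(M.submatrix id g).det| ≤ B := by
    intro g
    have := hf g
    rw [← hdet, abs_of_pos hBpos] at this
    exact this
  have hunit : IsUnit (M.submatrix id J).det := isUnit_iff_ne_zero.2 hBpos.ne'
  have hsub : ∀ I : Fin k → Fin n, ((M.submatrix id J)⁻¹ * M).submatrix id I =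
      (M.submatrix id J)⁻¹ * M.submatrix id I := by
    intro I
    ext a b
    simp [Matrix.mul_apply]
  refine ⟨(M.submatrix id J)⁻¹ * M, ⟨?_, ?_, ?_⟩, ?_⟩
  · intro a j
    have e1 : ((M.submatrix id J)⁻¹ * M) a j = ((M.submatrix id J)⁻¹ *ᵥ (fun c => M c j)) a := rfl
    have e2 : (M.submatrix id J)⁻¹ *ᵥ (fun c => M c j) =
        B⁻¹ • Matrix.cramer (M.submatrix id J) (fun c => M c j) := by
      rw [Matrix.inv_def, Ring.inverse_eq_inv', Matrix.smul_mulVec,
        Matrix.cramer_eq_adjugate_mulVec]
    rw [e1, e2, Pi.smul_apply, Matrix.cramer_apply, smul_eq_mul, abs_mul, abs_of_pos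
      (inv_pos.2 hBpos)]
    have e3 : (M.submatrix id J).updateCol a (fun c => M c j) =
        M.submatrix id (Function.update J a j) := by
      ext c d
      rw [Matrix.updateCol_apply, Matrix.submatrix_apply, Matrix.submatrix_apply]
      by_cases hd : d = a
      · rw [if_pos hd, hd, Function.update_self]
        rfl
      · rw [if_neg hd, Function.update_of_ne hd]
    rw [e3, inv_mul_le_iff₀ hBpos, mul_one]
    exact hmax _
  · intro I hI
    rw [hsub, Matrix.det_mul, Matrix.det_nonsing_inv, Ring.inverse_eq_inv']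
    exact mul_nonneg (inv_nonneg.2 hBpos.le) (h0 I hI)
  · refine ⟨J, hJ, ?_⟩
    rw [hsub, Matrix.nonsing_inv_mul _ hunit]
  · intro a
    have : ∀ j, ((M.submatrix id J)⁻¹ * M) a j • x j =
        ∑ b, (M.submatrix id J)⁻¹ a b • (M b j • x j) := by
      intro j
      rw [Matrix.mul_apply, Finset.sum_smul]
      apply Finset.sum_congr rfl
      intro b _
      rw [mul_smul]
    simp only [this]
    rw [Finset.sum_comm]
    apply Finset.sum_eq_zero
    intro b _
    rw [← Finset.smul_sum, hx b, smul_zero]

end Pool.Agent.AmpDual
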