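import Pool.Agent.AmpDual.Cyc

set_option autoImplicit false

/-! Rotation of index tuples. -/

namespace Pool.Agent.AmpDual

lemma D_perm {m : ℕ} (u : Fin m → (Fin m → ℝ)) (σ : Equiv.Perm (Fin m)) :
    D (u ∘ σ) = (Equiv.Perm.sign σ : ℤ) * D u := by
  unfold D
  have : Matrix.of (u ∘ σ) = (Matrix.of u).submatrix σ id := by
    ext a b
    rfl
  rw [this, Matrix.det_permute]

lemma D_scale {m : ℕ} (u : Fin m → (Fin m → ℝ)) (c : Fin m → ℝ) :
    D (fun i => c i • u i) = (∏ i, c i) * D u := by
  unfold D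
  have : Matrix.of (fun i => c i • u i) = Matrix.of (fun a b => c a * (Matrix.of u) a b) := by
    ext a b
    rfl
  rw [this, Matrix.det_mul_column]

/-- `g` is equivalent to `f` for all `s`-periodic systems of rows -/
def Req (m n : ℕ) (f g : Fin m → ℤ) : Prop :=
  ∀ r : ℤ → (Fin m → ℝ), (∀ j, r (j + n) = (-1 : ℝ) ^ (m + 1) • r j) → D (r ∘ g) = D (r ∘ f)

lemma Req.refl {m n : ℕ} (f : Fin m → ℤ) : Req m n f f := fun _ _ => rfl

lemma Req.symm {m n : ℕ} {f g : Fin m → ℤ} (h : Req m n f g) : Req m n g f :=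
  fun r hr => (h r hr).symm

lemma Req.trans {m n : ℕ} {f g h : Fin m → ℤ} (h1 : Req m n f g) (h2 : Req m n g h) :
    Req m n f h := fun r hr => (h2 r hr).trans (h1 r hr)

lemma req_shift {m n : ℕ} (f : Fin m → ℤ) : Req m n f (fun a => f a + n) := by
  intro r hr
  have h1 : (r ∘ fun a => f a + (n : ℤ)) = fun i => (-1 : ℝ) ^ (m + 1) • (r ∘ f) i := by
    funext i
    simp only [Function.comp_apply]
    exact hr _
  rw [h1, D_scale]
  simp only [Finset.prod_const, Finset.card_univ, Fintype.card_fin]
  rw [← pow_mul]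
  have : Even ((m + 1) * m) := by
    rw [mul_comm]
    exact Nat.even_mul_succ_self m
  rw [this.neg_one_pow, one_mul]

lemma req_shift_mul {m n : ℕ} (f : Fin m → ℤ) (t : ℕ) : Req m n f (fun a => f a + t * n) := by
  induction t with
  | zero => simpa using Req.refl f
  | succ t ih =>
    have h := ih.trans (req_shift _)
    have e : (fun a => f a + ((t + 1 : ℕ) : ℤ) * n) = fun a => f a + (t : ℤ) * n + n := by
      funext a
      push_cast
      ring
    rw [e]
    exact h

/-- move the last index to the front -/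
def rotI {m : ℕ} (n : ℕ) (f : Fin (m + 1) → ℤ) : Fin (m + 1) → ℤ :=
  Fin.cons (α := fun _ => ℤ) (f (Fin.last m) - n) (fun i : Fin m => f i.castSucc)

lemma req_rot {m n : ℕ} (f : Fin (m + 1) → ℤ) : Req (m + 1) n f (rotI n f) := by
  intro r hr
  have h1 : r ∘ f = fun i => (if i = Fin.last m then (-1 : ℝ) ^ (m + 1 + 1) else 1) •
      ((r ∘ rotI n f) ∘ finRotate (m + 1)) i := by
    funext i
    by_cases hi : i = Fin.last m
    · subst hi
      rw [if_pos rfl]
      simp only [Function.comp_apply, finRotate_last, rotI, Fin.cons_zero]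
      rw [← hr]
      congr 1
      ring
    · rw [if_neg hi, one_smul]
      simp only [Function.comp_apply]
      congr 1
      obtain ⟨j, rfl⟩ : ∃ j : Fin m, j.castSucc = i := by
        refine ⟨i.castLT ?_, ?_⟩
        · have := i.2
          have h3 : (i : ℕ) ≠ m := fun h => hi (Fin.ext h)
          omega
        · simp
      have e : finRotate (m + 1) j.castSucc = j.succ := by
        apply Fin.ext
        rw [coe_finRotate_of_ne_last hi]
        simp
      rw [e]
      simp [rotI]
  rw [h1, D_scale, D_perm, sign_finRotate]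
  simp only [Finset.prod_ite_eq', Finset.mem_univ, if_true]
  have h3 : (((-1 : ℤˣ) ^ (m + 1 - 1) : ℤˣ) : ℤ) = (-1) ^ m := by simp
  rw [h3]
  push_cast
  rw [← mul_assoc, ← pow_add]
  have : (-1 : ℝ) ^ (m + 1 + 1 + m) = 1 := by
    rw [show m + 1 + 1 + m = 2 * (m + 1) by ring, pow_mul]
    simp
  rw [this, one_mul]

lemma In.rot {m n : ℕ} {f : Fin (m + 1) → ℤ} (hf : In n f) : In n (rotI n f) := by
  have h0 : ∀ i : Fin m, f i.castSucc < f (Fin.last m) := fun i => hf.1 (Fin.castSucc_lt_last i)
  have h1 := hf.2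
  constructor
  · intro a b h
    unfold rotI
    induction b using Fin.cases with
    | zero => exact absurd h (Fin.not_lt_zero _)
    | succ b =>
      induction a using Fin.cases with
      | zero =>
        rw [Fin.cons_zero, Fin.cons_succ]
        have := h1 (Fin.last m) b.castSucc
        linarith
      | succ a =>
        rw [Fin.cons_succ, Fin.cons_succ]
        exact hf.1 (Fin.castSucc_lt_castSucc_iff.2 (Fin.succ_lt_succ_iff.1 h))
  · intro a b
    unfold rotI
    induction a using Fin.cases with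
    | zero =>
      rw [Fin.cons_zero]
      induction b using Fin.cases with
      | zero =>
        rw [Fin.cons_zero]
        have := h1 (Fin.last m) (Fin.last m)
        linarith
      | succ b =>
        rw [Fin.cons_succ]
        have := h1 (Fin.last m) b.castSucc
        have := h1 (Fin.last m) (Fin.last m)
        linarith
    | succ a =>
      rw [Fin.cons_succ]
      induction b using Fin.cases with
      | zero =>
        rw [Fin.cons_zero]
        have := h0 a
        linarith
      | succ b =>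
        rw [Fin.cons_succ]
        exact h1 _ _

lemma In.n_pos {m n : ℕ} {f : Fin (m + 1) → ℤ} (hf : In n f) : 0 < n := by
  have := hf.2 0 0
  omega

lemma rotI_res {m n : ℕ} (f : Fin (m + 1) → ℤ) (a : Fin (m + 1)) :
    ∃ (b : Fin (m + 1)) (t : ℤ), rotI n f a = f b + t * n := by
  unfold rotI
  induction a using Fin.cases with
  | zero => exact ⟨Fin.last m, -1, by rw [Fin.cons_zero]; ring⟩
  | succ a => exact ⟨a.castSucc, 0, by rw [Fin.cons_succ]; ring⟩

lemma normalize_aux {m n : ℕ} (c : ℤ) (s : ℕ) : ∀ f : Fin (m + 1) → ℤ, In n f → (∀ a, c ≤ f a) →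
    (∑ a, (f a - c)).toNat ≤ s → ∃ g : Fin (m + 1) → ℤ, In n g ∧ (∀ a, c ≤ g a ∧ g a < c + n) ∧
      Req (m + 1) n f g ∧ (∀ a, ∃ (b : Fin (m + 1)) (t : ℤ), g a = f b + t * n) := by
  induction s with
  | zero =>
    intro f hf hc hs
    refine ⟨f, hf, ?_, Req.refl f, fun a => ⟨a, 0, by ring⟩⟩
    intro a
    refine ⟨hc a, ?_⟩
    have h1 : ∀ b ∈ (Finset.univ : Finset (Fin (m + 1))), 0 ≤ f b - c := fun b _ => by
      have := hc b
      linarith
    have h2 := Finset.single_le_sum h1 (Finset.mem_univ a)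
    have h3 := hf.n_pos
    have h4 : ∑ a, (f a - c) ≤ 0 := by
      have := Int.toNat_eq_zero.1 (Nat.le_zero.1 hs)
      exact this
    omega
  | succ s ih =>
    intro f hf hc hs
    by_cases hl : f (Fin.last m) < c + n
    · refine ⟨f, hf, ?_, Req.refl f, fun a => ⟨a, 0, by ring⟩⟩
      intro a
      exact ⟨hc a, lt_of_le_of_lt (hf.1.monotone (Fin.le_last a)) hl⟩
    · have h1 : ∀ a, c ≤ rotI n f a := by
        intro a
        unfold rotI
        induction a using Fin.cases with
        | zero =>
          rw [Fin.cons_zero]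
          omega
        | succ a =>
          rw [Fin.cons_succ]
          exact hc _
      have h2 : ∑ a, (rotI n f a - c) = ∑ a, (f a - c) - n := by
        rw [Fin.sum_univ_succ, Fin.sum_univ_castSucc (fun a => f a - c)]
        unfold rotI
        simp only [Fin.cons_zero, Fin.cons_succ]
        ring
      have h3 := hf.n_pos
      obtain ⟨g, hg1, hg2, hg3, hg4⟩ := ih (rotI n f) hf.rot h1 (by
        rw [h2]
        omega)
      refine ⟨g, hg1, hg2, (req_rot f).trans hg3, fun a => ?_⟩
      obtain ⟨b, t, hb⟩ := hg4 a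
      obtain ⟨b', t', hb'⟩ := rotI_res (n := n) f b
      exact ⟨b', t' + t, by rw [hb, hb']; ring⟩

/-- every in-period tuple is equivalent to a sorted tuple with values in `[c, c + n)` -/
theorem normalize {m n : ℕ} {f : Fin m → ℤ} (hf : In n f) (c : ℤ) :
    ∃ g : Fin m → ℤ, In n g ∧ (∀ a, c ≤ g a ∧ g a < c + n) ∧ Req m n f g ∧
      (∀ a, ∃ (b : Fin m) (t : ℤ), g a = f b + t * n) := by
  cases m with
  | zero => exact ⟨f, hf, fun a => a.elim0, Req.refl f, fun a => a.elim0⟩
  | succ m =>
    have h3 := hf.n_pos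
    obtain ⟨t, ht⟩ : ∃ t : ℕ, ∀ a, c ≤ f a + t * n := by
      refine ⟨(c - f 0).toNat, fun a => ?_⟩
      have h1 := hf.1.monotone (Fin.zero_le a)
      have h2 : (c - f 0) ≤ ((c - f 0).toNat : ℤ) := Int.self_le_toNat _
      have h4 : ((c - f 0).toNat : ℤ) ≤ ((c - f 0).toNat : ℤ) * n := by
        have h5 : (1 : ℤ) ≤ n := by exact_mod_cast h3
        nlinarith [Int.natCast_nonneg ((c - f 0).toNat)]
      linarith
    have hf' : In n (fun a => f a + (t : ℤ) * n) :=
      ⟨fun a b h => by
        have := hf.1 h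
        show f a + (t : ℤ) * n < f b + (t : ℤ) * n
        linarith, fun a b => by
        have := hf.2 a b
        show f a + (t : ℤ) * n < f b + (t : ℤ) * n + n
        linarith⟩
    obtain ⟨g, hg1, hg2, hg3, hg4⟩ := normalize_aux c _ _ hf' ht le_rfl
    refine ⟨g, hg1, hg2, (req_shift_mul f t).trans hg3, fun a => ?_⟩
    obtain ⟨b, t', hb⟩ := hg4 a
    exact ⟨b, t + t', by rw [hb]; ring⟩

lemma in_of_mem {m n : ℕ} {f : Fin m → ℤ} (hf : StrictMono f) {c : ℤ}
    (h : ∀ a, c ≤ f a ∧ f a < c + n) : In n f :=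
  ⟨hf, fun a b => by have := h a; have := h b; omega⟩

end Pool.Agent.AmpDual
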