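import Pool.Agent.AmpDual.Main

set_option autoImplicit false

/-! Perturbation, limits and the topology of the Grassmannian. -/

namespace Pool.Agent.AmpDual

open Matrix Filter Topology

lemma mulK_pos {p n : ℕ} {M : Matrix (Fin p) (Fin n) ℝ} (hM : MaxMinorsNonneg M)
    (hM' : LinearIndependent ℝ (fun a => M a)) {t : ℝ} (ht : 1 < t) :
    MaxMinorsPos (M * Kt n t) := by
  obtain ⟨I, hI, hIne⟩ := (rows_iff M).1 hM'
  intro J hJ
  have e : (M * Kt n t).submatrix id J = M * (Kt n t).submatrix id J := by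
    ext a b
    simp [Matrix.mul_apply]
  rw [e, cauchy_binet]
  apply Finset.sum_pos'
  · intro I hI
    exact mul_nonneg (hM I (mem_srt.1 hI)) (Kt_minor_pos ht (mem_srt.1 hI) hJ).le
  · exact ⟨I, mem_srt.2 hI, mul_pos (lt_of_le_of_ne (hM I hI) hIne.symm)
      (Kt_minor_pos ht hI hJ)⟩

lemma rows_of_pos {k n : ℕ} (hn : k + 2 ≤ n) {Z : Matrix (Fin (k + 2)) (Fin n) ℝ}
    (hZ : MaxMinorsPos Z) : LinearIndependent ℝ (fun a => Z a) := by
  rw [rows_iff]
  exact ⟨Fin.castLE hn, Fin.strictMono_castLE hn, (hZ _ (Fin.strictMono_castLE hn)).ne'⟩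

lemma YZ_li {k n : ℕ} (hn : k + 2 ≤ n) {Z : Matrix (Fin (k + 2)) (Fin n) ℝ}
    (hZ : MaxMinorsPos Z) {Y : Matrix (Fin k) (Fin (k + 2)) ℝ}
    (hY : LinearIndependent ℝ (fun a => Y a)) : LinearIndependent ℝ (fun a => (Y * Z) a) := by
  have e : (fun a => (Y * Z) a) = (Matrix.vecMulLinear Z) ∘ (fun a => Y a) := by
    funext a j
    simp only [Function.comp_apply, Matrix.vecMulLinear_apply, Matrix.mul_apply, Matrix.vecMul,
      dotProduct]
  rw [e]
  apply hY.map'
  rw [LinearMap.ker_eq_bot']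
  intro v hv
  apply span_cols hn hZ
  intro j
  exact congrFun hv j

lemma continuous_twist {k n : ℕ} :
    Continuous (fun Z : Matrix (Fin (k + 2)) (Fin n) ℝ => twist Z) := by
  refine continuous_pi (fun c => continuous_pi (fun i => ?_))
  unfold twist
  simp only [Matrix.of_apply]
  apply Continuous.matrix_det
  refine continuous_pi (fun r => continuous_pi (fun s => ?_))
  simp only [Matrix.of_apply]
  induction r using Fin.lastCases with
  | last => simp only [Fin.snoc_last]; exact continuous_const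
  | cast a =>
    simp only [Fin.snoc_castSucc]
    unfold colCyc col
    split_ifs with h1 h2
    · exact (continuous_apply (⟨_, h1⟩ : Fin n)).comp (continuous_apply s)
    · simp only [Pi.smul_apply, smul_eq_mul]
      exact continuous_const.mul ((continuous_apply (⟨_, h2⟩ : Fin n)).comp (continuous_apply s))
    · exact continuous_const

lemma continuous_pl {k n : ℕ} (z₁ z₂ : Fin (k + 2) → ℝ) (j : ℕ) :
    Continuous (fun Z : Matrix (Fin (k + 2)) (Fin n) ℝ => pl (twist Z) z₁ z₂ j) := by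
  have h : ∀ c, Continuous (fun Z : Matrix (Fin (k + 2)) (Fin n) ℝ => col (twist Z) j c) := by
    intro c
    unfold col
    split_ifs with hj
    · exact (continuous_apply (⟨j, hj⟩ : Fin n)).comp ((continuous_apply c).comp continuous_twist)
    · exact continuous_const
  unfold pl
  apply Continuous.prodMk
  · simp only [dotProduct]
    exact continuous_finsetSum _ (fun c _ => (h c).mul continuous_const)
  · simp only [dotProduct]
    exact continuous_finsetSum _ (fun c _ => (h c).mul continuous_const)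

/-- strictly positive frames: a normalised Kermit matrix -/
lemma strict_norm {k n : ℕ} (hn : k + 2 ≤ n) {Z : Matrix (Fin (k + 2)) (Fin n) ℝ}
    (hZ : MaxMinorsPos Z) {Y : Matrix (Fin k) (Fin (k + 2)) ℝ} (hYZ : Strict Y Z)
    {z₁ z₂ : Fin (k + 2) → ℝ} {c₂ : ℝ} (hc : 0 < c₂)
    (h : ∀ u : Fin k → (Fin (k + 2) → ℝ), D2 u z₁ z₂ = c₂ *
        (Matrix.of (fun i j => u i ⬝ᵥ Y j)).det) :
    ∃ M ∈ NC k n, ∀ a, ∑ j : Fin n, M a j • pl (twist Z) z₁ z₂ j = 0 := by
  have hq := strict_qpos hn hYZ hc h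
  have hp := pos_zz hn hZ
  have hper := zz_per (by omega : 0 < n) Z
  have hturn : ∀ j, 0 < det2 (xs (zz Z) z₁ z₂ j) (xs (zz Z) z₁ z₂ (j + 1)) :=
    fun j => xs_turn hn hp hq j
  have htot := cross_total hn hper hp hq
  have hend := xs_end hn Z z₁ z₂
  have hC : (Cset (xs (zz Z) z₁ z₂) n).card = k := by
    have := cross_total_eq (fun j _ => hturn j) (by omega) hend
    rw [htot] at this
    omega
  obtain ⟨M, hM1, hM2, hM3⟩ := kermit (fun j _ => hturn j) (by omega) hC
  refine exists_norm M hM2 hM3 (fun j : Fin n => pl (twist Z) z₁ z₂ j) ?_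
  intro a
  rw [← hM1 a]
  apply Finset.sum_congr rfl
  intro j _
  rw [pl_eq_xs hn Z z₁ z₂ j.2]

lemma tendsto_mulK {p n : ℕ} (M : Matrix (Fin p) (Fin n) ℝ) :
    Tendsto (fun m : ℕ => M * Kt n ((m : ℝ) + 2)) atTop (𝓝 M) := by
  have h1 : Tendsto (fun m : ℕ => (m : ℝ) + 2) atTop atTop :=
    tendsto_atTop_add_const_right _ _ tendsto_natCast_atTop_atTop
  have h2 := (Kt_tendsto n).comp h1
  have h3 : Continuous (fun K : Matrix (Fin n) (Fin n) ℝ => M * K) :=
    continuous_const.matrix_mul continuous_id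
  have h4 := (h3.tendsto 1).comp h2
  rw [Matrix.mul_one] at h4
  exact h4

/-- **dual amplituhedron ⊆ amplituhedron of the twist** -/
theorem dual_sub_amp {k n : ℕ} (hn : k + 2 ≤ n) {Z : Matrix (Fin (k + 2)) (Fin n) ℝ}
    (hZ : MaxMinorsPos Z) : dualAmp Z ⊆ amplituhedron (twist Z) := by
  rintro V ⟨Y, rfl, hY⟩
  have hYZ : MaxMinorsNonneg (Y.1 * Z) := by
    intro J hJ
    rw [← pairing_eq]
    exact hY J hJ
  obtain ⟨z₁, z₂, c₁, c₂, hc1, hc2, hz, h1, h2, h3, h4⟩ := exists_bridge Y.2
  have ht : ∀ m : ℕ, (1 : ℝ) < (m : ℝ) + 2 := by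
    intro m
    have : (0 : ℝ) ≤ m := Nat.cast_nonneg m
    linarith
  have hex : ∀ m : ℕ, ∃ M ∈ NC k n, ∀ a, ∑ j : Fin n, M a j •
      pl (twist (Z * Kt n ((m : ℝ) + 2))) z₁ z₂ j = 0 := by
    intro m
    have hZt : MaxMinorsPos (Z * Kt n ((m : ℝ) + 2)) :=
      mulK_pos (fun J hJ => (hZ J hJ).le) (rows_of_pos hn hZ) (ht m)
    have hst : Strict Y.1 (Z * Kt n ((m : ℝ) + 2)) := by
      have h5 := mulK_pos hYZ (YZ_li hn hZ Y.2) (ht m)
      rw [Matrix.mul_assoc] at h5
      exact h5
    exact strict_norm hn hZt hst hc2 h4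
  choose M hM1 hM2 using hex
  have : FirstCountableTopology (Matrix (Fin k) (Fin n) ℝ) :=
    inferInstanceAs (FirstCountableTopology (Fin k → Fin n → ℝ))
  obtain ⟨M', hM', φ, hφ, hlim⟩ := (isCompact_NC k n).tendsto_subseq hM1
  have hlimZ : Tendsto (fun m : ℕ => Z * Kt n (((φ m : ℕ) : ℝ) + 2)) atTop (𝓝 Z) :=
    (tendsto_mulK Z).comp hφ.tendsto_atTop
  have hrel : ∀ a, ∑ j : Fin n, M' a j • pl (twist Z) z₁ z₂ j = 0 := by
    intro a
    have h5 : Tendsto (fun m => ∑ j : Fin n, M (φ m) a j •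
        pl (twist (Z * Kt n (((φ m : ℕ) : ℝ) + 2))) z₁ z₂ j) atTop
        (𝓝 (∑ j : Fin n, M' a j • pl (twist Z) z₁ z₂ j)) := by
      apply tendsto_finsetSum
      intro j _
      apply Tendsto.smul
      · have h6 : Continuous (fun M : Matrix (Fin k) (Fin n) ℝ => M a j) :=
          (continuous_apply j).comp (continuous_apply a)
        exact (h6.tendsto M').comp hlim
      · exact ((continuous_pl z₁ z₂ (j : ℕ)).tendsto Z).comp hlimZ
    have h6 : Tendsto (fun m => ∑ j : Fin n, M (φ m) a j •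
        pl (twist (Z * Kt n (((φ m : ℕ) : ℝ) + 2))) z₁ z₂ j) atTop (𝓝 0) := by
      have : (fun m => ∑ j : Fin n, M (φ m) a j •
          pl (twist (Z * Kt n (((φ m : ℕ) : ℝ) + 2))) z₁ z₂ j) = fun _ => 0 := by
        funext m
        exact hM2 (φ m) a
      rw [this]
      exact tendsto_const_nhds
    exact tendsto_nhds_unique h5 h6
  obtain ⟨J, hJ, hJ1⟩ := hM'.2.2
  refine amp_of_rel hn hZ Y hz h1 h2 M' hM'.2.1 ((rows_iff M').2 ⟨J, hJ, ?_⟩) hrel
  rw [hJ1, Matrix.det_one]
  exact one_ne_zero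

/-- change of frame -/
lemma exists_change {k m : ℕ} (Y Y' : Frame k m) (h : Y.toGr = Y'.toGr) :
    ∃ g : Matrix (Fin k) (Fin k) ℝ, Y'.1 = g * Y.1 := by
  have h1 : ∀ a, Y'.1 a ∈ Submodule.span ℝ (Set.range (fun a => Y.1 a)) := by
    intro a
    have h2 : Submodule.span ℝ (Set.range (fun a => Y.1 a)) =
        Submodule.span ℝ (Set.range (fun a => Y'.1 a)) := congrArg Subtype.val h
    rw [h2]
    exact Submodule.subset_span ⟨a, rfl⟩
  have h3 : ∀ a, ∃ c : Fin k → ℝ, ∑ i, c i • Y.1 i = Y'.1 a := by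
    intro a
    exact (Submodule.mem_span_range_iff_exists_fun ℝ).1 (h1 a)
  choose g hg using h3
  refine ⟨Matrix.of g, ?_⟩
  ext a j
  rw [← hg a, Matrix.mul_apply]
  simp [Finset.sum_apply]

lemma change_det_ne {k m : ℕ} {Y Y' : Frame k m} {g : Matrix (Fin k) (Fin k) ℝ}
    (h : Y'.1 = g * Y.1) : g.det ≠ 0 := by
  obtain ⟨J, _, hJ⟩ := (rows_iff Y'.1).1 Y'.2
  have e : Y'.1.submatrix id J = g * Y.1.submatrix id J := by
    rw [h]
    ext a b
    simp [Matrix.mul_apply]
  rw [e, Matrix.det_mul] at hJ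
  exact left_ne_zero_of_mul hJ

lemma minor_change {k m n : ℕ} {Y Y' : Frame k m} {g : Matrix (Fin k) (Fin k) ℝ}
    (h : Y'.1 = g * Y.1) (Z : Matrix (Fin m) (Fin n) ℝ) (J : Fin k → Fin n) :
    ((Y'.1 * Z).submatrix id J).det = g.det * ((Y.1 * Z).submatrix id J).det := by
  have e : (Y'.1 * Z).submatrix id J = g * (Y.1 * Z).submatrix id J := by
    rw [h, Matrix.mul_assoc]
    ext a b
    simp [Matrix.mul_apply]
  rw [e, Matrix.det_mul]

lemma continuous_toGr {k m : ℕ} : Continuous (Frame.toGr (k := k) (m := m)) :=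
  continuous_coinduced_rng

/-- the dual amplituhedron is closed -/
theorem isClosed_dual {k n : ℕ} (hk : 1 ≤ k) (Z : Matrix (Fin (k + 2)) (Fin n) ℝ) :
    IsClosed (dualAmp Z) := by
  refine isClosed_coinduced.2 ?_
  have hpre : Frame.toGr ⁻¹' (dualAmp Z) =
      {Y : Frame k (k + 2) | ∀ J : Fin k → Fin n, StrictMono J →
        0 ≤ ((Y.1 * Z).submatrix id J).det} ∪
      {Y : Frame k (k + 2) | ∀ J : Fin k → Fin n, StrictMono J →
        ((Y.1 * Z).submatrix id J).det ≤ 0} := by
    ext Y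
    constructor
    · rintro ⟨Y', hY', h⟩
      obtain ⟨g, hg⟩ := exists_change Y' Y hY'
      rcases lt_or_gt_of_ne (change_det_ne hg) with h1 | h1
      · right
        intro J hJ
        rw [minor_change hg, ← pairing_eq]
        exact mul_nonpos_of_nonpos_of_nonneg h1.le (h J hJ)
      · left
        intro J hJ
        rw [minor_change hg, ← pairing_eq]
        exact mul_nonneg h1.le (h J hJ)
    · rintro (h | h)
      · refine ⟨Y, rfl, fun I hI => ?_⟩
        rw [pairing_eq]
        exact h I hI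
      · -- change the sign of one row
        set d : Fin k → ℝ := fun a => if a = ⟨0, hk⟩ then -1 else 1 with hd
        have hdp : ∏ a, d a = -1 := by
          rw [hd]
          simp
        have hd0 : ∀ a, d a ≠ 0 := by
          intro a
          rw [hd]
          dsimp only
          split_ifs <;> norm_num
        have hli : LinearIndependent ℝ (fun a => (Matrix.of (fun a j => d a * Y.1 a j)) a) := by
          have := Y.2.units_smul (fun a => Units.mk0 (d a) (hd0 a))
          exact this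
        have hspan : Submodule.span ℝ (Set.range (fun a => (Matrix.of (fun a j =>
            d a * Y.1 a j)) a)) = Submodule.span ℝ (Set.range (fun a => Y.1 a)) := by
          apply Submodule.eq_of_le_of_finrank_eq
          · rw [Submodule.span_le]
            rintro _ ⟨a, rfl⟩
            have : (Matrix.of (fun a j => d a * Y.1 a j)) a = d a • Y.1 a := rfl
            show (Matrix.of (fun a j => d a * Y.1 a j)) a ∈ _
            rw [this]
            exact Submodule.smul_mem _ _ (Submodule.subset_span ⟨a, rfl⟩)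
          · rw [finrank_span_eq_card hli, finrank_span_eq_card Y.2]
        refine ⟨⟨Matrix.of (fun a j => d a * Y.1 a j), hli⟩, Subtype.ext hspan, ?_⟩
        intro I hI
        rw [pairing_eq]
        have e : ((Matrix.of (fun a j => d a * Y.1 a j)) * Z).submatrix id I =
            Matrix.of (fun a b => d a * ((Y.1 * Z).submatrix id I) a b) := by
          ext a b
          simp only [Matrix.submatrix_apply, Matrix.mul_apply, Matrix.of_apply, id_eq,
            Finset.mul_sum]
          apply Finset.sum_congr rfl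
          intro c _
          ring
        show 0 ≤ (((Matrix.of (fun a j => d a * Y.1 a j)) * Z).submatrix id I).det
        rw [e, Matrix.det_mul_column, hdp]
        have := h I hI
        linarith
  rw [hpre]
  have hc : ∀ J : Fin k → Fin n, Continuous (fun Y : Frame k (k + 2) =>
      ((Y.1 * Z).submatrix id J).det) := by
    intro J
    exact (continuous_minor id J).comp (continuous_subtype_val.matrix_mul continuous_const)
  apply IsClosed.union
  · simp only [Set.ofPred_forall]
    exact isClosed_iInter (fun J => isClosed_iInter (fun _ => isClosed_le continuous_const (hc J)))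
  · simp only [Set.ofPred_forall]
    exact isClosed_iInter (fun J => isClosed_iInter (fun _ => isClosed_le (hc J) continuous_const))

/-- **amplituhedron ⊆ closure of the flip region** -/
theorem amp_sub_closure {k n : ℕ} (hn : k + 2 ≤ n) {Z : Matrix (Fin (k + 2)) (Fin n) ℝ}
    (hZ : MaxMinorsPos Z) : amplituhedron (twist Z) ⊆ closure (flipRegion (twist Z)) := by
  rintro V ⟨M, hM1, hM2, hV⟩
  have ht : ∀ m : ℕ, (1 : ℝ) < (m : ℝ) + 2 := by
    intro m
    have : (0 : ℝ) ≤ m := Nat.cast_nonneg m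
    linarith
  have hMt : ∀ m : ℕ, MaxMinorsPos (M * Kt n ((m : ℝ) + 2)) := fun m => mulK_pos hM2 hM1 (ht m)
  have hstr : ∀ m : ℕ, Strict (M * Kt n ((m : ℝ) + 2) * (twist Z)ᵀ) Z := by
    intro m J hJ
    exact MT_pos_all hn hZ (hMt m) J hJ
  have hkn : k ≤ n := by omega
  have hliT : ∀ m : ℕ, LinearIndependent ℝ (fun a => (M * Kt n ((m : ℝ) + 2) * (twist Z)ᵀ) a) := by
    intro m
    apply li_of_mul (B := Z)
    rw [rows_iff]
    exact ⟨Fin.castLE hkn, Fin.strictMono_castLE hkn, (hstr m _ (Fin.strictMono_castLE hkn)).ne'⟩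
  let F : ℕ → Frame k (k + 2) := fun m => ⟨M * Kt n ((m : ℝ) + 2) * (twist Z)ᵀ, hliT m⟩
  let F' : Frame k (k + 2) := ⟨M * (twist Z)ᵀ, MW_li hn hZ hM2 hM1⟩
  have hF' : F'.toGr = V := Subtype.ext hV.symm
  have hlim : Tendsto F atTop (𝓝 F') := by
    refine tendsto_subtype_rng.2 ?_
    have h1 : Continuous (fun A : Matrix (Fin k) (Fin n) ℝ => A * (twist Z)ᵀ) :=
      continuous_id.matrix_mul continuous_const
    exact (h1.tendsto M).comp (tendsto_mulK M)
  have hlim2 : Tendsto (fun m => (F m).toGr) atTop (𝓝 V) := by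
    rw [← hF']
    exact (continuous_toGr.tendsto F').comp hlim
  apply mem_closure_of_tendsto hlim2
  exact Eventually.of_forall (fun m => strict_flip hn hZ (F m) (hstr m))

theorem dual_eq_amp {k n : ℕ} (hn : k + 2 ≤ n) {Z : Matrix (Fin (k + 2)) (Fin n) ℝ}
    (hZ : MaxMinorsPos Z) : dualAmp Z = amplituhedron (twist Z) :=
  (dual_sub_amp hn hZ).antisymm (amp_sub_dual hn hZ)

theorem dual_eq_closure {k n : ℕ} (hk : 1 ≤ k) (hn : k + 2 ≤ n)
    {Z : Matrix (Fin (k + 2)) (Fin n) ℝ} (hZ : MaxMinorsPos Z) :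
    dualAmp Z = closure (flipRegion (twist Z)) := by
  apply Set.Subset.antisymm
  · exact (dual_sub_amp hn hZ).trans (amp_sub_closure hn hZ)
  · apply closure_minimal _ (isClosed_dual hk Z)
    exact (flip_sub_amp hn hZ).trans (amp_sub_dual hn hZ)

end Pool.Agent.AmpDual
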